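import Pool.Agent.Work.MP_a6e60d_ag.Q.Order
import Pool.Agent.Work.MP_a6e60d_ag.Q.Laur

/-!
# The lattices of Laurent polynomials over the charts of the projective line

`Sv k v` is the ring of functions on the chart `v` (`k[X]`, `k[X]`, `k[T, 1 / T]`), `sv v` its
embedding into the Laurent polynomials; the image is `lat k v 0`, and `lat k v n` is the image
times `T ^ tw v n`.
-/

open Polynomial

open scoped LaurentPolynomial

namespace Orl.Q

variable (k : Type) [CommRing k]

/-- functions on the charts of the projective line -/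
def Sv : Ch → Type
  | .zero => k[X]
  | .inf => k[X]
  | .mid => k[T;T⁻¹]

noncomputable instance (v : Ch) : CommRing (Sv k v) := by
  cases v
  · exact inferInstanceAs (CommRing k[X])
  · exact inferInstanceAs (CommRing k[X])
  · exact inferInstanceAs (CommRing k[T;T⁻¹])

/-- functions on the charts as Laurent polynomials -/
noncomputable def sv : (v : Ch) → Sv k v →+* k[T;T⁻¹]
  | .zero => (toLaurent : k[X] →+* k[T;T⁻¹])
  | .inf => ((LaurentPolynomial.invert (R := k)).toRingEquiv.toRingHom.comp
      (toLaurent : k[X] →+* k[T;T⁻¹]) : k[X] →+* k[T;T⁻¹])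
  | .mid => RingHom.id _

/-- the twist -/
def Ch.tw : Ch → ℤ → ℤ
  | .zero, _ => 0
  | .inf, n => n
  | .mid, _ => 0

variable {k}

theorem sv_zero (f : k[X]) : sv k .zero f = toLaurent f := rfl

theorem sv_inf (f : k[X]) : sv k .inf f = LaurentPolynomial.invert (toLaurent f) := rfl

theorem sv_mid (f : k[T;T⁻¹]) : sv k .mid f = f := rfl

theorem coeff_toLaurent' (f : k[X]) (j : ℤ) :
    (toLaurent f).coeff j = if 0 ≤ j then f.coeff j.toNat else 0 := by
  induction f using Polynomial.induction_on' with
  | add p q hp hq =>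
    rw [map_add, AddMonoidAlgebra.coeff_add, Finsupp.add_apply, hp, hq, Polynomial.coeff_add]
    split_ifs
    · rfl
    · rw [add_zero]
  | monomial n a =>
    rw [Polynomial.toLaurent_C_mul_T, ← LaurentPolynomial.single_eq_C_mul_T,
      AddMonoidAlgebra.coeff_single, Finsupp.single_apply, Polynomial.coeff_monomial]
    by_cases h : 0 ≤ j
    · rw [if_pos h]
      congr 1
      exact propext ⟨fun h1 => by lia, fun h1 => by lia⟩
    · rw [if_neg h, if_neg (by lia)]

theorem coeff_trunc' (h : k[T;T⁻¹]) (n : ℕ) :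
    (LaurentPolynomial.trunc h).coeff n = h.coeff n := by
  induction h using LaurentPolynomial.induction_on' with
  | add p q hp hq =>
    rw [map_add, AddMonoidAlgebra.coeff_add, Finsupp.add_apply, Polynomial.coeff_add, hp, hq]
  | C_mul_T m a =>
    rw [LaurentPolynomial.trunc_C_mul_T, ← LaurentPolynomial.single_eq_C_mul_T,
      AddMonoidAlgebra.coeff_single, Finsupp.single_apply]
    by_cases h : 0 ≤ m
    · rw [if_pos h, Polynomial.coeff_monomial]
      congr 1
      exact propext ⟨fun h1 => by lia, fun h1 => by lia⟩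
    · rw [if_neg h, if_neg (by lia), Polynomial.coeff_zero]

theorem laurent_ext {f g : k[T;T⁻¹]} (h : ∀ m, f.coeff m = g.coeff m) : f = g :=
  LaurentPolynomial.ext h

theorem coeff_T_mul' (m : ℤ) (h : k[T;T⁻¹]) (j : ℤ) :
    (LaurentPolynomial.T m * h).coeff j = h.coeff (j - m) := by
  induction h using LaurentPolynomial.induction_on' with
  | add p q hp hq =>
    rw [mul_add, AddMonoidAlgebra.coeff_add, Finsupp.add_apply, hp, hq,
      AddMonoidAlgebra.coeff_add, Finsupp.add_apply]
  | C_mul_T n a =>
    rw [mul_left_comm, ← LaurentPolynomial.T_add, ← LaurentPolynomial.single_eq_C_mul_T,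
      ← LaurentPolynomial.single_eq_C_mul_T,
      AddMonoidAlgebra.coeff_single, AddMonoidAlgebra.coeff_single, Finsupp.single_apply,
      Finsupp.single_apply]
    congr 1
    exact propext ⟨fun h1 => by lia, fun h1 => by lia⟩

theorem mem_lat_zero {n : ℤ} {f : k[T;T⁻¹]} : f ∈ lat k .zero n ↔ ∃ s : k[X], toLaurent s = f := by
  constructor
  · intro hf
    refine ⟨LaurentPolynomial.trunc f, laurent_ext fun m => ?_⟩
    rw [coeff_toLaurent']
    split_ifs with h
    · rw [coeff_trunc', Int.toNat_of_nonneg h]
    · by_contra h'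
      exact h (hf m (fun h1 => h' h1.symm))
  · rintro ⟨s, rfl⟩ m hm
    rw [coeff_toLaurent'] at hm
    by_contra h
    exact hm (if_neg h)

theorem coeff_invert' (h : k[T;T⁻¹]) (j : ℤ) :
    (LaurentPolynomial.invert h).coeff j = h.coeff (-j) := by simp

theorem mem_lat_inf {n : ℤ} {f : k[T;T⁻¹]} :
    f ∈ lat k .inf n ↔ ∃ s : k[X],
      LaurentPolynomial.T n * LaurentPolynomial.invert (toLaurent s) = f := by
  constructor
  · intro hf
    have h1 : LaurentPolynomial.invert (LaurentPolynomial.T (-n) * f) ∈ lat k .zero 0 := by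
      intro m hm
      rw [coeff_invert', coeff_T_mul'] at hm
      have := hf _ hm
      change -m - -n ≤ n at this
      change 0 ≤ m
      omega
    obtain ⟨s, hs⟩ := mem_lat_zero.1 h1
    refine ⟨s, ?_⟩
    rw [hs, map_mul, map_mul]
    simp only [LaurentPolynomial.invert_T, LaurentPolynomial.involutive_invert f, neg_neg,
      ← mul_assoc, ← LaurentPolynomial.T_add, add_neg_cancel, LaurentPolynomial.T_zero, one_mul]
  · rintro ⟨s, rfl⟩ m hm
    rw [coeff_T_mul', coeff_invert', coeff_toLaurent'] at hm
    change m ≤ n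
    by_contra h
    exact hm (if_neg (by omega))

/-- the lattices in terms of the functions on the charts -/
theorem mem_lat_iff {v : Ch} {n : ℤ} {f : k[T;T⁻¹]} :
    f ∈ lat k v n ↔ ∃ s : Sv k v, LaurentPolynomial.T (v.tw n) * sv k v s = f := by
  cases v
  · change f ∈ lat k .zero n ↔ ∃ s : k[X], LaurentPolynomial.T 0 * toLaurent s = f
    rw [mem_lat_zero]
    simp only [LaurentPolynomial.T_zero, one_mul]
  · exact mem_lat_inf
  · change f ∈ lat k .mid n ↔ ∃ s : k[T;T⁻¹], LaurentPolynomial.T 0 * s = f
    simp only [LaurentPolynomial.T_zero, one_mul, exists_eq, iff_true]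
    exact mem_lat_mid f

theorem sv_injective (v : Ch) : Function.Injective (sv k v) := by
  cases v
  · exact toLaurent_injective
  · exact (LaurentPolynomial.invert (R := k)).injective.comp toLaurent_injective
  · exact Function.injective_id

theorem sv_mem_lat {v : Ch} (s : Sv k v) : sv k v s ∈ lat k v 0 := by
  refine mem_lat_iff.2 ⟨s, ?_⟩
  have : v.tw 0 = 0 := by cases v <;> rfl
  rw [this, LaurentPolynomial.T_zero, one_mul]

theorem T_sv_mem_lat {v : Ch} (n : ℤ) (s : Sv k v) :
    LaurentPolynomial.T (v.tw n) * sv k v s ∈ lat k v n := mem_lat_iff.2 ⟨s, rfl⟩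

end Orl.Q
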