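import Pool.Agent.Work.MP_f714fc_ag.Geo.LaurentSplit

/-!
MP_a6e60d_ag, conic lemma, 2: the two affine charts of the conic `y ^ 2 = a z ^ 2 + q w ^ 2` over
a ring `S`, in terms of the rings of sections: every section over the intersection is uniquely
`f(z) + g(z) y + w f'(w) + g'(w) v`, `w = 1 / z`, `v = y / z`.
-/

set_option autoImplicit false

open Polynomial

open scoped LaurentPolynomial

namespace Orl.Cnc

universe u v w x

/-- The rings of sections of the two affine charts `w = 1`, `z = 1` of the conic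
`y ^ 2 = a z ^ 2 + q w ^ 2` over `S` (`v` is the coordinate `y / z`); `R` is the ring of sections
over the intersection. -/
structure Con (S : Type u) {Aw : Type v} {Az : Type w} {R : Type x} [CommRing S] [CommRing Aw]
    [CommRing Az] [CommRing R] (pw : Aw →+* R) (pz : Az →+* R) where
  /-- the coefficients -/
  sw : S →+* Aw
  sz : S →+* Az
  comm : ∀ s, pw (sw s) = pz (sz s)
  a : S
  q : S
  z : Aw
  y : Aw
  w : Az
  v : Az
  yy : y * y = sw a * (z * z) + sw q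
  vv : v * v = sz a + sz q * (w * w)
  zw : pw z * pz w = 1
  yw : pw y * pz w = pz v
  freew : Function.Bijective fun P : S[X] × S[X] => P.1.eval₂ sw z + P.2.eval₂ sw z * y
  freez : Function.Bijective fun P : S[X] × S[X] => P.1.eval₂ sz w + P.2.eval₂ sz w * v
  inj : Function.Injective pw
  loc : ∀ c : R, ∃ (n : ℕ) (b : Aw), pw z ^ n * c = pw b

variable {S : Type u} {Aw : Type v} {Az : Type w} {R : Type x} [CommRing S] [CommRing Aw]
    [CommRing Az] [CommRing R] {pw : Aw →+* R} {pz : Az →+* R} (K : Con S pw pz)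

namespace Con

/-- `z` as a unit -/
noncomputable def un : Rˣ where
  val := pw K.z
  inv := pz K.w
  val_inv := K.zw
  inv_val := by rw [mul_comm]; exact K.zw

/-- evaluation of Laurent polynomials in `z` -/
noncomputable def ev : S[T;T⁻¹] →+* R := LaurentPolynomial.eval₂ (pw.comp K.sw) K.un

theorem ev_toLaurent (f : S[X]) : K.ev (toLaurent f) = pw (f.eval₂ K.sw K.z) := by
  rw [ev, LaurentPolynomial.eval₂_toLaurent]
  change f.eval₂ (pw.comp K.sw) (pw K.z) = _
  rw [← Polynomial.hom_eval₂ f K.sw pw K.z]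

theorem ev_invert (f : S[X]) :
    K.ev (LaurentPolynomial.invert (toLaurent f)) = pz (f.eval₂ K.sz K.w) := by
  rw [Polynomial.hom_eval₂ f K.sz pz K.w, show pz.comp K.sz = pw.comp K.sw from
    RingHom.ext fun s => (K.comm s).symm]
  induction f using Polynomial.induction_on' with
  | add p q hp hq => rw [map_add, map_add, map_add, hp, hq, eval₂_add]
  | monomial n r =>
    rw [← C_mul_X_pow_eq_monomial, toLaurent_C_mul_X_pow, map_mul, LaurentPolynomial.invert_C,
      LaurentPolynomial.invert_T]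
    simp only [ev, LaurentPolynomial.eval₂_C_mul_T_neg_n, Polynomial.eval₂_mul,
      Polynomial.eval₂_C, Polynomial.eval₂_X_pow]
    rfl

theorem ev_T_neg_one : K.ev (LaurentPolynomial.T (-1)) = pz K.w := by
  have := LaurentPolynomial.eval₂_T_neg_n (pw.comp K.sw) K.un 1
  simp only [Nat.cast_one, pow_one] at this
  exact this

theorem ev_T (n : ℕ) : K.ev (LaurentPolynomial.T n) = pw K.z ^ n := by
  rw [← toLaurent_X_pow, ev_toLaurent, eval₂_X_pow, map_pow]

/-- `P(z) + Q(z) y` for Laurent polynomials -/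
noncomputable def lau (P Q : S[T;T⁻¹]) : R := K.ev P + K.ev Q * pw K.y

theorem lau_eq_zero {P Q : S[T;T⁻¹]} (h : K.lau P Q = 0) : P = 0 ∧ Q = 0 := by
  obtain ⟨m, P', hP⟩ := LaurentPolynomial.exists_T_pow P
  obtain ⟨n, Q', hQ⟩ := LaurentPolynomial.exists_T_pow Q
  have h1 : pw ((P' * X ^ n).eval₂ K.sw K.z + (Q' * X ^ m).eval₂ K.sw K.z * K.y) = pw 0 := by
    have eP : toLaurent (P' * X ^ n) = P * LaurentPolynomial.T m * LaurentPolynomial.T n := by
      rw [map_mul, hP, toLaurent_X_pow]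
    have eQ : toLaurent (Q' * X ^ m) = Q * LaurentPolynomial.T n * LaurentPolynomial.T m := by
      rw [map_mul, hQ, toLaurent_X_pow]
    rw [map_add, map_mul, ← ev_toLaurent, ← ev_toLaurent, eP, eQ]
    simp only [map_mul, map_zero]
    have h2 : K.ev (LaurentPolynomial.T m) * K.ev (LaurentPolynomial.T n) *
      (K.ev P + K.ev Q * pw K.y) = 0 := by
        rw [show K.ev P + K.ev Q * pw K.y = 0 from h, mul_zero]
    rw [← h2]
    ring
  have h2 := K.inj h1
  have h3 : (P' * X ^ n, Q' * X ^ m) = ((0, 0) : S[X] × S[X]) := by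
    apply K.freew.1
    change (P' * X ^ n).eval₂ K.sw K.z + (Q' * X ^ m).eval₂ K.sw K.z * K.y =
      (0 : S[X]).eval₂ K.sw K.z + (0 : S[X]).eval₂ K.sw K.z * K.y
    rw [h2, eval₂_zero, zero_mul, add_zero]
  have h4 : P' = 0 := mul_X_pow_eq_zero (congrArg Prod.fst h3)
  have h5 : Q' = 0 := mul_X_pow_eq_zero (congrArg Prod.snd h3)
  subst h4 h5
  rw [map_zero] at hP hQ
  have hT : ∀ (U : S[T;T⁻¹]) (n : ℤ), 0 = U * LaurentPolynomial.T n → U = 0 := by
    intro U n h
    have := congrArg (fun x => x * LaurentPolynomial.T (-n)) h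
    simp only [zero_mul, mul_assoc, ← LaurentPolynomial.T_add, add_neg_cancel,
      LaurentPolynomial.T_zero, mul_one] at this
    exact this.symm
  exact ⟨hT _ _ hP, hT _ _ hQ⟩

/-- the normal form of the sections over the intersection -/
noncomputable def nf (f g f' g' : S[X]) : R :=
  pw (f.eval₂ K.sw K.z + g.eval₂ K.sw K.z * K.y) +
    pz (K.w * f'.eval₂ K.sz K.w + g'.eval₂ K.sz K.w * K.v)

theorem nf_eq_lau (f g f' g' : S[X]) : K.nf f g f' g' =
    K.lau (toLaurent f + LaurentPolynomial.T (-1) * LaurentPolynomial.invert (toLaurent f'))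
      (toLaurent g + LaurentPolynomial.T (-1) * LaurentPolynomial.invert (toLaurent g')) := by
  rw [nf, lau, map_add K.ev, map_add K.ev, map_mul K.ev, map_mul K.ev, ev_toLaurent,
    ev_toLaurent, ev_invert, ev_invert, ev_T_neg_one]
  simp only [map_add, map_mul, ← K.yw]
  ring

theorem nf_inj {f g f' g' f₁ g₁ f₁' g₁' : S[X]} (h : K.nf f g f' g' = K.nf f₁ g₁ f₁' g₁') :
    f = f₁ ∧ g = g₁ ∧ f' = f₁' ∧ g' = g₁' := by
  have h0 : K.nf (f - f₁) (g - g₁) (f' - f₁') (g' - g₁') = 0 := by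
    rw [← sub_eq_zero] at h
    rw [← h]
    simp only [nf, eval₂_sub, map_add, map_sub, map_mul]
    ring
  rw [nf_eq_lau] at h0
  obtain ⟨h1, h2⟩ := K.lau_eq_zero h0
  have h3 := Fdim.laurent_bij.1 (a₁ := (f - f₁, f' - f₁')) (a₂ := (0, 0)) (by simpa using h1)
  have h4 := Fdim.laurent_bij.1 (a₁ := (g - g₁, g' - g₁')) (a₂ := (0, 0)) (by simpa using h2)
  simp only [Prod.mk.injEq, sub_eq_zero] at h3 h4
  exact ⟨h3.1, h4.1, h3.2, h4.2⟩

theorem exists_nf (c : R) : ∃ f g f' g' : S[X], c = K.nf f g f' g' := by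
  obtain ⟨n, b, hb⟩ := K.loc c
  obtain ⟨⟨P, Q⟩, hPQ⟩ := K.freew.2 b
  simp only at hPQ
  have hP := Fdim.laurent_decomp (LaurentPolynomial.T (-n) * toLaurent P : S[T;T⁻¹])
  have hQ := Fdim.laurent_decomp (LaurentPolynomial.T (-n) * toLaurent Q : S[T;T⁻¹])
  refine ⟨LaurentPolynomial.trunc (LaurentPolynomial.T (-n) * toLaurent P),
    LaurentPolynomial.trunc (LaurentPolynomial.T (-n) * toLaurent Q),
    LaurentPolynomial.trunc (LaurentPolynomial.invert
      (LaurentPolynomial.T 1 * (LaurentPolynomial.T (-n) * toLaurent P))),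
    LaurentPolynomial.trunc (LaurentPolynomial.invert
      (LaurentPolynomial.T 1 * (LaurentPolynomial.T (-n) * toLaurent Q))), ?_⟩
  rw [nf_eq_lau, hP, hQ, lau, map_mul K.ev, map_mul K.ev, ev_toLaurent, ev_toLaurent]
  have h1 : pw K.z ^ n * K.ev (LaurentPolynomial.T (-n)) = 1 := by
    rw [← ev_T, ← map_mul, ← LaurentPolynomial.T_add, add_neg_cancel, LaurentPolynomial.T_zero,
      map_one]
  have h2 : K.ev (LaurentPolynomial.T (-n)) * pw K.z ^ n = 1 := by rw [mul_comm]; exact h1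
  rw [mul_assoc, ← mul_add, ← map_mul, ← map_add, hPQ, ← hb, ← mul_assoc, h2, one_mul]

/-! ### The two charts in normal form -/

theorem w_pol (f : S[X]) : f.eval₂ K.sz K.w = K.w * (divX f).eval₂ K.sz K.w + K.sz (f.coeff 0) := by
  nth_rewrite 1 [← X_mul_divX_add f]
  rw [eval₂_add, eval₂_mul, eval₂_X, eval₂_C]

theorem pw_nf (f g : S[X]) : pw (f.eval₂ K.sw K.z + g.eval₂ K.sw K.z * K.y) = K.nf f g 0 0 := by
  simp [nf]

theorem pz_nf (f g : S[X]) : pz (f.eval₂ K.sz K.w + g.eval₂ K.sz K.w * K.v) =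
    K.nf (C (f.coeff 0)) 0 (divX f) g := by
  rw [K.w_pol f, nf, eval₂_C, eval₂_zero, zero_mul, add_zero, K.comm]
  simp only [map_add, map_mul]
  ring

include K in
theorem pz_inj : Function.Injective pz := by
  intro α β h
  obtain ⟨⟨P, Q⟩, rfl⟩ := K.freez.2 α
  obtain ⟨⟨P', Q'⟩, rfl⟩ := K.freez.2 β
  simp only at h ⊢
  rw [pz_nf, pz_nf] at h
  obtain ⟨h1, h2, h3, h4⟩ := K.nf_inj h
  rw [K.w_pol P, K.w_pol P', h3, h4, C_injective h1]

/-- `pw α = pz β` -/
theorem eq0 {α : Aw} {β : Az} (h : pw α = pz β) : ∃ s : S, α = K.sw s ∧ β = K.sz s := by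
  obtain ⟨⟨P, Q⟩, rfl⟩ := K.freew.2 α
  obtain ⟨⟨P', Q'⟩, rfl⟩ := K.freez.2 β
  simp only at h
  rw [pw_nf, pz_nf] at h
  obtain ⟨h1, h2, h3, h4⟩ := K.nf_inj h
  refine ⟨P'.coeff 0, ?_, ?_⟩
  · simp only
    rw [h1, h2, eval₂_C, eval₂_zero, zero_mul, add_zero]
  · simp only
    rw [← h4, K.w_pol P', ← h3]
    simp

include K in
theorem ex0 (c : R) : ∃ (α : Aw) (β : Az), c = pw α - pz β := by
  obtain ⟨f, g, f', g', rfl⟩ := K.exists_nf c
  refine ⟨f.eval₂ K.sw K.z + g.eval₂ K.sw K.z * K.y,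
    -(K.w * f'.eval₂ K.sz K.w + g'.eval₂ K.sz K.w * K.v), ?_⟩
  rw [nf, map_neg, sub_neg_eq_add]

/-- `pw α = z pz β` -/
theorem eq1 {α : Aw} {β : Az} (h : pw α = pw K.z * pz β) : ∃ s₀ s₁ s₂ : S,
    α = K.sw s₀ + K.sw s₁ * K.z + K.sw s₂ * K.y ∧
    β = K.sz s₁ + K.sz s₀ * K.w + K.sz s₂ * K.v := by
  obtain ⟨⟨P, Q⟩, rfl⟩ := K.freew.2 α
  obtain ⟨⟨P', Q'⟩, rfl⟩ := K.freez.2 β
  simp only at h
  have e : pw K.z * pz (P'.eval₂ K.sz K.w + Q'.eval₂ K.sz K.w * K.v) =
      K.nf (C (P'.coeff 0) * X + C ((divX P').coeff 0)) (C (Q'.coeff 0)) (divX (divX P'))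
        (divX Q') := by
    rw [K.w_pol P', K.w_pol Q', K.w_pol (divX P'), nf]
    simp only [eval₂_add, eval₂_mul, eval₂_C, eval₂_X, map_add, map_mul, ← K.yw, K.comm]
    have h1 := K.zw
    linear_combination (pz K.w * pz ((divX (divX P')).eval₂ K.sz K.w) + pz (K.sz ((divX P').coeff 0))
      + pz ((divX Q').eval₂ K.sz K.w) * pw K.y * pz K.w + pz (K.sz (Q'.coeff 0)) * pw K.y) * h1
  rw [pw_nf, e] at h
  obtain ⟨h1, h2, h3, h4⟩ := K.nf_inj h
  refine ⟨(divX P').coeff 0, P'.coeff 0, Q'.coeff 0, ?_, ?_⟩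
  · simp only
    rw [h1, h2]
    simp only [eval₂_add, eval₂_mul, eval₂_C, eval₂_X]
    ring
  · simp only
    rw [K.w_pol P', K.w_pol Q', K.w_pol (divX P'), ← h3, ← h4]
    simp only [eval₂_zero]
    ring

theorem ex1 (c : R) : ∃ (α : Aw) (β : Az), c = pw α - pw K.z * pz β := by
  obtain ⟨α, β, h⟩ := K.ex0 c
  refine ⟨α, K.w * β, ?_⟩
  rw [h, map_mul, ← mul_assoc, K.zw, one_mul]

/-- `pw α = w pz β + s v` -/
theorem eq2 {α : Aw} {β : Az} {s : S} (h : pw α = pz (K.w * β + K.sz s * K.v)) :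
    α = 0 ∧ β = 0 ∧ s = 0 := by
  obtain ⟨⟨P, Q⟩, rfl⟩ := K.freew.2 α
  obtain ⟨⟨P', Q'⟩, rfl⟩ := K.freez.2 β
  simp only at h
  have e : pz (K.w * (P'.eval₂ K.sz K.w + Q'.eval₂ K.sz K.w * K.v) + K.sz s * K.v) =
      K.nf 0 0 P' (X * Q' + C s) := by
    rw [nf]
    simp only [eval₂_add, eval₂_mul, eval₂_C, eval₂_X, eval₂_zero, map_add, map_mul, map_zero]
    ring
  rw [pw_nf, e] at h
  obtain ⟨h1, h2, h3, h4⟩ := K.nf_inj h
  have h5 : s = 0 := by
    have := congrArg (fun p => p.coeff 0) h4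
    simpa using this.symm
  have h6 : Q' = 0 := by
    rw [h5, C_0, add_zero] at h4
    rw [mul_comm] at h4
    exact mul_X_pow_eq_zero (n := 1) (by rw [pow_one]; exact h4.symm)
  refine ⟨?_, ?_, h5⟩
  · simp only
    rw [h1, h2]
    simp
  · simp only
    rw [← h3, h6]
    simp

theorem ex2 (c : R) : ∃ (α : Aw) (β : Az) (s : S),
    c = pw α - pz (K.w * β + K.sz s * K.v) := by
  obtain ⟨f, g, f', g', rfl⟩ := K.exists_nf c
  refine ⟨f.eval₂ K.sw K.z + g.eval₂ K.sw K.z * K.y,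
    -(f'.eval₂ K.sz K.w + (divX g').eval₂ K.sz K.w * K.v), -(g'.coeff 0), ?_⟩
  rw [nf]
  conv_lhs => rw [K.w_pol g']
  simp only [map_add, map_mul, map_neg]
  ring

theorem sw_inj : Function.Injective K.sw := by
  intro s t h
  have := K.freew.1 (a₁ := (C s, 0)) (a₂ := (C t, 0)) (by simpa using h)
  simpa using this

theorem sz_inj : Function.Injective K.sz := by
  intro s t h
  have := K.freez.1 (a₁ := (C s, 0)) (a₂ := (C t, 0)) (by simpa using h)
  simpa using this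

end Con

end Orl.Cnc
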