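import Pool.Agent.Work.MP_a6e60d_ag.Conic.QLat

/-!
# The quaternion order over the charts of the projective line

For a chart `v` with ring of functions `S` the quaternion algebra `H[S, a, 0, q_v]` is identified
with the lattices `clat v n` in the quaternion algebra over `k[T, 1 / T]`.
-/

open LaurentPolynomial Quaternion

namespace Orl.Q

variable {k : Type} [Field k]

theorem Ch.tw_add (v : Ch) (m n : ℤ) : v.tw (m + n) = v.tw m + v.tw n := by
  cases v <;> simp [Ch.tw]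

theorem Ch.tw_zero (v : Ch) : v.tw 0 = 0 := by cases v <;> rfl

/-- the ring `S` of functions on the chart `v`, with the coefficients of the conic -/
structure ChQ (δ : Dat k) (v : Ch) (S : Type) [CommRing S] where
  /-- the embedding into the Laurent polynomials -/
  σ : S →+* k[T;T⁻¹]
  inj : Function.Injective σ
  mem : ∀ {n : ℤ} {f : k[T;T⁻¹]}, f ∈ lat k v n ↔ ∃ s : S, T (v.tw n) * σ s = f
  /-- the square of `i` -/
  a : S
  /-- the square of `j` on the chart -/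
  q : S
  ha : σ a = C δ.a
  hq : T (v.tw 4) * σ q = δ.q

namespace ChQ

variable {δ : Dat k} {v : Ch} {S : Type} [CommRing S] (c : ChQ δ v S)

/-- the element of the lattice `clat v n` with the given coordinates on the chart -/
noncomputable def of (n : ℤ) (d : ℍ[S, c.a, 0, c.q]) : δ.D :=
  ⟨T (v.tw n) * c.σ d.re, T (v.tw n) * c.σ d.imI, T (v.tw (n - 2)) * c.σ d.imJ,
    T (v.tw (n - 2)) * c.σ d.imK⟩

@[simp] theorem of_re (n : ℤ) (d : ℍ[S, c.a, 0, c.q]) : (c.of n d).re = T (v.tw n) * c.σ d.re :=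
  rfl

@[simp] theorem of_imI (n : ℤ) (d : ℍ[S, c.a, 0, c.q]) :
    (c.of n d).imI = T (v.tw n) * c.σ d.imI := rfl

@[simp] theorem of_imJ (n : ℤ) (d : ℍ[S, c.a, 0, c.q]) :
    (c.of n d).imJ = T (v.tw (n - 2)) * c.σ d.imJ := rfl

@[simp] theorem of_imK (n : ℤ) (d : ℍ[S, c.a, 0, c.q]) :
    (c.of n d).imK = T (v.tw (n - 2)) * c.σ d.imK := rfl

theorem of_mem (n : ℤ) (d : ℍ[S, c.a, 0, c.q]) : c.of n d ∈ δ.clat v n :=
  ⟨c.mem.2 ⟨_, rfl⟩, c.mem.2 ⟨_, rfl⟩, c.mem.2 ⟨_, rfl⟩, c.mem.2 ⟨_, rfl⟩⟩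

theorem T_mul_inj {m : ℤ} {f g : k[T;T⁻¹]} (h : T m * f = T m * g) : f = g := by
  have h1 := congrArg (T (-m) * ·) h
  simpa only [← mul_assoc, ← T_add, neg_add_cancel, T_zero, one_mul] using h1

theorem of_injective (n : ℤ) : Function.Injective (c.of n) := by
  intro d e h
  have h1 := congrArg QuaternionAlgebra.re h
  have h2 := congrArg QuaternionAlgebra.imI h
  have h3 := congrArg QuaternionAlgebra.imJ h
  have h4 := congrArg QuaternionAlgebra.imK h
  simp only [of_re, of_imI, of_imJ, of_imK] at h1 h2 h3 h4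
  exact QuaternionAlgebra.ext (c.inj (T_mul_inj h1)) (c.inj (T_mul_inj h2))
    (c.inj (T_mul_inj h3)) (c.inj (T_mul_inj h4))

theorem exists_of {n : ℤ} {x : δ.D} (hx : x ∈ δ.clat v n) : ∃ d, c.of n d = x := by
  obtain ⟨h1, h2, h3, h4⟩ := hx
  obtain ⟨s1, h1⟩ := c.mem.1 h1
  obtain ⟨s2, h2⟩ := c.mem.1 h2
  obtain ⟨s3, h3⟩ := c.mem.1 h3
  obtain ⟨s4, h4⟩ := c.mem.1 h4
  exact ⟨⟨s1, s2, s3, s4⟩, QuaternionAlgebra.ext h1 h2 h3 h4⟩

theorem mem_clat_iff {n : ℤ} {x : δ.D} : x ∈ δ.clat v n ↔ ∃ d, c.of n d = x :=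
  ⟨c.exists_of, by rintro ⟨d, rfl⟩; exact c.of_mem n d⟩

theorem of_add (n : ℤ) (d e : ℍ[S, c.a, 0, c.q]) : c.of n (d + e) = c.of n d + c.of n e := by
  ext <;> simp [mul_add]

@[simp] theorem of_zero (n : ℤ) : c.of n 0 = 0 := by
  ext <;> simp

theorem of_one : c.of 0 1 = 1 := by
  ext <;> simp [Ch.tw_zero]

theorem of_star (n : ℤ) (d : ℍ[S, c.a, 0, c.q]) : c.of n (star d) = star (c.of n d) := by
  ext <;> simp

/-- functions of the chart act by multiplication -/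
theorem of_smul (n : ℤ) (s : S) (d : ℍ[S, c.a, 0, c.q]) :
    c.of n (s • d) = c.σ s • c.of n d := by
  apply QuaternionAlgebra.ext <;> simp <;> ring

theorem of_mul (n n' : ℤ) (d e : ℍ[S, c.a, 0, c.q]) :
    c.of n d * c.of n' e = c.of (n + n') (d * e) := by
  have e1 : (T (v.tw n) : k[T;T⁻¹]) = T (v.tw (n - 2)) * T (v.tw 2) := by
    rw [← T_add, ← Ch.tw_add, sub_add_cancel]
  have e2 : (T (v.tw n') : k[T;T⁻¹]) = T (v.tw (n' - 2)) * T (v.tw 2) := by
    rw [← T_add, ← Ch.tw_add, sub_add_cancel]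
  have e3 : (T (v.tw 4) : k[T;T⁻¹]) = T (v.tw 2) * T (v.tw 2) := by
    rw [← T_add, ← Ch.tw_add]
    norm_num
  have e4 : (T (v.tw (n + n')) : k[T;T⁻¹]) =
      T (v.tw (n - 2)) * T (v.tw (n' - 2)) * (T (v.tw 2) * T (v.tw 2)) := by
    rw [← T_add, ← T_add, ← T_add, ← Ch.tw_add, ← Ch.tw_add, ← Ch.tw_add]
    congr 2
    ring
  have e5 : (T (v.tw (n + n' - 2)) : k[T;T⁻¹]) =
      T (v.tw (n - 2)) * T (v.tw (n' - 2)) * T (v.tw 2) := by
    rw [← T_add, ← T_add, ← Ch.tw_add, ← Ch.tw_add]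
    congr 2
    ring
  have e6 : δ.q = T (v.tw 2) * T (v.tw 2) * c.σ c.q := by rw [← c.hq, e3]
  ext1
  · simp only [QuaternionAlgebra.re_mul, of_re, of_imI, of_imJ, of_imK, e1, e2, e4, e6,
      ← c.ha, map_add, map_sub, map_mul, map_zero]
    ring
  · simp only [QuaternionAlgebra.imI_mul, of_re, of_imI, of_imJ, of_imK, e1, e2, e4, e6,
      map_add, map_sub, map_mul, map_zero]
    ring
  · simp only [QuaternionAlgebra.imJ_mul, of_re, of_imI, of_imJ, of_imK, e1, e2, e5,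
      ← c.ha, map_add, map_sub, map_mul, map_zero]
    ring
  · simp only [QuaternionAlgebra.imK_mul, of_re, of_imI, of_imJ, of_imK, e1, e2, e5,
      map_add, map_sub, map_mul, map_zero]
    ring

/-- the coordinates of an element of `clat v n` on the chart -/
noncomputable def tau {n : ℤ} {x : δ.D} (hx : x ∈ δ.clat v n) : ℍ[S, c.a, 0, c.q] :=
  (c.exists_of hx).choose

@[simp] theorem of_tau {n : ℤ} {x : δ.D} (hx : x ∈ δ.clat v n) : c.of n (c.tau hx) = x :=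
  (c.exists_of hx).choose_spec

@[simp] theorem tau_of (n : ℤ) (d : ℍ[S, c.a, 0, c.q]) : c.tau (c.of_mem n d) = d :=
  c.of_injective n (c.of_tau _)

theorem tau_eq_iff {n : ℤ} {x : δ.D} (hx : x ∈ δ.clat v n) {d : ℍ[S, c.a, 0, c.q]} :
    c.tau hx = d ↔ c.of n d = x :=
  ⟨fun h => h ▸ c.of_tau hx, fun h => c.of_injective n ((c.of_tau hx).trans h.symm)⟩

include c in
theorem star_mem {n : ℤ} {x : δ.D} (hx : x ∈ δ.clat v n) : star x ∈ δ.clat v n := by
  obtain ⟨d, rfl⟩ := c.exists_of hx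
  rw [← c.of_star]
  exact c.of_mem _ _

theorem tau_star {n : ℤ} {x : δ.D} (hx : x ∈ δ.clat v n) (hx' : star x ∈ δ.clat v n) :
    c.tau hx' = star (c.tau hx) := by
  rw [tau_eq_iff, of_star, of_tau]

theorem tau_mul {n n' m : ℤ} (hm : n + n' = m) {x y : δ.D} (hx : x ∈ δ.clat v n)
    (hy : y ∈ δ.clat v n') (hxy : x * y ∈ δ.clat v m) :
    c.tau hxy = c.tau hx * c.tau hy := by
  subst hm
  rw [tau_eq_iff, ← of_mul, of_tau, of_tau]

theorem tau_add {n : ℤ} {x y : δ.D} (hx : x ∈ δ.clat v n) (hy : y ∈ δ.clat v n)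
    (hxy : x + y ∈ δ.clat v n) : c.tau hxy = c.tau hx + c.tau hy := by
  rw [tau_eq_iff, of_add, of_tau, of_tau]

theorem tau_one (h : (1 : δ.D) ∈ δ.clat v 0) : c.tau h = 1 := by
  rw [tau_eq_iff, of_one]

theorem tau_zero {n : ℤ} (h : (0 : δ.D) ∈ δ.clat v n) : c.tau h = 0 := by
  rw [tau_eq_iff, of_zero]

theorem C_smul (r : k) (x : δ.D) : (C r : k[T;T⁻¹]) • x = r • x := by
  ext <;> simp [LaurentPolynomial.smul_eq_C_mul]

/-- the scalars in the quaternion algebra of the chart are the elements of `slat v n` -/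
theorem of_coe_mem_slat (n : ℤ) (s : S) : c.of n (s : ℍ[S, c.a, 0, c.q]) ∈ δ.slat v n :=
  ⟨c.mem.2 ⟨_, rfl⟩, by simp, by simp, by simp⟩

theorem exists_of_slat {n : ℤ} {x : δ.D} (hx : x ∈ δ.slat v n) :
    ∃ s : S, c.of n (s : ℍ[S, c.a, 0, c.q]) = x := by
  obtain ⟨h1, h2, h3, h4⟩ := hx
  obtain ⟨s, h1⟩ := c.mem.1 h1
  refine ⟨s, ?_⟩
  apply QuaternionAlgebra.ext
  · simpa using h1
  · simp [h2]
  · simp [h3]
  · simp [h4]

theorem of_coe_injective (n : ℤ) :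
    Function.Injective fun s : S => c.of n (s : ℍ[S, c.a, 0, c.q]) :=
  (c.of_injective n).comp fun s t h => by simpa using congrArg QuaternionAlgebra.re h

end ChQ

end Orl.Q
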