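import Pool.Agent.Work.MP_a6e60d_ag.Conic.W
import Pool.Agent.Work.MP_a6e60d_ag.Conic.Tau

/-!
# The relative conics over the charts of the projective line and the quaternion order
-/

open CategoryTheory Limits TopologicalSpace AlgebraicGeometry Opposite Polynomial

open scoped LaurentPolynomial

attribute [-instance] CategoryTheory.catToReflQuiver

namespace Orl

open Fdim Cnc Q

section poly

variable {k : Type} [CommRing k] (c : Fin 5 → k)

theorem toLaurent_qx : toLaurent (qx c) =
    ∑ j : Fin 5, LaurentPolynomial.C (c j) * LaurentPolynomial.T ((j : ℕ) : ℤ) := by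
  rw [qx, map_sum]
  refine Finset.sum_congr rfl fun j _ => ?_
  rw [map_mul, toLaurent_C, toLaurent_X_pow]

theorem T_mul_invert_qx' : LaurentPolynomial.T 4 * LaurentPolynomial.invert (toLaurent (qx' c)) =
    toLaurent (qx c) := by
  rw [toLaurent_qx, qx', map_sum, map_sum, Finset.mul_sum]
  refine Finset.sum_congr rfl fun j _ => ?_
  rw [map_mul, toLaurent_C, toLaurent_X_pow, map_mul, LaurentPolynomial.invert_C,
    LaurentPolynomial.invert_T, mul_left_comm, ← LaurentPolynomial.T_add]
  congr 2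
  have := j.isLt
  omega

end poly

namespace XCharts

variable {k : Type} [Field k] {a : k} {c : Fin 5 → k} {X : Scheme.{0}} {π : X ⟶ Spec (.of k)}
  (Y : XCharts (.of k) a c π) {δ : Dat k} (ha : δ.a = a) (hq : δ.q = toLaurent (qx c))

include ha in
theorem sv_a (v : Ch) : sv k v (Y.K v).a = LaurentPolynomial.C δ.a := by
  subst ha
  cases v
  · exact toLaurent_C _
  · change LaurentPolynomial.invert (toLaurent (C δ.a)) = _
    rw [toLaurent_C, LaurentPolynomial.invert_C]
  · rfl

include hq in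
theorem sv_q (v : Ch) : LaurentPolynomial.T (v.tw 4) * sv k v (Y.K v).q = δ.q := by
  rw [hq]
  cases v
  · change LaurentPolynomial.T 0 * toLaurent (qx c) = _
    rw [LaurentPolynomial.T_zero, one_mul]
  · exact T_mul_invert_qx' c
  · change LaurentPolynomial.T 0 * toLaurent (qx c) = _
    rw [LaurentPolynomial.T_zero, one_mul]

/-- the coefficient ring of the relative conic over the chart `v` -/
@[reducible] noncomputable def chQ (v : Ch) : ChQ δ v (Sv k v) where
  σ := sv k v
  inj := sv_injective v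
  mem := mem_lat_iff
  a := (Y.K v).a
  q := (Y.K v).q
  ha := Y.sv_a ha v
  hq := Y.sv_q hq v

/-! ### The coefficients and coordinates on the intersection -/

theorem bw_inv3 (P : k[X]) : Y.bw (LaurentPolynomial.invert (toLaurent P)) =
    rO inf_le_right (Y.bs 3 P) := by
  have h : (Y.bw.comp (((LaurentPolynomial.invert (R := k)).toRingEquiv.toRingHom).comp
      (toLaurent : k[X] →+* k[T;T⁻¹]))) = (rO inf_le_right).comp (Y.bs 3) := by
    apply Polynomial.ringHom_ext
    · intro r
      change Y.bw (LaurentPolynomial.invert (toLaurent (C r))) = rO _ (Y.bs 3 (C r))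
      rw [toLaurent_C, LaurentPolynomial.invert_C, bw_C, bs_apply, eval₂_C, rO_str]
    · change Y.bw (LaurentPolynomial.invert (toLaurent Polynomial.X)) =
        rO _ (Y.bs 3 Polynomial.X)
      rw [toLaurent_X, LaurentPolynomial.invert_T, bs_apply, eval₂_X]
      have := LaurentPolynomial.eval₂_T_neg_n (str π (Y.U 1 ⊓ Y.U 3)) Y.xw 1
      simp only [Nat.cast_one, pow_one] at this
      exact this
  exact congrArg (fun f => f P) h

/-- functions on the intersection of the two halves of the base -/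
noncomputable def sm : k[T;T⁻¹] →+* Γ(X, Y.Uw .mid) := (Y.K .mid).sw

/-- functions on the intersection of the two halves of the base -/
noncomputable def sM : k[T;T⁻¹] →+* Γ(X, Y.Uw .mid ⊔ Y.Uz .mid) := (Y.K .mid).sW

theorem rO_sM (x : k[T;T⁻¹]) :
    rO (le_sup_left : Y.Uw .mid ≤ Y.Uw .mid ⊔ Y.Uz .mid) (Y.sM x) = Y.sm x :=
  (Y.K .mid).rO_sW_left x

theorem rO_K_sw (v : Ch) (s : Sv k v) :
    rO (Y.Uw_mono (Ch.le_mid v)) ((Y.K v).sw s) = Y.sm (sv k v s) := by
  cases v
  · exact (Y.bw_toLaurent s).symm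
  · exact (Y.bw_inv3 s).symm
  · exact rO_self _ _

theorem bw_T_two : Y.bw (LaurentPolynomial.T 2) = rO inf_le_left (Y.x 1) ^ 2 :=
  LaurentPolynomial.eval₂_T_n (str π (Y.U 1 ⊓ Y.U 3)) Y.xw 2

theorem bw_zero_mul (x : Γ(X, Y.U 1 ⊓ Y.U 3)) : Y.bw (LaurentPolynomial.T 0) * x = x := by
  rw [LaurentPolynomial.T_zero, map_one, one_mul]

theorem bw_e3 : Y.bw (LaurentPolynomial.T 2) * rO inf_le_right (Y.e 3) =
    rO inf_le_left (Y.e 1) := by
  rw [Y.r13e, map_pow, bw_T_two]

theorem bw_y3 : Y.bw (LaurentPolynomial.T 2) * rO inf_le_right (Y.y 3) =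
    rO inf_le_left (Y.y 1) := by
  rw [Y.r13y, map_pow, bw_T_two]

theorem rO_K_y (v : Ch) : Y.sm (LaurentPolynomial.T (v.tw 2)) *
    rO (Y.Uw_mono (Ch.le_mid v)) (Y.K v).y = (Y.K .mid).y := by
  cases v
  · exact Y.bw_zero_mul _
  · exact Y.bw_e3
  · exact (Y.bw_zero_mul _).trans (rO_self _ _)

theorem rO_K_z (v : Ch) : Y.sm (LaurentPolynomial.T (v.tw 2)) *
    rO (Y.Uw_mono (Ch.le_mid v)) (Y.K v).z = (Y.K .mid).z := by
  cases v
  · exact Y.bw_zero_mul _
  · exact Y.bw_y3
  · exact (Y.bw_zero_mul _).trans (rO_self _ _)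

/-- the constants on the charts -/
noncomputable def cst (k : Type) [Field k] : (v : Ch) → k → Sv k v
  | .zero, r => (Polynomial.C r : k[X])
  | .inf, r => (Polynomial.C r : k[X])
  | .mid, r => (LaurentPolynomial.C r : k[T;T⁻¹])

theorem sv_cst (v : Ch) (r : k) : sv k v (cst k v r) = LaurentPolynomial.C r := by
  cases v
  · exact toLaurent_C _
  · change LaurentPolynomial.invert (toLaurent (C r)) = _
    rw [toLaurent_C, LaurentPolynomial.invert_C]
  · rfl

theorem K_sw_cst (v : Ch) (r : k) : (Y.K v).sw (cst k v r) = str π (Y.Uw v) r := by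
  cases v
  · exact eval₂_C _ _
  · exact eval₂_C _ _
  · exact Y.bw_C r

theorem K_sz_cst (v : Ch) (r : k) : (Y.K v).sz (cst k v r) = str π (Y.Uz v) r := by
  cases v
  · exact eval₂_C _ _
  · exact eval₂_C _ _
  · exact Y.bz_C r

theorem K_sW_cst (v : Ch) (r : k) :
    (Y.K v).sW (cst k v r) = str π (Y.Uw v ⊔ Y.Uz v) r := by
  apply secO_ext2
  · rw [(Y.K v).rO_sW_left, K_sw_cst, rO_str]
  · rw [(Y.K v).rO_sW_right, K_sz_cst, rO_str]

end XCharts

end Orl
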