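import Pool.Agent.Work.MP_a6e60d_ag.Conic.FrData
import Pool.Agent.Work.MP_a6e60d_ag.Br.Loc

/-!
# MP_a6e60d_ag: `Ext^(n + 1)(j_!(A | W v), B) = 0` for `A`, `B` among the bundles `O(j)`, `E(j)`
-/

set_option autoImplicit false

open CategoryTheory Limits TopologicalSpace AlgebraicGeometry Opposite Abelian

attribute [-instance] CategoryTheory.catToReflQuiver

universe w

namespace Orl

open Fdim Cnc Q Br

namespace XCharts.FrData

variable {k : Type} [Field k] {a : k} {cc : Fin 5 → k} {X : Scheme.{0}} {π : X ⟶ Spec (.of k)}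
  {Y : XCharts (.of k) a cc π} {c : Bool → ℤ → X.Modules} (f : Y.FrData c)

include f

/-- the bundles are of type `O` or `E` over the parts of the surface -/
theorem isFr (b : Bool) (j : ℤ) (v : Ch) : IsFr (Y.K v) (c b j) := by
  cases b
  · exact .O (f.fO j v)
  · exact .E (f.fE j v)

/-- the three conditions of the conic lemma -/
theorem good (b : Bool) (j : ℤ) (v : Ch) : Good3 (Y.Uw v) (Y.Uz v) (c b j) := by
  have := f.qc b j
  exact (f.isFr b j v).good (Y.affW v)

/-- the vanishing of `Ext` -/
theorem ext_eq_zero [HasExt.{w} X.Modules] (b' b : Bool) (i j : ℤ) (v : Ch) (n : ℕ)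
    (x : Ext.{w} (js (Y.W v) (c b' i)) (c b j) (n + 1)) : x = 0 := by
  have := f.qc b' i
  have := f.qc b j
  exact (f.isFr b' i v).ext_eq_zero (f.isFr b j v) (Y.affW v) n x

end XCharts.FrData

end Orl
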