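import Pool.Agent.Work.MP_a6e60d_ag.Conic.Two
import Pool.Agent.Work.MP_a6e60d_ag.Conic.Alg

/-!
MP_a6e60d_ag, conic lemma, 3: `j_!(A|W)`, `W = Uw ⊔ Uz` the relative conic over `S`, for sheaves
`A` which are free of rank one on a global section (`FrO`) or of the type of the bundle `E`
(`FrE`): linear algebra, gluing, criteria.
-/

set_option autoImplicit false

open CategoryTheory Limits TopologicalSpace AlgebraicGeometry Opposite Abelian

attribute [-instance] CategoryTheory.catToReflQuiver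

universe w v u

namespace Orl.Cnc

open Fdim Fdim.Coh Fdim.Loc

/-! ### Free modules of rank one and two -/

section lin

variable {R M N : Type*} [CommRing R] [AddCommGroup M] [Module R M] [AddCommGroup N] [Module R N]

/-- `n` is a basis -/
noncomputable def eqv1 {n : M} (h : Function.Bijective fun c : R => c • n) : R ≃ₗ[R] M :=
  LinearEquiv.ofBijective (LinearMap.toSpanSingleton R M n) h

theorem eqv1_apply {n : M} (h : Function.Bijective fun c : R => c • n) (c : R) :
    eqv1 h c = c • n := rfl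

/-- the linear map with the value `m` on the basis -/
noncomputable def lin1 {n : M} (h : Function.Bijective fun c : R => c • n) (m : N) : M →ₗ[R] N :=
  LinearMap.toSpanSingleton R N m ∘ₗ (eqv1 h).symm.toLinearMap

theorem lin1_apply {n : M} (h : Function.Bijective fun c : R => c • n) (m : N) :
    lin1 h m n = m := by
  have h1 : (eqv1 h).symm n = 1 := by
    rw [LinearEquiv.symm_apply_eq, eqv1_apply, one_smul]
  change (eqv1 h).symm n • m = m
  rw [h1, one_smul]

theorem lin1_ext {n : M} (h : Function.Bijective fun c : R => c • n) {f g : M →ₗ[R] N}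
    (hfg : f n = g n) : f = g := by
  ext x
  obtain ⟨c, rfl⟩ := h.2 x
  simp only [map_smul, hfg]

theorem fin1 {n : M} (h : Function.Bijective fun c : R => c • n) : Module.Finite R M :=
  Module.Finite.equiv (eqv1 h)

theorem proj1 {n : M} (h : Function.Bijective fun c : R => c • n) : Module.Projective R M :=
  Module.Projective.of_equiv (eqv1 h)

/-- `n₁, n₂` is a basis -/
noncomputable def eqv2 {n₁ n₂ : M} (h : Function.Bijective fun c : R × R => c.1 • n₁ + c.2 • n₂) :
    (R × R) ≃ₗ[R] M :=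
  LinearEquiv.ofBijective
    ((LinearMap.toSpanSingleton R M n₁).coprod (LinearMap.toSpanSingleton R M n₂)) h

theorem eqv2_apply {n₁ n₂ : M} (h : Function.Bijective fun c : R × R => c.1 • n₁ + c.2 • n₂)
    (c : R × R) : eqv2 h c = c.1 • n₁ + c.2 • n₂ := rfl

/-- the linear map with the values `m₁, m₂` on the basis -/
noncomputable def lin2 {n₁ n₂ : M} (h : Function.Bijective fun c : R × R => c.1 • n₁ + c.2 • n₂)
    (m₁ m₂ : N) : M →ₗ[R] N :=
  ((LinearMap.toSpanSingleton R N m₁).coprod (LinearMap.toSpanSingleton R N m₂)) ∘ₗ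
    (eqv2 h).symm.toLinearMap

theorem lin2_apply₁ {n₁ n₂ : M} (h : Function.Bijective fun c : R × R => c.1 • n₁ + c.2 • n₂)
    (m₁ m₂ : N) : lin2 h m₁ m₂ n₁ = m₁ := by
  have h1 : (eqv2 h).symm n₁ = (1, 0) := by
    rw [LinearEquiv.symm_apply_eq, eqv2_apply, one_smul, zero_smul, add_zero]
  change ((eqv2 h).symm n₁).1 • m₁ + ((eqv2 h).symm n₁).2 • m₂ = m₁
  rw [h1, one_smul, zero_smul, add_zero]

theorem lin2_apply₂ {n₁ n₂ : M} (h : Function.Bijective fun c : R × R => c.1 • n₁ + c.2 • n₂)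
    (m₁ m₂ : N) : lin2 h m₁ m₂ n₂ = m₂ := by
  have h1 : (eqv2 h).symm n₂ = (0, 1) := by
    rw [LinearEquiv.symm_apply_eq, eqv2_apply, one_smul, zero_smul, zero_add]
  change ((eqv2 h).symm n₂).1 • m₁ + ((eqv2 h).symm n₂).2 • m₂ = m₂
  rw [h1, one_smul, zero_smul, zero_add]

theorem lin2_ext {n₁ n₂ : M} (h : Function.Bijective fun c : R × R => c.1 • n₁ + c.2 • n₂)
    {f g : M →ₗ[R] N} (h1 : f n₁ = g n₁) (h2 : f n₂ = g n₂) : f = g := by
  ext x
  obtain ⟨c, rfl⟩ := h.2 x
  simp only [map_add, map_smul, h1, h2]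

theorem fin2 {n₁ n₂ : M} (h : Function.Bijective fun c : R × R => c.1 • n₁ + c.2 • n₂) :
    Module.Finite R M :=
  Module.Finite.equiv (eqv2 h)

theorem proj2 {n₁ n₂ : M} (h : Function.Bijective fun c : R × R => c.1 • n₁ + c.2 • n₂) :
    Module.Projective R M :=
  Module.Projective.of_equiv (eqv2 h)

end lin

variable {X : Scheme.{u}}

/-! ### Gluing over two open sets -/

theorem sec_ext2 (M : X.Modules) {U V : X.Opens} {s t : Γ(M, U ⊔ V)}
    (h1 : rs M le_sup_left s = rs M (le_sup_left : U ≤ U ⊔ V) t)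
    (h2 : rs M le_sup_right s = rs M (le_sup_right : V ≤ U ⊔ V) t) : s = t := by
  refine sec_ext M (ι := Bool) (U := fun b => cond b U V)
    (fun b => by cases b; exacts [le_sup_right, le_sup_left]) ?_ ?_
  · exact sup_le (le_iSup (fun b => cond b U V) true) (le_iSup (fun b => cond b U V) false)
  · intro b
    cases b
    · exact h2
    · exact h1

theorem exists_glue2 (M : X.Modules) {U V : X.Opens} (s : Γ(M, U)) (t : Γ(M, V))
    (h : rs M inf_le_left s = rs M (inf_le_right : U ⊓ V ≤ V) t) :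
    ∃ r : Γ(M, U ⊔ V), rs M le_sup_left r = s ∧ rs M le_sup_right r = t := by
  obtain ⟨r, hr⟩ := exists_glue M (ι := Bool) (V := U ⊔ V) (U := fun b => cond b U V)
    (fun b => by cases b; exacts [le_sup_right, le_sup_left])
    (sup_le (le_iSup (fun b => cond b U V) true) (le_iSup (fun b => cond b U V) false))
    (fun b => match b with
      | true => s
      | false => t) (by
      rintro (_ | _) (_ | _)
      · rfl
      · have h1 := congrArg (rs M (le_of_eq (inf_comm V U))) h
        rw [rs_rs, rs_rs] at h1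
        exact h1.symm
      · exact h
      · rfl)
  exact ⟨r, hr true, hr false⟩

theorem secO_ext2 {U V : X.Opens} {s t : Γ(X, U ⊔ V)}
    (h1 : rO le_sup_left s = rO (le_sup_left : U ≤ U ⊔ V) t)
    (h2 : rO le_sup_right s = rO (le_sup_right : V ≤ U ⊔ V) t) : s = t := by
  refine TopCat.Sheaf.eq_of_locally_eq' X.sheaf (fun b : Bool => cond b U V) (U ⊔ V)
    (fun b => homOfLE (by cases b; exacts [le_sup_right, le_sup_left])) ?_ s t ?_
  · exact sup_le (le_iSup (fun b => cond b U V) true) (le_iSup (fun b => cond b U V) false)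
  · intro b
    cases b
    · exact h2
    · exact h1

theorem exists_glueO2 {U V : X.Opens} (s : Γ(X, U)) (t : Γ(X, V))
    (h : rO inf_le_left s = rO (inf_le_right : U ⊓ V ≤ V) t) :
    ∃ r : Γ(X, U ⊔ V), rO le_sup_left r = s ∧ rO le_sup_right r = t := by
  obtain ⟨r, hr, -⟩ := TopCat.Sheaf.existsUnique_gluing' X.sheaf (fun b : Bool => cond b U V)
    (U ⊔ V) (fun b => homOfLE (by cases b; exacts [le_sup_right, le_sup_left]))
    (sup_le (le_iSup (fun b => cond b U V) true) (le_iSup (fun b => cond b U V) false))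
    (fun b => match b with
      | true => s
      | false => t) (by
      rintro (_ | _) (_ | _)
      · rfl
      · have h1 := congrArg (rO (le_of_eq (inf_comm V U))) h
        rw [rO_rO, rO_rO] at h1
        exact h1.symm
      · exact h
      · rfl)
  exact ⟨r, hr true, hr false⟩

variable {Uw Uz : X.Opens} {S : Type v} [CommRing S]

/-- a relative conic over `S` in the scheme `X`, with the affine charts `Uw`, `Uz` -/
abbrev Cone (S : Type v) [CommRing S] (Uw Uz : X.Opens) :=
  Con S (rO (inf_le_left : Uw ⊓ Uz ≤ Uw)) (rO (inf_le_right : Uw ⊓ Uz ≤ Uz))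

/-- the two charts and their intersection are affine -/
structure Aff (Uw Uz : X.Opens) : Prop where
  w : IsAffineOpen Uw
  z : IsAffineOpen Uz
  o : IsAffineOpen (Uw ⊓ Uz)

namespace Con

variable (K : Cone S Uw Uz)

theorem exists_sW (s : S) : ∃ r : Γ(X, Uw ⊔ Uz), rO le_sup_left r = K.sw s ∧
    rO le_sup_right r = K.sz s := exists_glueO2 _ _ (K.comm s)

/-- the coefficients as functions on the relative conic -/
noncomputable def sW : S →+* Γ(X, Uw ⊔ Uz) where
  toFun s := (K.exists_sW s).choose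
  map_one' := secO_ext2 (by rw [(K.exists_sW 1).choose_spec.1, map_one, map_one])
    (by rw [(K.exists_sW 1).choose_spec.2, map_one, map_one])
  map_zero' := secO_ext2 (by rw [(K.exists_sW 0).choose_spec.1, map_zero, map_zero])
    (by rw [(K.exists_sW 0).choose_spec.2, map_zero, map_zero])
  map_mul' s t := secO_ext2
    (by rw [(K.exists_sW (s * t)).choose_spec.1, map_mul, map_mul, (K.exists_sW s).choose_spec.1,
      (K.exists_sW t).choose_spec.1])
    (by rw [(K.exists_sW (s * t)).choose_spec.2, map_mul, map_mul, (K.exists_sW s).choose_spec.2,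
      (K.exists_sW t).choose_spec.2])
  map_add' s t := secO_ext2
    (by rw [(K.exists_sW (s + t)).choose_spec.1, map_add, map_add, (K.exists_sW s).choose_spec.1,
      (K.exists_sW t).choose_spec.1])
    (by rw [(K.exists_sW (s + t)).choose_spec.2, map_add, map_add, (K.exists_sW s).choose_spec.2,
      (K.exists_sW t).choose_spec.2])

theorem rO_sW_left (s : S) : rO le_sup_left (K.sW s) = K.sw s := (K.exists_sW s).choose_spec.1

theorem rO_sW_right (s : S) : rO le_sup_right (K.sW s) = K.sz s := (K.exists_sW s).choose_spec.2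

end Con

/-- `A` is free of rank one on a section over `Uw ⊔ Uz` -/
structure FrO (Uw Uz : X.Opens) (A : X.Modules) where
  /-- the generator -/
  u : Γ(A, Uw ⊔ Uz)
  bw : Function.Bijective fun c : Γ(X, Uw) => c • rs A (le_sup_left : Uw ≤ Uw ⊔ Uz) u
  bz : Function.Bijective fun c : Γ(X, Uz) => c • rs A (le_sup_right : Uz ≤ Uw ⊔ Uz) u
  bo : Function.Bijective fun c : Γ(X, Uw ⊓ Uz) =>
    c • rs A ((inf_le_left : Uw ⊓ Uz ≤ Uw).trans (le_sup_left : Uw ≤ Uw ⊔ Uz)) u

/-- `A` has the basis `u, i` over `Uw`, the basis `u, j` over `Uz`, `j = y u + z i` -/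
structure FrE (K : Cone S Uw Uz) (A : X.Modules) where
  /-- the section `1` -/
  u : Γ(A, Uw ⊔ Uz)
  /-- the section `i 1` -/
  i : Γ(A, Uw ⊔ Uz)
  /-- the section `j 1` -/
  j : Γ(A, Uw ⊔ Uz)
  bw : Function.Bijective fun c : Γ(X, Uw) × Γ(X, Uw) =>
    c.1 • rs A (le_sup_left : Uw ≤ Uw ⊔ Uz) u + c.2 • rs A (le_sup_left : Uw ≤ Uw ⊔ Uz) i
  bz : Function.Bijective fun c : Γ(X, Uz) × Γ(X, Uz) =>
    c.1 • rs A (le_sup_right : Uz ≤ Uw ⊔ Uz) u + c.2 • rs A (le_sup_right : Uz ≤ Uw ⊔ Uz) j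
  bo : Function.Bijective fun c : Γ(X, Uw ⊓ Uz) × Γ(X, Uw ⊓ Uz) =>
    c.1 • rs A ((inf_le_left : Uw ⊓ Uz ≤ Uw).trans (le_sup_left : Uw ≤ Uw ⊔ Uz)) u +
      c.2 • rs A ((inf_le_left : Uw ⊓ Uz ≤ Uw).trans (le_sup_left : Uw ≤ Uw ⊔ Uz)) i
  rel : rs A (le_sup_left : Uw ≤ Uw ⊔ Uz) j = K.y • rs A (le_sup_left : Uw ≤ Uw ⊔ Uz) u +
    K.z • rs A (le_sup_left : Uw ≤ Uw ⊔ Uz) i

/-- the three conditions of the conic lemma on the source -/
structure Good3 (Uw Uz : X.Opens) (A : X.Modules) : Prop where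
  w : Good A Uw
  z : Good A Uz
  o : Good A (Uw ⊓ Uz)

theorem FrO.good {A : X.Modules} [A.IsQuasicoherent] (F : FrO Uw Uz A) (h : Aff Uw Uz) :
    Good3 Uw Uz A where
  w := ⟨h.w, .of_isQuasicoherent A h.w, fin1 F.bw, proj1 F.bw⟩
  z := ⟨h.z, .of_isQuasicoherent A h.z, fin1 F.bz, proj1 F.bz⟩
  o := ⟨h.o, .of_isQuasicoherent A h.o, fin1 F.bo, proj1 F.bo⟩

theorem FrE.good {K : Cone S Uw Uz} {A : X.Modules} [A.IsQuasicoherent] (F : FrE K A)
    (h : Aff Uw Uz) : Good3 Uw Uz A where
  w := ⟨h.w, .of_isQuasicoherent A h.w, fin2 F.bw, proj2 F.bw⟩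
  z := ⟨h.z, .of_isQuasicoherent A h.z, fin2 F.bz, proj2 F.bz⟩
  o := ⟨h.o, .of_isQuasicoherent A h.o, fin2 F.bo, proj2 F.bo⟩

end Orl.Cnc
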