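import Pool.Agent.Work.MP_a6e60d_ag.Conic.Lemma
import Mathlib.Algebra.Quaternion

/-!
MP_a6e60d_ag, conic lemma, 6: the quaternion algebra `ℍ[S, a, 0, q]` acts on the bundle `E` over
the relative conic; `Hom(O, E) = Hom(E, E) = ℍ[S, a, 0, q]`.
-/

set_option autoImplicit false

open CategoryTheory Limits TopologicalSpace AlgebraicGeometry Opposite Abelian Quaternion

attribute [-instance] CategoryTheory.catToReflQuiver

universe w v u

namespace Orl.Cnc

open Fdim Fdim.Coh Fdim.Loc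

variable {X : Scheme.{u}} {Uw Uz : X.Opens} {S : Type v} [CommRing S] {A B C : X.Modules}

section qv

variable {K : Cone S Uw Uz} (F : FrE K B)

theorem FrE.exists_k : ∃ k : Γ(B, Uw ⊔ Uz),
    rs B le_sup_left k = (K.sw K.a * K.z) • rs B le_sup_left F.u + K.y • rs B le_sup_left F.i ∧
    rs B le_sup_right k = K.v • rs B le_sup_right F.j -
      (K.sz K.q * K.w) • rs B le_sup_right F.u := by
  apply exists_glue2
  simp only [map_add, map_sub, map_mul, rs_smul, rs_rs, F.relo, ← K.yw, ← K.comm]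
  have hz := K.zw
  have hy := congrArg (rO (inf_le_left : Uw ⊓ Uz ≤ Uw)) K.yy
  simp only [map_add, map_mul] at hy
  match_scalars
  · linear_combination (-rO inf_le_right K.w) * hy -
      (rO inf_le_left (K.sw K.a) * rO inf_le_left K.z) * hz
  · linear_combination (-rO (inf_le_left : Uw ⊓ Uz ≤ Uw) K.y) * hz

/-- the section `k 1 = i j 1` -/
noncomputable def FrE.k : Γ(B, Uw ⊔ Uz) := F.exists_k.choose

theorem FrE.rs_k_left : rs B le_sup_left F.k =
    (K.sw K.a * K.z) • rs B le_sup_left F.u + K.y • rs B le_sup_left F.i :=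
  F.exists_k.choose_spec.1

theorem FrE.rs_k_right : rs B le_sup_right F.k = K.v • rs B le_sup_right F.j -
      (K.sz K.q * K.w) • rs B le_sup_right F.u :=
  F.exists_k.choose_spec.2

/-- `d ↦ d 1` -/
noncomputable def FrE.qv : ℍ[S, K.a, 0, K.q] →+ Γ(B, Uw ⊔ Uz) where
  toFun d := K.sW d.re • F.u + K.sW d.imI • F.i + K.sW d.imJ • F.j + K.sW d.imK • F.k
  map_zero' := by simp
  map_add' d e := by
    simp only [QuaternionAlgebra.re_add, QuaternionAlgebra.imI_add, QuaternionAlgebra.imJ_add,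
      QuaternionAlgebra.imK_add, map_add, add_smul]
    abel

theorem FrE.qv_apply (d : ℍ[S, K.a, 0, K.q]) : F.qv d =
    K.sW d.re • F.u + K.sW d.imI • F.i + K.sW d.imJ • F.j + K.sW d.imK • F.k := rfl

theorem FrE.rs_qv_left (d : ℍ[S, K.a, 0, K.q]) : rs B le_sup_left (F.qv d) =
    (K.sw d.re + K.sw d.imJ * K.y + K.sw d.imK * (K.sw K.a * K.z)) • rs B le_sup_left F.u +
      (K.sw d.imI + K.sw d.imJ * K.z + K.sw d.imK * K.y) • rs B le_sup_left F.i := by
  rw [qv_apply]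
  simp only [map_add, rs_smul, K.rO_sW_left, F.rel, F.rs_k_left]
  match_scalars <;> ring

theorem FrE.rs_qv_right (d : ℍ[S, K.a, 0, K.q]) : rs B le_sup_right (F.qv d) =
    (K.sz d.re - K.sz d.imI * K.v - K.sz d.imK * (K.sz K.q * K.w)) • rs B le_sup_right F.u +
      (K.sz d.imI * K.w + K.sz d.imJ + K.sz d.imK * K.v) • rs B le_sup_right F.j := by
  rw [qv_apply]
  simp only [map_add, rs_smul, K.rO_sW_right, F.relz, F.rs_k_right]
  match_scalars <;> ring

theorem FrE.qv_bijective : Function.Bijective F.qv := by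
  constructor
  · rw [injective_iff_map_eq_zero]
    intro d hd
    have h1 := F.rs_qv_left d
    rw [hd, map_zero] at h1
    have h2 : (K.sw d.re + K.sw d.imJ * K.y + K.sw d.imK * (K.sw K.a * K.z),
        K.sw d.imI + K.sw d.imJ * K.z + K.sw d.imK * K.y) = ((0, 0) : _ × _) := by
      apply F.bw.1
      simp only
      rw [← h1, zero_smul, zero_smul, add_zero]
    have h3 := congrArg Prod.fst h2
    have h4 := congrArg Prod.snd h2
    simp only at h3 h4
    have h5 : ((Polynomial.C d.imI + Polynomial.C d.imJ * Polynomial.X, Polynomial.C d.imK) :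
        Polynomial S × Polynomial S) = (0, 0) := by
      apply K.freew.1
      simpa using h4
    have h6 := congrArg Prod.fst h5
    have h7 : d.imK = 0 := by simpa using congrArg Prod.snd h5
    have h8 : d.imI = 0 := by simpa using congrArg (fun p => p.coeff 0) h6
    have h9 : d.imJ = 0 := by simpa using congrArg (fun p => p.coeff 1) h6
    rw [h9, h7, map_zero, zero_mul, zero_mul, add_zero, add_zero] at h3
    exact QuaternionAlgebra.ext (K.sw_inj (h3.trans (map_zero K.sw).symm)) h8 h9 h7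
  · intro b
    obtain ⟨⟨a₁, a₂⟩, ha⟩ := F.bw.2 (rs B le_sup_left b)
    obtain ⟨⟨b₁, b₂⟩, hb⟩ := F.bz.2 (rs B le_sup_right b)
    simp only at ha hb
    have hz := K.zw
    have hy := K.yw
    have h1 : (rO (inf_le_left : Uw ⊓ Uz ≤ Uw) a₁, rO (inf_le_left : Uw ⊓ Uz ≤ Uw) a₂) =
        ((rO (inf_le_right : Uw ⊓ Uz ≤ Uz) b₁ + rO inf_le_left K.y * rO inf_le_right b₂,
          rO inf_le_left K.z * rO (inf_le_right : Uw ⊓ Uz ≤ Uz) b₂) : _ × _) := by
      apply F.bo.1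
      simp only
      have e1 := congrArg (rs B (inf_le_left : Uw ⊓ Uz ≤ Uw)) ha
      have e2 := congrArg (rs B (inf_le_right : Uw ⊓ Uz ≤ Uz)) hb
      simp only [rs_smul, rs_rs, map_add, F.relo] at e1 e2
      rw [e1, ← e2]
      match_scalars <;> ring
    have h2 := congrArg Prod.fst h1
    have h3 := congrArg Prod.snd h1
    simp only at h2 h3
    obtain ⟨s₀, s₁, s₂, rfl, rfl⟩ := K.eq1 h3
    obtain ⟨s₃, h4, h5⟩ := K.eq0 (α := a₁ - K.sw s₁ * K.y - K.sw s₂ * (K.sw K.a * K.z))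
      (β := b₁ + K.sz s₀ * K.v + K.sz s₂ * (K.sz K.q * K.w)) (by
      have hyy := congrArg (rO (inf_le_left : Uw ⊓ Uz ≤ Uw)) K.yy
      simp only [map_add, map_sub, map_mul, ← K.comm, ← K.yw] at h2 hyy ⊢
      rw [h2]
      linear_combination (rO inf_le_left (K.sw s₂) * rO inf_le_right K.w) * hyy +
        (rO inf_le_left (K.sw s₂) * rO inf_le_left (K.sw K.a) * rO inf_le_left K.z) * hz)
    refine ⟨⟨s₃, s₀, s₁, s₂⟩, sec_ext2 B ?_ ?_⟩
    · rw [F.rs_qv_left, ← ha]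
      congr 1
      congr 1
      rw [← h4]
      ring
    · rw [F.rs_qv_right, ← hb]
      congr 1
      · congr 1
        rw [← h5]
        ring
      · congr 1
        ring

theorem FrE.qv_smul (s : S) (d : ℍ[S, K.a, 0, K.q]) : F.qv (s • d) = K.sW s • F.qv d := by
  simp only [qv_apply, QuaternionAlgebra.re_smul, QuaternionAlgebra.imI_smul,
    QuaternionAlgebra.imJ_smul, QuaternionAlgebra.imK_smul, smul_eq_mul, map_mul, smul_add,
    smul_smul]

theorem FrE.qv_one : F.qv 1 = F.u := by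
  simp [qv_apply]

theorem FrE.qv_i : F.qv ⟨0, 1, 0, 0⟩ = F.i := by
  simp [qv_apply]

theorem FrE.qv_j : F.qv ⟨0, 0, 1, 0⟩ = F.j := by
  simp [qv_apply]

theorem FrE.qv_k : F.qv ⟨0, 0, 0, 1⟩ = F.k := by
  simp [qv_apply]

end qv

/-! ### Morphisms -/

section hom

variable {K : Cone S Uw Uz}

theorem FrE.hom_bijective (E : FrE K A) (hA : Good3 Uw Uz A) (F : FrE K B) :
    Function.Bijective fun φ : (supU A (Uw ⊔ Uz)).sh ⟶ B => secHom le_rfl φ E.u := by
  have hinj : ∀ φ : (supU A (Uw ⊔ Uz)).sh ⟶ B, secHom le_rfl φ E.u = 0 → φ = 0 := by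
    intro φ hφ
    have h1 : secHom le_sup_left φ (rs A (le_sup_left : Uw ≤ Uw ⊔ Uz) E.u) = 0 := by
      rw [secHom_rs_le, hφ, map_zero]
    have h2 : secHom le_sup_right φ (rs A (le_sup_right : Uz ≤ Uw ⊔ Uz) E.u) = 0 := by
      rw [secHom_rs_le, hφ, map_zero]
    have h3 := E.hom_rel φ
    rw [h2, smul_zero, sub_zero] at h3
    obtain ⟨h4, h5⟩ := F.eqB h3
    apply E.hom_ext_loc hA
    · rw [h1, secHom_zero]
      rfl
    · rw [h4, secHom_zero]
      rfl
    · rw [h2, secHom_zero]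
      rfl
    · rw [h5, secHom_zero]
      rfl
  constructor
  · intro φ ψ h
    rw [← sub_eq_zero]
    apply hinj
    have h1 : secHom (A := A) (B := B) (le_refl (Uw ⊔ Uz)) (φ - ψ) =
        secHom le_rfl φ - secHom le_rfl ψ := by
      rw [sub_eq_add_neg, secHom_add, secHom_neg, sub_eq_add_neg]
    rw [h1, LinearMap.sub_apply, sub_eq_zero]
    exact h
  · intro b
    obtain ⟨α₂, β₂, h⟩ := F.exB (-(rs B (inf_le_right : Uw ⊓ Uz ≤ Uz)
      (K.v • rs B (le_sup_right : Uz ≤ Uw ⊔ Uz) b)))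
    obtain ⟨φ, h1, h2, h3, h4⟩ := E.exists_hom_loc hA (rs B le_sup_left b) α₂
      (rs B le_sup_right b) β₂ (by rw [rs_rs, rs_rs]) (by
        rw [map_sub, sub_eq_add_neg _ (rs B inf_le_right (K.v • _)), h]
        abel)
    refine ⟨φ, sec_ext2 B ?_ ?_⟩
    · simp only
      rw [secHom_rs, h1]
    · simp only
      rw [secHom_rs, h3]

/-- the action of `d` from one sheaf of type `E` to another one: `d' 1 ↦ d d' 1` -/
theorem FrE.exists_act (E : FrE K A) (hA : Good3 Uw Uz A) (F : FrE K B)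
    (d : ℍ[S, K.a, 0, K.q]) : ∃ φ : (supU A (Uw ⊔ Uz)).sh ⟶ B,
      ∀ d', secHom le_rfl φ (E.qv d') = F.qv (d * d') := by
  have hy := K.yy
  have hv := K.vv
  obtain ⟨φ, h1, h2, h3⟩ := E.exists_hom hA (F.qv d) (F.qv (d * ⟨0, 1, 0, 0⟩))
    (F.qv (d * ⟨0, 0, 1, 0⟩)) (by
      rw [F.rs_qv_left, F.rs_qv_left, F.rs_qv_left]
      simp only [QuaternionAlgebra.re_mul, QuaternionAlgebra.imI_mul, QuaternionAlgebra.imJ_mul,
        QuaternionAlgebra.imK_mul, map_add, map_sub, map_mul, map_zero, map_one]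
      match_scalars
      · linear_combination (-K.sw d.imJ) * hy
      · linear_combination (-K.sw d.imK) * hy) (by
      rw [F.rs_qv_right, F.rs_qv_right, F.rs_qv_right]
      simp only [QuaternionAlgebra.re_mul, QuaternionAlgebra.imI_mul, QuaternionAlgebra.imJ_mul,
        QuaternionAlgebra.imK_mul, map_add, map_sub, map_mul, map_zero, map_one]
      match_scalars
      · linear_combination (-K.sz d.imI) * hv
      · linear_combination (K.sz d.imK) * hv)
  have h4 : secHom le_rfl φ E.k = F.qv (d * ⟨0, 0, 0, 1⟩) := by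
    apply sec_ext2
    · rw [secHom_rs, E.rs_k_left, map_add, LinearMap.map_smul, LinearMap.map_smul,
        secHom_rs_le, secHom_rs_le, h1, h2, F.rs_qv_left,
        F.rs_qv_left, F.rs_qv_left]
      simp only [QuaternionAlgebra.re_mul, QuaternionAlgebra.imI_mul, QuaternionAlgebra.imJ_mul,
        QuaternionAlgebra.imK_mul, map_add, map_sub, map_mul, map_zero, map_one]
      match_scalars
      · linear_combination (-(K.sw K.a * K.sw d.imK)) * hy
      · linear_combination (-K.sw d.imJ) * hy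
    · rw [secHom_rs, E.rs_k_right, map_sub, LinearMap.map_smul, LinearMap.map_smul,
        secHom_rs_le, secHom_rs_le, h1, h3, F.rs_qv_right,
        F.rs_qv_right, F.rs_qv_right]
      simp only [QuaternionAlgebra.re_mul, QuaternionAlgebra.imI_mul, QuaternionAlgebra.imJ_mul,
        QuaternionAlgebra.imK_mul, map_add, map_sub, map_mul, map_zero, map_one]
      match_scalars
      · linear_combination (-(K.sz K.q * K.sz d.imK)) * hv
      · linear_combination (K.sz d.imI) * hv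
  refine ⟨φ, fun d' => ?_⟩
  have h5 : d * d' = d'.re • d + d'.imI • (d * ⟨0, 1, 0, 0⟩) + d'.imJ • (d * ⟨0, 0, 1, 0⟩) +
      d'.imK • (d * ⟨0, 0, 0, 1⟩) := by
    ext <;> simp <;> ring
  rw [h5, E.qv_apply]
  simp only [map_add, LinearMap.map_smul, F.qv_smul, h1, h2, h3, h4]

/-- the action of `d` from one sheaf of type `E` to another one: `d' 1 ↦ d d' 1` -/
noncomputable def FrE.act (E : FrE K A) (hA : Good3 Uw Uz A) (F : FrE K B)
    (d : ℍ[S, K.a, 0, K.q]) : (supU A (Uw ⊔ Uz)).sh ⟶ B := (E.exists_act hA F d).choose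

theorem FrE.act_qv (E : FrE K A) (hA : Good3 Uw Uz A) (F : FrE K B)
    (d d' : ℍ[S, K.a, 0, K.q]) : secHom le_rfl (E.act hA F d) (E.qv d') = F.qv (d * d') :=
  (E.exists_act hA F d).choose_spec d'

theorem FrE.act_u (E : FrE K A) (hA : Good3 Uw Uz A) (F : FrE K B)
    (d : ℍ[S, K.a, 0, K.q]) : secHom le_rfl (E.act hA F d) E.u = F.qv d := by
  rw [← E.qv_one, act_qv, mul_one]

theorem FrE.act_bijective (E : FrE K A) (hA : Good3 Uw Uz A) (F : FrE K B) :
    Function.Bijective (E.act hA F) := by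
  constructor
  · intro d d' h
    apply F.qv_bijective.1
    rw [← E.act_u hA F, ← E.act_u hA F, h]
  · intro φ
    obtain ⟨d, hd⟩ := F.qv_bijective.2 (secHom le_rfl φ E.u)
    refine ⟨d, (E.hom_bijective hA F).1 ?_⟩
    simp only
    rw [E.act_u, hd]

theorem FrE.eq_act (E : FrE K A) (hA : Good3 Uw Uz A) (F : FrE K B)
    {d : ℍ[S, K.a, 0, K.q]} {φ : (supU A (Uw ⊔ Uz)).sh ⟶ B}
    (h : secHom le_rfl φ E.u = F.qv d) : φ = E.act hA F d :=
  (E.hom_bijective hA F).1 (h.trans (E.act_u hA F d).symm)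

theorem FrE.act_add (E : FrE K A) (hA : Good3 Uw Uz A) (F : FrE K B)
    (d d' : ℍ[S, K.a, 0, K.q]) : E.act hA F (d + d') = E.act hA F d + E.act hA F d' := by
  symm
  apply E.eq_act
  rw [secHom_add, LinearMap.add_apply, act_u, act_u, map_add]

/-- the map `O ⟶ E`, `1 ↦ d 1` -/
noncomputable def FrO.jmap (E : FrO Uw Uz A) (hA : Good3 Uw Uz A) (F : FrE K B)
    (d : ℍ[S, K.a, 0, K.q]) : (supU A (Uw ⊔ Uz)).sh ⟶ B := (E.exists_hom hA (F.qv d)).choose

theorem FrO.jmap_u (E : FrO Uw Uz A) (hA : Good3 Uw Uz A) (F : FrE K B)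
    (d : ℍ[S, K.a, 0, K.q]) : secHom le_rfl (E.jmap hA F d) E.u = F.qv d :=
  (E.exists_hom hA (F.qv d)).choose_spec

theorem FrO.eq_jmap (E : FrO Uw Uz A) (hA : Good3 Uw Uz A) (F : FrE K B)
    {d : ℍ[S, K.a, 0, K.q]} {φ : (supU A (Uw ⊔ Uz)).sh ⟶ B}
    (h : secHom le_rfl φ E.u = F.qv d) : φ = E.jmap hA F d :=
  E.hom_ext hA (h.trans (E.jmap_u hA F d).symm)

theorem FrO.jmap_bijective (E : FrO Uw Uz A) (hA : Good3 Uw Uz A) (F : FrE K B) :
    Function.Bijective (E.jmap hA F) := by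
  constructor
  · intro d d' h
    apply F.qv_bijective.1
    rw [← E.jmap_u hA F, ← E.jmap_u hA F, h]
  · intro φ
    obtain ⟨d, hd⟩ := F.qv_bijective.2 (secHom le_rfl φ E.u)
    exact ⟨d, (E.eq_jmap hA F hd.symm).symm⟩

theorem FrO.jmap_add (E : FrO Uw Uz A) (hA : Good3 Uw Uz A) (F : FrE K B)
    (d d' : ℍ[S, K.a, 0, K.q]) : E.jmap hA F (d + d') = E.jmap hA F d + E.jmap hA F d' := by
  symm
  apply E.eq_jmap
  rw [secHom_add, LinearMap.add_apply, jmap_u, jmap_u, map_add]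

variable (K) in
/-- the map `O ⟶ O`, `1 ↦ s` -/
noncomputable def FrO.smap (E : FrO Uw Uz A) (hA : Good3 Uw Uz A) (F : FrO Uw Uz B)
    (s : S) : (supU A (Uw ⊔ Uz)).sh ⟶ B := (E.exists_hom hA (K.sW s • F.u)).choose

variable (K) in
theorem FrO.smap_u (E : FrO Uw Uz A) (hA : Good3 Uw Uz A) (F : FrO Uw Uz B)
    (s : S) : secHom le_rfl (E.smap K hA F s) E.u = K.sW s • F.u :=
  (E.exists_hom hA (K.sW s • F.u)).choose_spec

variable (K) in
theorem FrO.eq_smap (E : FrO Uw Uz A) (hA : Good3 Uw Uz A) (F : FrO Uw Uz B)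
    {s : S} {φ : (supU A (Uw ⊔ Uz)).sh ⟶ B} (h : secHom le_rfl φ E.u = K.sW s • F.u) :
    φ = E.smap K hA F s := E.hom_ext hA (h.trans (E.smap_u K hA F s).symm)

variable (K) in
theorem FrO.smap_bijective (E : FrO Uw Uz A) (hA : Good3 Uw Uz A) (F : FrO Uw Uz B) :
    Function.Bijective (E.smap K hA F) := by
  constructor
  · intro s s' h
    apply (F.bijS K).1
    simp only
    rw [← E.smap_u K hA F, ← E.smap_u K hA F, h]
  · intro φ
    obtain ⟨s, hs⟩ := (F.bijS K).2 (secHom le_rfl φ E.u)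
    exact ⟨s, (E.eq_smap K hA F hs.symm).symm⟩

end hom

/-! ### Composition and restriction -/

/-- a morphism `j_!(A|W) ⟶ B` has its image in `j_!(B|W)` -/
noncomputable def lf {W : X.Opens} (φ : (supU A W).sh ⟶ B) : (supU A W).sh ⟶ (supU B W).sh :=
  (supU B W).lift φ fun V t => by
    intro x hx hxW
    obtain ⟨V', h, hxV', h0⟩ := (mem_supU _).1 ((supU A W).ι_mem t) x hx hxW
    refine ⟨V', h, hxV', ?_⟩
    have h1 : rs (supU A W).sh h t = 0 := (supU A W).ι_injective V' (by rw [ap_rs, h0, map_zero])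
    rw [← ap_rs, h1, map_zero]

@[reassoc (attr := simp)]
theorem lf_ι {W : X.Opens} (φ : (supU A W).sh ⟶ B) : lf φ ≫ (supU B W).ι = φ :=
  SubSh.lift_ι _ _ _

theorem lf_unique {W : X.Opens} {φ : (supU A W).sh ⟶ B} {ψ : (supU A W).sh ⟶ (supU B W).sh}
    (h : ψ ≫ (supU B W).ι = φ) : ψ = lf φ := by
  rw [← cancel_mono (supU B W).ι, h, lf_ι]

/-- the sections of a composition -/
theorem secHom_comp {W U : X.Opens} (h : U ≤ W) (φ : (supU A W).sh ⟶ (supU B W).sh)
    (ψ : (supU B W).sh ⟶ C) (s : Γ(A, U)) :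
    secHom h (φ ≫ ψ) s = secHom h ψ (secHom h (φ ≫ (supU B W).ι) s) := by
  rw [secHom_apply, secHom_apply, secHom_apply, ap_comp]
  congr 1

theorem secHom_lf {W U : X.Opens} (h : U ≤ W) (φ : (supU A W).sh ⟶ B)
    (ψ : (supU B W).sh ⟶ C) (s : Γ(A, U)) :
    secHom h (lf φ ≫ ψ) s = secHom h ψ (secHom h φ s) := by
  rw [secHom_comp, lf_ι]

theorem secHom_ι {W U : X.Opens} (h : U ≤ W) (s : Γ(A, U)) :
    secHom h (supU A W).ι s = s := rfl

section comp

variable {K : Cone S Uw Uz}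

theorem FrE.act_comp (E : FrE K A) (hA : Good3 Uw Uz A) (F : FrE K B) (hB : Good3 Uw Uz B)
    (G : FrE K C) (d d' : ℍ[S, K.a, 0, K.q]) :
    lf (E.act hA F d) ≫ F.act hB G d' = E.act hA G (d' * d) := by
  apply E.eq_act
  rw [secHom_lf, act_u, act_qv]

theorem FrE.act_one (E : FrE K A) (hA : Good3 Uw Uz A) :
    E.act hA E 1 = (supU A (Uw ⊔ Uz)).ι := by
  symm
  apply E.eq_act
  rw [secHom_ι, E.qv_one]

theorem FrO.jmap_comp (E : FrO Uw Uz A) (hA : Good3 Uw Uz A) (F : FrE K B) (hB : Good3 Uw Uz B)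
    (G : FrE K C) (d d' : ℍ[S, K.a, 0, K.q]) :
    lf (E.jmap hA F d) ≫ F.act hB G d' = E.jmap hA G (d' * d) := by
  apply E.eq_jmap
  rw [secHom_lf, jmap_u, FrE.act_qv]

theorem FrO.smap_jmap (E : FrO Uw Uz A) (hA : Good3 Uw Uz A) (F : FrO Uw Uz B)
    (hB : Good3 Uw Uz B) (G : FrE K C) (s : S) (d : ℍ[S, K.a, 0, K.q]) :
    lf (E.smap K hA F s) ≫ F.jmap hB G d = E.jmap hA G (s • d) := by
  apply E.eq_jmap
  rw [secHom_lf, smap_u, LinearMap.map_smul, jmap_u, G.qv_smul]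

variable (K) in
theorem FrO.smap_comp (E : FrO Uw Uz A) (hA : Good3 Uw Uz A) (F : FrO Uw Uz B)
    (hB : Good3 Uw Uz B) (G : FrO Uw Uz C) (s s' : S) :
    lf (E.smap K hA F s) ≫ F.smap K hB G s' = E.smap K hA G (s * s') := by
  apply E.eq_smap
  rw [secHom_lf, smap_u, LinearMap.map_smul, smap_u, smul_smul, map_mul]

variable (K) in
theorem FrO.smap_one (E : FrO Uw Uz A) (hA : Good3 Uw Uz A) :
    E.smap K hA E 1 = (supU A (Uw ⊔ Uz)).ι := by
  symm
  apply E.eq_smap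
  rw [secHom_ι, map_one, one_smul]

end comp

/-! ### Restriction to a smaller relative conic -/

section res

variable {S' : Type w} [CommRing S'] {Uw' Uz' : X.Opens} {K : Cone S Uw Uz}
  {K' : Cone S' Uw' Uz'}

theorem FrE.act_res (h : Uw' ⊔ Uz' ≤ Uw ⊔ Uz) (E : FrE K A) (hA : Good3 Uw Uz A)
    (F : FrE K B) (E' : FrE K' A) (hA' : Good3 Uw' Uz' A) (F' : FrE K' B)
    (hE : rs A h E.u = E'.u) (d : ℍ[S, K.a, 0, K.q]) (d' : ℍ[S', K'.a, 0, K'.q])
    (hd : rs B h (F.qv d) = F'.qv d') :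
    SubSh.incl (supU A (Uw' ⊔ Uz')) (supU A (Uw ⊔ Uz)) (supU_mono A h) ≫ E.act hA F d =
      E'.act hA' F' d' := by
  apply E'.eq_act
  rw [secHom_incl le_rfl h, ← hE, secHom_rs_le h, act_u, hd]

theorem FrO.jmap_res (h : Uw' ⊔ Uz' ≤ Uw ⊔ Uz) (E : FrO Uw Uz A) (hA : Good3 Uw Uz A)
    (F : FrE K B) (E' : FrO Uw' Uz' A) (hA' : Good3 Uw' Uz' A) (F' : FrE K' B)
    (hE : rs A h E.u = E'.u) (d : ℍ[S, K.a, 0, K.q]) (d' : ℍ[S', K'.a, 0, K'.q])
    (hd : rs B h (F.qv d) = F'.qv d') :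
    SubSh.incl (supU A (Uw' ⊔ Uz')) (supU A (Uw ⊔ Uz)) (supU_mono A h) ≫ E.jmap hA F d =
      E'.jmap hA' F' d' := by
  apply E'.eq_jmap
  rw [secHom_incl le_rfl h, ← hE, secHom_rs_le h, jmap_u, hd]

theorem FrO.smap_res (h : Uw' ⊔ Uz' ≤ Uw ⊔ Uz) (E : FrO Uw Uz A) (hA : Good3 Uw Uz A)
    (F : FrO Uw Uz B) (E' : FrO Uw' Uz' A) (hA' : Good3 Uw' Uz' A) (F' : FrO Uw' Uz' B)
    (hE : rs A h E.u = E'.u) (s : S) (s' : S')
    (hd : rs B h (K.sW s • F.u) = K'.sW s' • F'.u) :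
    SubSh.incl (supU A (Uw' ⊔ Uz')) (supU A (Uw ⊔ Uz)) (supU_mono A h) ≫ E.smap K hA F s =
      E'.smap K' hA' F' s' := by
  apply E'.eq_smap
  rw [secHom_incl le_rfl h, ← hE, secHom_rs_le h, smap_u, hd]

end res

end Orl.Cnc
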