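import Pool.Agent.Work.MP_a6e60d_ag.Conic.ChQ
import Pool.Agent.Work.MP_a6e60d_ag.Conic.Quat

/-!
# Frames of the line bundles `O(j)` and of the bundles `E(j)` over the charts of the base

`Y.FrData c`: frames of `c false j = O(j)` and `c true j = E(j)` over the halves of the surface,
with their relations on the intersection.
-/

open CategoryTheory Limits TopologicalSpace AlgebraicGeometry Opposite Polynomial Quaternion

open scoped LaurentPolynomial

attribute [-instance] CategoryTheory.catToReflQuiver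

namespace Orl

open Fdim Cnc Q

namespace Cnc

universe v u

variable {X : Scheme.{u}} {Uw Uz : X.Opens} {S : Type v} [CommRing S] {B : X.Modules}

/-- sections of a sheaf of type `O` are determined on `Uw` -/
theorem FrO.ext_w (K : Cone S Uw Uz) (F : FrO Uw Uz B) {b b' : Γ(B, Uw ⊔ Uz)}
    (h : rs B (le_sup_left : Uw ≤ Uw ⊔ Uz) b = rs B le_sup_left b') : b = b' := by
  obtain ⟨s, rfl⟩ := (F.bijS K).2 b
  obtain ⟨s', rfl⟩ := (F.bijS K).2 b'
  simp only [rs_smul, K.rO_sW_left] at h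
  rw [K.sw_inj (F.bw.1 h)]

/-- sections of a sheaf of type `E` are determined on `Uw` -/
theorem FrE.ext_w {K : Cone S Uw Uz} (F : FrE K B) {b b' : Γ(B, Uw ⊔ Uz)}
    (h : rs B (le_sup_left : Uw ≤ Uw ⊔ Uz) b = rs B le_sup_left b') : b = b' := by
  obtain ⟨d, rfl⟩ := F.qv_bijective.2 b
  obtain ⟨d', rfl⟩ := F.qv_bijective.2 b'
  rw [F.rs_qv_left, F.rs_qv_left] at h
  have h2 : (K.sw d.re + K.sw d.imJ * K.y + K.sw d.imK * (K.sw K.a * K.z),
      K.sw d.imI + K.sw d.imJ * K.z + K.sw d.imK * K.y) =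
      ((K.sw d'.re + K.sw d'.imJ * K.y + K.sw d'.imK * (K.sw K.a * K.z),
      K.sw d'.imI + K.sw d'.imJ * K.z + K.sw d'.imK * K.y) : _ × _) := F.bw.1 h
  have h3 := congrArg Prod.fst h2
  have h4 := congrArg Prod.snd h2
  simp only at h3 h4
  have h5 : ((Polynomial.C d.imI + Polynomial.C d.imJ * Polynomial.X, Polynomial.C d.imK) :
      Polynomial S × Polynomial S) =
      (Polynomial.C d'.imI + Polynomial.C d'.imJ * Polynomial.X, Polynomial.C d'.imK) := by
    apply K.freew.1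
    simpa using h4
  have h6 := congrArg Prod.fst h5
  have h7 : d.imK = d'.imK := by simpa using congrArg Prod.snd h5
  have h8 : d.imI = d'.imI := by simpa using congrArg (fun p => p.coeff 0) h6
  have h9 : d.imJ = d'.imJ := by simpa using congrArg (fun p => p.coeff 1) h6
  rw [h9, h7] at h3
  have h10 : d.re = d'.re := K.sw_inj (add_right_cancel (add_right_cancel h3))
  rw [QuaternionAlgebra.ext h10 h8 h9 h7]

end Cnc

namespace XCharts

variable {k : Type} [Field k] {a : k} {cc : Fin 5 → k} {X : Scheme.{0}} {π : X ⟶ Spec (.of k)}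
  (Y : XCharts (.of k) a cc π)

theorem WW_mono {v w : Ch} (h : v ≤ w) : Y.Uw w ⊔ Y.Uz w ≤ Y.Uw v ⊔ Y.Uz v := Y.W_mono h

/-- frames of the line bundles and the rank two bundles over the halves of the surface -/
structure FrData (c : Bool → ℤ → X.Modules) where
  /-- the frames of the line bundles -/
  fO : ∀ (j : ℤ) (v : Ch), FrO (Y.Uw v) (Y.Uz v) (c false j)
  /-- the frames of the rank two bundles -/
  fE : ∀ (j : ℤ) (v : Ch), FrE (Y.K v) (c true j)
  qc : ∀ b j, (c b j).IsQuasicoherent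
  resO : ∀ j v, rs (c false j) (Y.WW_mono (Ch.le_mid v)) (fO j v).u =
    Y.sM (LaurentPolynomial.T (v.tw j)) • (fO j .mid).u
  resu : ∀ j v, rs (c true j) (Y.WW_mono (Ch.le_mid v)) (fE j v).u =
    Y.sM (LaurentPolynomial.T (v.tw j)) • (fE j .mid).u
  resi : ∀ j v, rs (c true j) (Y.WW_mono (Ch.le_mid v)) (fE j v).i =
    Y.sM (LaurentPolynomial.T (v.tw j)) • (fE j .mid).i

variable {Y} {δ : Dat k} (ha : δ.a = a) (hq : δ.q = toLaurent (qx cc)) {c : Bool → ℤ → X.Modules}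
  (f : Y.FrData c)

namespace FrData

include f in
theorem rs_fO (j : ℤ) (v : Ch) (s : Sv k v) :
    rs (c false j) (Y.WW_mono (Ch.le_mid v)) ((Y.K v).sW s • (f.fO j v).u) =
      Y.sM (LaurentPolynomial.T (v.tw j) * sv k v s) • (f.fO j .mid).u := by
  apply (f.fO j .mid).ext_w (Y.K .mid)
  have h1 := congrArg (rs (c false j) (le_sup_left : Y.Uw .mid ≤ Y.Uw .mid ⊔ Y.Uz .mid))
    (f.resO j v)
  have h2 := congrArg (rO (Y.Uw_mono (Ch.le_mid v))) ((Y.K v).rO_sW_left s)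
  rw [Y.rO_K_sw, rO_rO] at h2
  rw [rs_smul, Y.rO_sM, rs_rs] at h1
  rw [rs_smul, rs_smul, rs_smul, Y.rO_sM, rs_rs, h1, rO_rO, smul_smul, h2,
    map_mul, mul_comm]

theorem sm_zero_mul (x : k[T;T⁻¹]) : Y.sm x = Y.sm (LaurentPolynomial.T 0 * x) := by
  rw [LaurentPolynomial.T_zero, one_mul]

theorem sm_re (j : ℤ) (d : ℍ[Sv k .mid, (Y.K .mid).a, 0, (Y.K .mid).q]) :
    (Y.K .mid).sw d.re = Y.sm ((Y.chQ ha hq .mid).of j d).re := sm_zero_mul d.re

theorem sm_imI (j : ℤ) (d : ℍ[Sv k .mid, (Y.K .mid).a, 0, (Y.K .mid).q]) :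
    (Y.K .mid).sw d.imI = Y.sm ((Y.chQ ha hq .mid).of j d).imI := sm_zero_mul d.imI

theorem sm_imJ (j : ℤ) (d : ℍ[Sv k .mid, (Y.K .mid).a, 0, (Y.K .mid).q]) :
    (Y.K .mid).sw d.imJ = Y.sm ((Y.chQ ha hq .mid).of j d).imJ := sm_zero_mul d.imJ

theorem sm_imK (j : ℤ) (d : ℍ[Sv k .mid, (Y.K .mid).a, 0, (Y.K .mid).q]) :
    (Y.K .mid).sw d.imK = Y.sm ((Y.chQ ha hq .mid).of j d).imK := sm_zero_mul d.imK

theorem sm_a (v : Ch) : (Y.K .mid).sw (Y.K .mid).a = Y.sm (sv k v (Y.K v).a) := by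
  rw [Y.sv_a (δ := ⟨a, 0, fun _ => Submodule.zero_mem _⟩) rfl v]
  rfl

include f in
/-- the restriction of the sections of `E(j)` to the intersection of the halves -/
theorem rs_fE (j : ℤ) (v : Ch) (d : ℍ[Sv k v, (Y.K v).a, 0, (Y.K v).q])
    (d' : ℍ[Sv k .mid, (Y.K .mid).a, 0, (Y.K .mid).q])
    (h : (Y.chQ ha hq .mid).of j d' = (Y.chQ ha hq v).of j d) :
    rs (c true j) (Y.WW_mono (Ch.le_mid v)) ((f.fE j v).qv d) = (f.fE j .mid).qv d' := by
  apply (f.fE j .mid).ext_w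
  have h1 := congrArg (rs (c true j) (le_sup_left : Y.Uw .mid ≤ Y.Uw .mid ⊔ Y.Uz .mid))
    (f.resu j v)
  have h2 := congrArg (rs (c true j) (le_sup_left : Y.Uw .mid ≤ Y.Uw .mid ⊔ Y.Uz .mid))
    (f.resi j v)
  have h3 := congrArg (rs (c true j) (Y.Uw_mono (Ch.le_mid v))) ((f.fE j v).rs_qv_left d)
  rw [rs_smul, Y.rO_sM, rs_rs] at h1 h2
  rw [rs_rs, (f.fE j .mid).rs_qv_left, sm_re ha hq j, sm_imI ha hq j, sm_imJ ha hq j,
    sm_imK ha hq j, h]
  rw [rs_rs] at h3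
  rw [h3, map_add, rs_smul, rs_smul, rs_rs, rs_rs, h1, h2, smul_smul, smul_smul]
  have ht : (LaurentPolynomial.T (v.tw j) : k[T;T⁻¹]) =
      LaurentPolynomial.T (v.tw (j - 2)) * LaurentPolynomial.T (v.tw 2) := by
    rw [← LaurentPolynomial.T_add, ← Ch.tw_add, sub_add_cancel]
  rw [← Y.rO_K_y v, ← Y.rO_K_z v, sm_a v]
  simp only [map_add, map_mul, Y.rO_K_sw, ChQ.of_re, ChQ.of_imI, ChQ.of_imJ, ChQ.of_imK]
  rw [ht, map_mul]
  congr 1
  · congr 1
    ring
  · congr 1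
    ring

end FrData

end XCharts

end Orl
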