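import Pool.Agent.Work.MP_a6e60d_ag.Conic.TrivV
import Pool.Agent.Work.MP_a6e60d_ag.Conic.FrData
import Pool.Agent.Work.MP_a6e60d_ag.Vb.QCoh

/-!
# MP_a6e60d_ag: the frames of the line bundles `O(j D)` and the rank two bundles `E(j D)`
-/

set_option autoImplicit false

open CategoryTheory Limits TopologicalSpace AlgebraicGeometry Opposite

attribute [-instance] CategoryTheory.catToReflQuiver

namespace Orl

open Fdim Cnc Q

namespace XCharts

variable {k : Type} [Field k] {a : k} {cc : Fin 5 → k} {X : Scheme.{0}} {π : X ⟶ Spec (.of k)}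
  (Y : XCharts (.of k) a cc π)

/-- the bundles `O(j D)`, `E(j D)` -/
noncomputable def bun : Bool → ℤ → X.Modules
  | false, j => Y.LL (Y.cD ^ j)
  | true, j => Y.EE (Y.cD ^ j)

theorem bun_false (j : ℤ) : Y.bun false j = Y.LL (Y.cD ^ j) := rfl

theorem bun_true (j : ℤ) : Y.bun true j = Y.EE (Y.cD ^ j) := rfl

/-- the frames of the bundles `O(j D)`, `E(j D)` -/
noncomputable def frData : Y.FrData Y.bun where
  fO j v := Y.oF v j
  fE j v := Y.eF v j
  qc b j := by
    cases b
    · exact Y.isQuasicoherent_LL _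
    · exact Y.isQuasicoherent_EE _
  resO j v := Y.rs_oF v j
  resu j v := Y.rs_eF_u v j
  resi j v := Y.rs_eF_i v j

end XCharts

end Orl
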