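import Mathlib

/-!
# Free modules over polynomial rings: change of the presentation, inversion of a variable
-/

open Polynomial

open scoped LaurentPolynomial

namespace Orl.Cnc

section two

variable {A R : Type*} [CommRing A] [CommRing R]

/-- polynomials in two variables -/
noncomputable def mv2 (A : Type*) [CommRing A] : A[X][X] →+* MvPolynomial (Fin 2) A :=
  eval₂RingHom (eval₂RingHom MvPolynomial.C (MvPolynomial.X 0)) (MvPolynomial.X 1)

theorem mv2_bijective : Function.Bijective (mv2 A) := by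
  let ψ : MvPolynomial (Fin 2) A →+* A[X][X] :=
    MvPolynomial.eval₂Hom (C.comp C) ![C X, X]
  have h1 : (mv2 A).comp ψ = RingHom.id _ := by
    apply MvPolynomial.ringHom_ext
    · intro r
      simp [mv2, ψ]
    · intro i
      fin_cases i <;> simp [mv2, ψ]
  have h2 : ψ.comp (mv2 A) = RingHom.id _ := by
    apply Polynomial.ringHom_ext
    · intro P
      have h3 : (ψ.comp ((mv2 A).comp C)) = C := by
        apply Polynomial.ringHom_ext
        · intro r
          simp [mv2, ψ]
        · simp [mv2, ψ]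
      exact congrArg (fun f => f P) h3
    · simp [mv2, ψ]
  exact ⟨Function.LeftInverse.injective (g := ψ) fun P => congrArg (fun f => f P) h2,
    Function.RightInverse.surjective (g := ψ) fun P => congrArg (fun f => f P) h1⟩

theorem eval_mv2 (σ : A →+* R) (x y : R) (P : A[X][X]) :
    P.eval₂ (eval₂RingHom σ x) y = MvPolynomial.eval₂Hom σ ![x, y] (mv2 A P) := by
  have h : eval₂RingHom (eval₂RingHom σ x) y = (MvPolynomial.eval₂Hom σ ![x, y]).comp (mv2 A) := by
    apply Polynomial.ringHom_ext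
    · intro P
      have h3 : (eval₂RingHom (eval₂RingHom σ x) y).comp C =
          ((MvPolynomial.eval₂Hom σ ![x, y]).comp (mv2 A)).comp C := by
        apply Polynomial.ringHom_ext
        · intro r
          simp [mv2]
        · simp [mv2]
      exact congrArg (fun f => f P) h3
    · simp [mv2]
  exact congrArg (fun f => f P) h

theorem free_of_mv {σ : A →+* R} {x y e : R}
    (h : Function.Bijective fun P : MvPolynomial (Fin 2) A × MvPolynomial (Fin 2) A =>
      MvPolynomial.eval₂Hom σ ![x, y] P.1 + MvPolynomial.eval₂Hom σ ![x, y] P.2 * e) :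
    Function.Bijective fun P : A[X][X] × A[X][X] =>
      P.1.eval₂ (eval₂RingHom σ x) y + P.2.eval₂ (eval₂RingHom σ x) y * e := by
  have h1 := h.comp (mv2_bijective (A := A) |>.prodMap (mv2_bijective (A := A)))
  refine (congrArg Function.Bijective (funext fun P => ?_)).mp h1
  rw [eval_mv2, eval_mv2]
  rfl

end two

section laurent

variable {A R R' : Type*} [CommRing A] [CommRing R] [CommRing R']

/-- the coefficients of a polynomial over the Laurent polynomials have a common denominator -/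
theorem exists_clear (P : A[T;T⁻¹][X]) : ∃ n : ℕ, ∀ m : ℕ, n ≤ m → ∃ P₀ : A[X][X],
    P₀.map toLaurent = C (LaurentPolynomial.T m) * P := by
  induction P using Polynomial.induction_on' with
  | add P Q hP hQ =>
    obtain ⟨n, hn⟩ := hP
    obtain ⟨n', hn'⟩ := hQ
    refine ⟨max n n', fun m hm => ?_⟩
    obtain ⟨P₀, h1⟩ := hn m ((le_max_left _ _).trans hm)
    obtain ⟨Q₀, h2⟩ := hn' m ((le_max_right _ _).trans hm)
    exact ⟨P₀ + Q₀, by rw [Polynomial.map_add, h1, h2, mul_add]⟩
  | monomial j c =>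
    obtain ⟨n, c', hc'⟩ := LaurentPolynomial.exists_T_pow c
    refine ⟨n, fun m hm => ⟨monomial j (X ^ (m - n) * c'), ?_⟩⟩
    rw [Polynomial.map_monomial, map_mul, hc', toLaurent_X_pow, C_mul_monomial]
    congr 1
    rw [LaurentPolynomial.T_mul, mul_assoc, ← LaurentPolynomial.T_add,
      LaurentPolynomial.T_mul (m : ℤ) c]
    congr 2
    omega

theorem free_laurent {σ : A[X] →+* R} {ρ : R →+* R'} {σ' : A[T;T⁻¹] →+* R'}
    (hσ : ∀ P, σ' (toLaurent P) = ρ (σ P)) {y e : R} (hρ : Function.Injective ρ)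
    (hloc : ∀ c : R', ∃ (n : ℕ) (b : R), ρ (σ X) ^ n * c = ρ b)
    (h : Function.Bijective fun P : A[X][X] × A[X][X] => P.1.eval₂ σ y + P.2.eval₂ σ y * e) :
    Function.Bijective fun P : A[T;T⁻¹][X] × A[T;T⁻¹][X] =>
      P.1.eval₂ σ' (ρ y) + P.2.eval₂ σ' (ρ y) * ρ e := by
  have hT : ∀ n : ℕ, σ' (LaurentPolynomial.T n) = ρ (σ X) ^ n := by
    intro n
    rw [← toLaurent_X_pow, hσ, map_pow, map_pow]
  have hmap : ∀ P₀ : A[X][X], (P₀.map toLaurent).eval₂ σ' (ρ y) = ρ (P₀.eval₂ σ y) := by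
    intro P₀
    rw [eval₂_map, Polynomial.hom_eval₂]
    congr 1
    exact RingHom.ext hσ
  have hinv : ∀ n : ℕ, σ' (LaurentPolynomial.T (-(n : ℤ))) * ρ (σ X) ^ n = 1 := by
    intro n
    rw [← hT, ← map_mul, ← LaurentPolynomial.T_add, neg_add_cancel, LaurentPolynomial.T_zero,
      map_one]
  have hCT : ∀ (n : ℕ) (P : A[T;T⁻¹][X]), C (LaurentPolynomial.T n) * P = 0 → P = 0 := by
    intro n P hP
    have h1 := congrArg (fun Q => C (LaurentPolynomial.T (-(n : ℤ)) : A[T;T⁻¹]) * Q) hP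
    simp only [mul_zero, ← mul_assoc, ← C_mul, ← LaurentPolynomial.T_add, neg_add_cancel,
      LaurentPolynomial.T_zero, C_1, one_mul] at h1
    exact h1
  constructor
  · have key : ∀ P Q : A[T;T⁻¹][X], P.eval₂ σ' (ρ y) + Q.eval₂ σ' (ρ y) * ρ e = 0 →
        P = 0 ∧ Q = 0 := by
      intro P Q h0
      obtain ⟨n, hn⟩ := exists_clear P
      obtain ⟨n', hn'⟩ := exists_clear Q
      obtain ⟨P₀, h1⟩ := hn _ (le_max_left n n')
      obtain ⟨Q₀, h2⟩ := hn' _ (le_max_right n n')
      have h3 : ρ (P₀.eval₂ σ y + Q₀.eval₂ σ y * e) = ρ 0 := by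
        rw [map_add, map_mul, ← hmap, ← hmap, h1, h2, eval₂_mul, eval₂_mul, eval₂_C, map_zero]
        linear_combination σ' (LaurentPolynomial.T ((max n n' : ℕ) : ℤ)) * h0
      have h4 := h.1 (a₁ := (P₀, Q₀)) (a₂ := (0, 0)) (by simpa using hρ h3)
      have h5 : P₀ = 0 := congrArg Prod.fst h4
      have h6 : Q₀ = 0 := congrArg Prod.snd h4
      rw [h5, Polynomial.map_zero] at h1
      rw [h6, Polynomial.map_zero] at h2
      exact ⟨hCT _ _ h1.symm, hCT _ _ h2.symm⟩
    rintro ⟨P, Q⟩ ⟨P', Q'⟩ hPQ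
    simp only at hPQ
    obtain ⟨h1, h2⟩ := key (P - P') (Q - Q') (by
      rw [eval₂_sub, eval₂_sub]
      linear_combination hPQ)
    rw [sub_eq_zero.1 h1, sub_eq_zero.1 h2]
  · intro c
    obtain ⟨n, b, hb⟩ := hloc c
    obtain ⟨⟨P, Q⟩, hPQ⟩ := h.2 b
    simp only at hPQ
    refine ⟨(C (LaurentPolynomial.T (-(n : ℤ))) * P.map toLaurent,
      C (LaurentPolynomial.T (-(n : ℤ))) * Q.map toLaurent), ?_⟩
    simp only
    rw [eval₂_mul, eval₂_mul, eval₂_C, hmap, hmap, mul_assoc, ← mul_add, ← map_mul, ← map_add,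
      hPQ, ← hb, ← mul_assoc, hinv, one_mul]

theorem mul_X_eq_zero_of_free {σ : A[X] →+* R} {y e : R}
    (h : Function.Bijective fun P : A[X][X] × A[X][X] => P.1.eval₂ σ y + P.2.eval₂ σ y * e)
    (s : R) (hs : σ X * s = 0) : s = 0 := by
  obtain ⟨⟨P, Q⟩, rfl⟩ := h.2 s
  have h1 := h.1 (a₁ := (C X * P, C X * Q)) (a₂ := (0, 0)) (by
    simp only [eval₂_mul, eval₂_C, eval₂_zero, zero_mul, add_zero]
    rw [← hs]
    ring)
  have hX : ∀ P : A[X][X], C X * P = 0 → P = 0 := by
    intro P hP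
    ext n : 1
    have h2 := congrArg (fun Q => Polynomial.coeff Q n) hP
    simp only [coeff_C_mul, coeff_zero] at h2
    ext m
    have h3 := congrArg (fun Q => Polynomial.coeff Q (m + 1)) h2
    simpa using h3
  have h4 := hX P (congrArg Prod.fst h1)
  have h5 := hX Q (congrArg Prod.snd h1)
  subst h4 h5
  simp

end laurent

end Orl.Cnc
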