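import Pool.Agent.Work.MP_f714fc_ag.Sch.Charts

/-!
# Functions on a principal open subset of an affine open set
-/

open CategoryTheory Limits TopologicalSpace AlgebraicGeometry Opposite

attribute [-instance] CategoryTheory.catToReflQuiver

universe u

namespace Orl.Cnc

open Fdim

variable {X : Scheme.{u}} {U V : X.Opens}

theorem isLocalization_rO (hU : IsAffineOpen U) (f : Γ(X, U)) (hV : V = X.basicOpen f)
    (h : V ≤ U) :
    letI : Algebra Γ(X, U) Γ(X, V) := (rO h).toAlgebra
    IsLocalization.Away f Γ(X, V) := by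
  subst hV
  exact hU.isLocalization_basicOpen f

/-- functions on `D(f)` are fractions with denominator a power of `f` -/
theorem exists_pow_mul_eq (hU : IsAffineOpen U) (f : Γ(X, U)) (hV : V = X.basicOpen f)
    (h : V ≤ U) (c : Γ(X, V)) : ∃ (n : ℕ) (b : Γ(X, U)), rO h f ^ n * c = rO h b := by
  let _ : Algebra Γ(X, U) Γ(X, V) := (rO h).toAlgebra
  have := isLocalization_rO hU f hV h
  obtain ⟨⟨b, ⟨_, n, rfl⟩⟩, hb⟩ := IsLocalization.surj (M := Submonoid.powers f) c
  refine ⟨n, b, ?_⟩
  rw [mul_comm]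
  have h1 : c * rO h (f ^ n) = rO h b := hb
  rwa [map_pow] at h1

theorem exists_pow_mul_eq_zero (hU : IsAffineOpen U) (f : Γ(X, U)) (hV : V = X.basicOpen f)
    (h : V ≤ U) (b : Γ(X, U)) (hb : rO h b = 0) : ∃ n : ℕ, f ^ n * b = 0 := by
  let _ : Algebra Γ(X, U) Γ(X, V) := (rO h).toAlgebra
  have := isLocalization_rO hU f hV h
  have h1 : algebraMap Γ(X, U) Γ(X, V) b = algebraMap Γ(X, U) Γ(X, V) 0 := by
    rw [map_zero]
    exact hb
  obtain ⟨⟨_, n, rfl⟩, hn⟩ := (IsLocalization.eq_iff_exists (Submonoid.powers f) _).1 h1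
  exact ⟨n, by simpa using hn⟩

theorem rO_injective_of_basicOpen (hU : IsAffineOpen U) (f : Γ(X, U)) (hV : V = X.basicOpen f)
    (h : V ≤ U) (hf : ∀ s, f * s = 0 → s = 0) : Function.Injective (rO h) := by
  rw [injective_iff_map_eq_zero]
  intro b hb
  obtain ⟨n, hn⟩ := exists_pow_mul_eq_zero hU f hV h b hb
  clear hb
  induction n with
  | zero => simpa using hn
  | succ n ih =>
    refine ih (hf _ ?_)
    rw [← mul_assoc, ← pow_succ']
    exact hn

/-- multiplication by the coordinate `z` is injective on a ring `S[z] + S[z] y` -/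
theorem mul_eq_zero_of_free {S R : Type*} [CommRing S] [CommRing R] (σ : S →+* R) (z y : R)
    (hf : Function.Bijective fun P : Polynomial S × Polynomial S =>
      P.1.eval₂ σ z + P.2.eval₂ σ z * y) (s : R) (hs : z * s = 0) : s = 0 := by
  obtain ⟨⟨P, Q⟩, rfl⟩ := hf.2 s
  have h1 : (fun P : Polynomial S × Polynomial S => P.1.eval₂ σ z + P.2.eval₂ σ z * y)
      (Polynomial.X * P, Polynomial.X * Q) =
      (fun P : Polynomial S × Polynomial S => P.1.eval₂ σ z + P.2.eval₂ σ z * y) (0, 0) := by
    simp only [Polynomial.eval₂_mul, Polynomial.eval₂_X, Polynomial.eval₂_zero, zero_mul, add_zero]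
    rw [← hs]
    ring
  have h2 := hf.1 h1
  have hP : Polynomial.X * P = 0 := congrArg Prod.fst h2
  have hQ : Polynomial.X * Q = 0 := congrArg Prod.snd h2
  have hP' : P = 0 := by
    ext n
    have := congrArg (fun f => Polynomial.coeff f (n + 1)) hP
    simpa using this
  have hQ' : Q = 0 := by
    ext n
    have := congrArg (fun f => Polynomial.coeff f (n + 1)) hQ
    simpa using this
  subst hP' hQ'
  simp

end Orl.Cnc
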