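import Pool.Agent.Work.MP_a6e60d_ag.Conic.Alg
import Pool.Agent.Work.MP_a6e60d_ag.Conic.Loc
import Pool.Agent.Work.MP_a6e60d_ag.Conic.Free
import Pool.Agent.Work.MP_a6e60d_ag.Sch.XCharts
import Pool.Agent.Work.MP_f714fc_ag.Tw.AmpleExt

/-!
# The conic over the two halves of the base and over their intersection

`K0` : `t = 1`, over `A[x]`, `K1` : `x = 1`, over `A[t]`, `K01` : over `A[x, 1 / x]`.
-/

open CategoryTheory Limits TopologicalSpace AlgebraicGeometry Opposite Polynomial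

open scoped LaurentPolynomial

attribute [-instance] CategoryTheory.catToReflQuiver

namespace Orl

open Fdim Cnc

section

variable {A : CommRingCat.{0}} {X : Scheme.{0}} {π : X ⟶ Spec A}

theorem rO_str {U V : X.Opens} (h : V ≤ U) (r : A) : rO h (str π U r) = str π V r := by
  simp [str]

theorem rO_comp_str {U V : X.Opens} (h : V ≤ U) : (rO h).comp (str π U) = str π V :=
  RingHom.ext (rO_str h)

theorem rO_eval₂ {U V : X.Opens} (h : V ≤ U) (P : A[X]) (x : Γ(X, U)) :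
    rO h (P.eval₂ (str π U) x) = P.eval₂ (str π V) (rO h x) := by
  rw [Polynomial.hom_eval₂, rO_comp_str]

end

namespace XCharts

variable {A : CommRingCat.{0}} {a : A} {c : Fin 5 → A} {X : Scheme.{0}} {π : X ⟶ Spec A}
  (Y : XCharts A a c π)

/-- functions of the base on the charts -/
noncomputable def bs (i : Fin 4) : A[X] →+* Γ(X, Y.U i) :=
  Polynomial.eval₂RingHom (str π (Y.U i)) (Y.x i)

theorem bs_apply (i : Fin 4) (P : A[X]) : Y.bs i P = P.eval₂ (str π (Y.U i)) (Y.x i) := rfl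

theorem free_w0 : Function.Bijective fun P : A[X][X] × A[X][X] =>
    P.1.eval₂ (Y.bs 1) (Y.y 1) + P.2.eval₂ (Y.bs 1) (Y.y 1) * Y.e 1 := free_of_mv (Y.free 1)

theorem free_z0 : Function.Bijective fun P : A[X][X] × A[X][X] =>
    P.1.eval₂ (Y.bs 0) (Y.y 0) + P.2.eval₂ (Y.bs 0) (Y.y 0) * Y.e 0 := free_of_mv (Y.free 0)

/-- the conic over `t = 1` -/
noncomputable def K0 : Con A[X] (rO (inf_le_left : Y.U 1 ⊓ Y.U 0 ≤ Y.U 1))
    (rO (inf_le_right : Y.U 1 ⊓ Y.U 0 ≤ Y.U 0)) where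
  sw := Y.bs 1
  sz := Y.bs 0
  comm := by
    intro s
    rw [bs_apply, bs_apply, rO_eval₂, rO_eval₂]
    have h := congrArg (rO (show Y.U 1 ⊓ Y.U 0 ≤ Y.U 0 ⊓ Y.U 1 from inf_comm _ _ |>.le)) Y.r01x
    rw [rO_rO, rO_rO] at h
    rw [h]
  a := C a
  q := qx c
  z := Y.y 1
  y := Y.e 1
  w := Y.y 0
  v := Y.e 0
  yy := by
    have h := Y.sq1
    rw [bs_apply, bs_apply, eval₂_C]
    linear_combination h
  vv := by
    have h := Y.sq0
    rw [bs_apply, bs_apply, eval₂_C]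
    linear_combination h
  zw := by
    have h := congrArg (rO (show Y.U 1 ⊓ Y.U 0 ≤ Y.U 0 ⊓ Y.U 1 from inf_comm _ _ |>.le)) Y.r01y
    rw [map_mul, map_one, rO_rO, rO_rO] at h
    linear_combination h
  yw := by
    have h := congrArg (rO (show Y.U 1 ⊓ Y.U 0 ≤ Y.U 0 ⊓ Y.U 1 from inf_comm _ _ |>.le)) Y.r01y
    have h' := congrArg (rO (show Y.U 1 ⊓ Y.U 0 ≤ Y.U 0 ⊓ Y.U 1 from inf_comm _ _ |>.le)) Y.r01e
    rw [map_mul, map_one, rO_rO, rO_rO] at h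
    rw [map_mul, rO_rO, rO_rO, rO_rO] at h'
    rw [← h']
    linear_combination (rO inf_le_right (Y.e 0)) * h
  freew := Y.free_w0
  freez := Y.free_z0
  inj := rO_injective_of_basicOpen (Y.aff 1) (Y.y 1) (by rw [inf_comm]; exact Y.b10) _
    (mul_eq_zero_of_free _ _ _ Y.free_w0)
  loc := exists_pow_mul_eq (Y.aff 1) (Y.y 1) (by rw [inf_comm]; exact Y.b10) _

theorem free_w1 : Function.Bijective fun P : A[X][X] × A[X][X] =>
    P.1.eval₂ (Y.bs 3) (Y.y 3) + P.2.eval₂ (Y.bs 3) (Y.y 3) * Y.e 3 := free_of_mv (Y.free 3)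

theorem free_z1 : Function.Bijective fun P : A[X][X] × A[X][X] =>
    P.1.eval₂ (Y.bs 2) (Y.y 2) + P.2.eval₂ (Y.bs 2) (Y.y 2) * Y.e 2 := free_of_mv (Y.free 2)

/-- the conic over `x = 1` -/
noncomputable def K1 : Con A[X] (rO (inf_le_left : Y.U 3 ⊓ Y.U 2 ≤ Y.U 3))
    (rO (inf_le_right : Y.U 3 ⊓ Y.U 2 ≤ Y.U 2)) where
  sw := Y.bs 3
  sz := Y.bs 2
  comm := by
    intro s
    rw [bs_apply, bs_apply, rO_eval₂, rO_eval₂]
    have h := congrArg (rO (show Y.U 3 ⊓ Y.U 2 ≤ Y.U 2 ⊓ Y.U 3 from inf_comm _ _ |>.le)) Y.r23x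
    rw [rO_rO, rO_rO] at h
    rw [h]
  a := C a
  q := qx' c
  z := Y.y 3
  y := Y.e 3
  w := Y.y 2
  v := Y.e 2
  yy := by
    have h := Y.sq3
    rw [bs_apply, bs_apply, eval₂_C]
    linear_combination h
  vv := by
    have h := Y.sq2
    rw [bs_apply, bs_apply, eval₂_C]
    linear_combination h
  zw := by
    have h := congrArg (rO (show Y.U 3 ⊓ Y.U 2 ≤ Y.U 2 ⊓ Y.U 3 from inf_comm _ _ |>.le)) Y.r23y
    rw [map_mul, map_one, rO_rO, rO_rO] at h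
    linear_combination h
  yw := by
    have h := congrArg (rO (show Y.U 3 ⊓ Y.U 2 ≤ Y.U 2 ⊓ Y.U 3 from inf_comm _ _ |>.le)) Y.r23y
    have h' := congrArg (rO (show Y.U 3 ⊓ Y.U 2 ≤ Y.U 2 ⊓ Y.U 3 from inf_comm _ _ |>.le)) Y.r23e
    rw [map_mul, map_one, rO_rO, rO_rO] at h
    rw [map_mul, rO_rO, rO_rO, rO_rO] at h'
    rw [← h']
    linear_combination (rO inf_le_right (Y.e 2)) * h
  freew := Y.free_w1
  freez := Y.free_z1
  inj := rO_injective_of_basicOpen (Y.aff 3) (Y.y 3) (by rw [inf_comm]; exact Y.b32) _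
    (mul_eq_zero_of_free _ _ _ Y.free_w1)
  loc := exists_pow_mul_eq (Y.aff 3) (Y.y 3) (by rw [inf_comm]; exact Y.b32) _

/-! ## The intersection of the two halves -/

/-- the coordinate of the base, a unit over the intersection of the two halves -/
noncomputable def xw : (Γ(X, Y.U 1 ⊓ Y.U 3))ˣ where
  val := rO inf_le_left (Y.x 1)
  inv := rO inf_le_right (Y.x 3)
  val_inv := Y.r13x
  inv_val := by rw [mul_comm, Y.r13x]

/-- the coordinate of the base, a unit over the intersection of the two halves -/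
noncomputable def xz : (Γ(X, Y.U 0 ⊓ Y.U 2))ˣ where
  val := rO inf_le_left (Y.x 0)
  inv := rO inf_le_right (Y.x 2)
  val_inv := Y.r02x
  inv_val := by rw [mul_comm, Y.r02x]

/-- functions of the base on `w = 1`, `x t ≠ 0` -/
noncomputable def bw : A[T;T⁻¹] →+* Γ(X, Y.U 1 ⊓ Y.U 3) :=
  LaurentPolynomial.eval₂ (str π (Y.U 1 ⊓ Y.U 3)) Y.xw

/-- functions of the base on `z = 1`, `x t ≠ 0` -/
noncomputable def bz : A[T;T⁻¹] →+* Γ(X, Y.U 0 ⊓ Y.U 2) :=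
  LaurentPolynomial.eval₂ (str π (Y.U 0 ⊓ Y.U 2)) Y.xz

theorem aff13 : IsAffineOpen (Y.U 1 ⊓ Y.U 3) := by
  rw [Y.b13]
  exact (Y.aff 1).basicOpen _

theorem aff02 : IsAffineOpen (Y.U 0 ⊓ Y.U 2) := by
  rw [Y.b02]
  exact (Y.aff 0).basicOpen _

theorem le02 : Y.U 0 ⊓ Y.U 3 ≤ Y.U 2 := by
  rw [Y.b03, X.basicOpen_mul, ← Y.b02]
  exact inf_le_left.trans inf_le_right

theorem b0123 : Y.U 1 ⊓ Y.U 3 ⊓ (Y.U 0 ⊓ Y.U 2) =
    X.basicOpen (rO (inf_le_left : Y.U 1 ⊓ Y.U 3 ≤ Y.U 1) (Y.y 1)) := by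
  rw [basicOpen_rO, ← Y.b10]
  apply le_antisymm
  · exact le_inf inf_le_left (le_inf (inf_le_right.trans inf_le_left)
      (inf_le_left.trans inf_le_left))
  · refine le_inf inf_le_left (le_inf (inf_le_right.trans inf_le_left) ?_)
    exact (le_inf (inf_le_right.trans inf_le_left) (inf_le_left.trans inf_le_right)).trans Y.le02

theorem bw_C (r : A) : Y.bw (LaurentPolynomial.C r) = str π _ r := LaurentPolynomial.eval₂_C _ _ _

theorem bz_C (r : A) : Y.bz (LaurentPolynomial.C r) = str π _ r := LaurentPolynomial.eval₂_C _ _ _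

theorem bw_toLaurent (P : A[X]) : Y.bw (toLaurent P) = rO inf_le_left (Y.bs 1 P) := by
  rw [bw, LaurentPolynomial.eval₂_toLaurent, bs_apply, rO_eval₂]
  rfl

theorem bz_toLaurent (P : A[X]) : Y.bz (toLaurent P) = rO inf_le_left (Y.bs 0 P) := by
  rw [bz, LaurentPolynomial.eval₂_toLaurent, bs_apply, rO_eval₂]
  rfl

theorem rO13_injective : Function.Injective (rO (inf_le_left : Y.U 1 ⊓ Y.U 3 ≤ Y.U 1)) :=
  rO_injective_of_basicOpen (Y.aff 1) (Y.x 1) Y.b13 _ fun s hs =>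
    mul_X_eq_zero_of_free Y.free_w0 s (by
      rw [bs_apply, eval₂_X]
      exact hs)

theorem rO02_injective : Function.Injective (rO (inf_le_left : Y.U 0 ⊓ Y.U 2 ≤ Y.U 0)) :=
  rO_injective_of_basicOpen (Y.aff 0) (Y.x 0) Y.b02 _ fun s hs =>
    mul_X_eq_zero_of_free Y.free_z0 s (by
      rw [bs_apply, eval₂_X]
      exact hs)

theorem free_w01 : Function.Bijective fun P : A[T;T⁻¹][X] × A[T;T⁻¹][X] =>
    P.1.eval₂ Y.bw (rO inf_le_left (Y.y 1)) +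
      P.2.eval₂ Y.bw (rO inf_le_left (Y.y 1)) * (rO inf_le_left (Y.e 1)) :=
  free_laurent Y.bw_toLaurent Y.rO13_injective (fun c => by
    obtain ⟨n, b, hb⟩ := exists_pow_mul_eq (Y.aff 1) (Y.x 1) Y.b13 inf_le_left c
    refine ⟨n, b, ?_⟩
    rw [bs_apply, eval₂_X]
    exact hb) Y.free_w0

theorem free_z01 : Function.Bijective fun P : A[T;T⁻¹][X] × A[T;T⁻¹][X] =>
    P.1.eval₂ Y.bz (rO inf_le_left (Y.y 0)) +
      P.2.eval₂ Y.bz (rO inf_le_left (Y.y 0)) * (rO inf_le_left (Y.e 0)) :=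
  free_laurent Y.bz_toLaurent Y.rO02_injective (fun c => by
    obtain ⟨n, b, hb⟩ := exists_pow_mul_eq (Y.aff 0) (Y.x 0) Y.b02 inf_le_left c
    refine ⟨n, b, ?_⟩
    rw [bs_apply, eval₂_X]
    exact hb) Y.free_z0

/-- functions of the base on the intersection -/
theorem bw_eq_bz (s : A[T;T⁻¹]) :
    rO (inf_le_left : Y.U 1 ⊓ Y.U 3 ⊓ (Y.U 0 ⊓ Y.U 2) ≤ Y.U 1 ⊓ Y.U 3) (Y.bw s) =
      rO inf_le_right (Y.bz s) := by
  have h01 := congrArg (rO (show Y.U 1 ⊓ Y.U 3 ⊓ (Y.U 0 ⊓ Y.U 2) ≤ Y.U 0 ⊓ Y.U 1 from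
    le_inf (inf_le_right.trans inf_le_left) (inf_le_left.trans inf_le_left))) Y.r01x
  have h : (rO (inf_le_left : Y.U 1 ⊓ Y.U 3 ⊓ (Y.U 0 ⊓ Y.U 2) ≤ Y.U 1 ⊓ Y.U 3)).comp Y.bw =
      (rO inf_le_right).comp Y.bz := by
    apply IsLocalization.ringHom_ext (Submonoid.powers (Polynomial.X : A[X]))
    ext r
    · simp only [RingHom.comp_apply, LaurentPolynomial.algebraMap_eq_toLaurent, toLaurent_C,
        bw_C, bz_C, rO_str]
    · simp only [RingHom.comp_apply, LaurentPolynomial.algebraMap_eq_toLaurent, bw_toLaurent,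
        bz_toLaurent, bs_apply, eval₂_X, rO_rO]
      simpa only [rO_rO] using h01.symm
  exact congrArg (fun f => f s) h

/-- the conic over `x t ≠ 0` -/
noncomputable def K01 : Con A[T;T⁻¹]
    (rO (inf_le_left : Y.U 1 ⊓ Y.U 3 ⊓ (Y.U 0 ⊓ Y.U 2) ≤ Y.U 1 ⊓ Y.U 3))
    (rO (inf_le_right : Y.U 1 ⊓ Y.U 3 ⊓ (Y.U 0 ⊓ Y.U 2) ≤ Y.U 0 ⊓ Y.U 2)) where
  sw := Y.bw
  sz := Y.bz
  comm := Y.bw_eq_bz
  a := LaurentPolynomial.C a
  q := toLaurent (qx c)
  z := rO inf_le_left (Y.y 1)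
  y := rO inf_le_left (Y.e 1)
  w := rO inf_le_left (Y.y 0)
  v := rO inf_le_left (Y.e 0)
  yy := by
    have h := congrArg (rO (inf_le_left : Y.U 1 ⊓ Y.U 3 ≤ Y.U 1)) Y.sq1
    rw [bw_C, bw_toLaurent, bs_apply]
    simp only [map_mul, map_add, map_pow, rO_str] at h
    linear_combination h
  vv := by
    have h := congrArg (rO (inf_le_left : Y.U 0 ⊓ Y.U 2 ≤ Y.U 0)) Y.sq0
    rw [bz_C, bz_toLaurent, bs_apply]
    simp only [map_mul, map_add, map_pow, rO_str] at h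
    linear_combination h
  zw := by
    have h := congrArg (rO (show Y.U 1 ⊓ Y.U 3 ⊓ (Y.U 0 ⊓ Y.U 2) ≤ Y.U 0 ⊓ Y.U 1 from
      le_inf (inf_le_right.trans inf_le_left) (inf_le_left.trans inf_le_left))) Y.r01y
    rw [map_mul, map_one, rO_rO, rO_rO] at h
    rw [rO_rO, rO_rO]
    linear_combination h
  yw := by
    have h := congrArg (rO (show Y.U 1 ⊓ Y.U 3 ⊓ (Y.U 0 ⊓ Y.U 2) ≤ Y.U 0 ⊓ Y.U 1 from
      le_inf (inf_le_right.trans inf_le_left) (inf_le_left.trans inf_le_left))) Y.r01y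
    have h' := congrArg (rO (show Y.U 1 ⊓ Y.U 3 ⊓ (Y.U 0 ⊓ Y.U 2) ≤ Y.U 0 ⊓ Y.U 1 from
      le_inf (inf_le_right.trans inf_le_left) (inf_le_left.trans inf_le_left))) Y.r01e
    rw [map_mul, map_one, rO_rO, rO_rO] at h
    rw [map_mul, rO_rO, rO_rO, rO_rO] at h'
    rw [rO_rO, rO_rO, rO_rO, ← h']
    linear_combination (rO (inf_le_right.trans inf_le_left) (Y.e 0)) * h
  freew := Y.free_w01
  freez := Y.free_z01
  inj := rO_injective_of_basicOpen Y.aff13 _ Y.b0123 _ (mul_eq_zero_of_free _ _ _ Y.free_w01)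
  loc := exists_pow_mul_eq Y.aff13 _ Y.b0123 _

end XCharts

end Orl
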