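import Pool.Agent.Work.MP_a6e60d_ag.Conic.Src

/-!
MP_a6e60d_ag, conic lemma, 5: `Ext^p(j_!(A|W), B) = 0`, `p > 0`, for `A, B` of type `O` or `E`;
`Hom(j_!(E|W), O) = 0`; the global sections of the two types.
-/

set_option autoImplicit false

open CategoryTheory Limits TopologicalSpace AlgebraicGeometry Opposite Abelian

attribute [-instance] CategoryTheory.catToReflQuiver

universe w v u

namespace Orl.Cnc

open Fdim Fdim.Coh Fdim.Loc

variable {X : Scheme.{u}} {Uw Uz : X.Opens} {S : Type v} [CommRing S] {A B : X.Modules}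

/-! ### Target of rank one -/

section O

variable (K : Cone S Uw Uz) (F : FrO Uw Uz B)

include K F

theorem FrO.acyc (c : Γ(B, Uw ⊓ Uz)) : ∃ (α : Γ(B, Uw)) (β : Γ(B, Uz)),
    c = rs B inf_le_left α - rs B inf_le_right β := by
  obtain ⟨r, rfl⟩ := F.bo.2 c
  obtain ⟨α, β, rfl⟩ := K.ex0 r
  refine ⟨α • rs B le_sup_left F.u, β • rs B le_sup_right F.u, ?_⟩
  simp only [rs_smul, rs_rs, sub_smul]

theorem FrO.bijS : Function.Bijective fun s : S => K.sW s • F.u := by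
  constructor
  · intro s t h
    have h1 := congrArg (rs B le_sup_left) h
    simp only [rs_smul, K.rO_sW_left] at h1
    exact K.sw_inj (F.bw.1 h1)
  · intro b
    obtain ⟨α, hα⟩ := F.bw.2 (rs B le_sup_left b)
    obtain ⟨β, hβ⟩ := F.bz.2 (rs B le_sup_right b)
    simp only at hα hβ
    obtain ⟨s, rfl, rfl⟩ := K.eq0 (α := α) (β := β) (by
      apply F.bo.1
      simp only
      have h1 := congrArg (rs B (inf_le_left : Uw ⊓ Uz ≤ Uw)) hα
      have h2 := congrArg (rs B (inf_le_right : Uw ⊓ Uz ≤ Uz)) hβ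
      rw [rs_smul, rs_rs, rs_rs] at h1 h2
      exact h1.trans h2.symm)
    refine ⟨s, sec_ext2 B ?_ ?_⟩
    · rw [rs_smul, K.rO_sW_left, hα]
    · rw [rs_smul, K.rO_sW_right, hβ]

end O

section EO

variable {K : Cone S Uw Uz} (E : FrE K A) (hA : Good3 Uw Uz A) (F : FrO Uw Uz B)

include hA F E

/-- `Hom(j_!(E|W), O) = 0` -/
theorem FrE.hom_zero (φ : (supU A (Uw ⊔ Uz)).sh ⟶ B) : φ = 0 := by
  obtain ⟨a₁, h1⟩ := F.bw.2 (secHom le_sup_left φ (rs A (le_sup_left : Uw ≤ Uw ⊔ Uz) E.u))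
  obtain ⟨a₂, h2⟩ := F.bw.2 (secHom le_sup_left φ (rs A (le_sup_left : Uw ≤ Uw ⊔ Uz) E.i))
  obtain ⟨b₁, h3⟩ := F.bz.2 (secHom le_sup_right φ (rs A (le_sup_right : Uz ≤ Uw ⊔ Uz) E.u))
  obtain ⟨b₂, h4⟩ := F.bz.2 (secHom le_sup_right φ (rs A (le_sup_right : Uz ≤ Uw ⊔ Uz) E.j))
  simp only at h1 h2 h3 h4
  obtain ⟨s, rfl, rfl⟩ := K.eq0 (α := a₁) (β := b₁) (by
    apply F.bo.1
    simp only
    have e1 := congrArg (rs B (inf_le_left : Uw ⊓ Uz ≤ Uw)) h1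
    have e2 := congrArg (rs B (inf_le_right : Uw ⊓ Uz ≤ Uz)) h3
    rw [rs_smul, secHom_rs, rs_rs, rs_rs] at e1 e2
    exact e1.trans e2.symm)
  have h5 := E.hom_rel φ
  rw [← h2, ← h3, ← h4, smul_smul, smul_smul, ← sub_smul, rs_smul, rs_smul, rs_rs, rs_rs] at h5
  obtain ⟨rfl, rfl, h6⟩ := K.eq2 (α := a₂) (β := b₂) (s := -s) (by
    rw [map_neg, neg_mul, ← sub_eq_add_neg, mul_comm (K.sz s)]
    exact F.bo.1 h5)
  obtain rfl : s = 0 := neg_eq_zero.1 h6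
  rw [map_zero, zero_smul] at h1 h3
  rw [zero_smul] at h2 h4
  apply E.hom_ext_loc hA
  · rw [secHom_zero, ← h1]
    rfl
  · rw [secHom_zero, ← h2]
    rfl
  · rw [secHom_zero, ← h3]
    rfl
  · rw [secHom_zero, ← h4]
    rfl

theorem FrE.ext_O [HasExt.{w} X.Modules] [B.IsQuasicoherent]
    (x : Ext.{w} (supU A (Uw ⊔ Uz)).sh B 1) : x = 0 := by
  refine E.ext_one hA (fun c₁ c₂ => ?_) x
  obtain ⟨r₁, rfl⟩ := F.bo.2 c₁
  obtain ⟨r₂, rfl⟩ := F.bo.2 c₂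
  obtain ⟨a, b, rfl⟩ := K.ex0 r₁
  obtain ⟨α, β, s, h⟩ := K.ex2 (r₂ - rO inf_le_right K.v * rO inf_le_right b)
  refine ⟨(a - K.sw s) • rs B le_sup_left F.u, α • rs B le_sup_left F.u,
    (b - K.sz s) • rs B le_sup_right F.u, β • rs B le_sup_right F.u, ?_, ?_⟩
  · simp only [rs_smul, rs_rs, map_sub, K.comm, ← sub_smul]
    congr 1
    ring
  · simp only [smul_smul, ← sub_smul, rs_smul, rs_rs, map_sub, map_mul]
    congr 1
    rw [map_add, map_mul, map_mul] at h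
    linear_combination h

end EO

/-! ### Target of the type of `E` -/

section E

variable {K : Cone S Uw Uz} (F : FrE K B)

include F

/-- the kernel of `E → O` twisted by `O(-B)` is acyclic: existence -/
theorem FrE.exB (c : Γ(B, Uw ⊓ Uz)) : ∃ (α : Γ(B, Uw)) (β : Γ(B, Uz)),
    c = rs B inf_le_left α - rs B inf_le_right (K.w • β) := by
  obtain ⟨⟨c₁, c₂⟩, rfl⟩ := F.bo.2 c
  obtain ⟨a₂, b₂, rfl⟩ := K.ex0 c₂
  obtain ⟨a₁, b₁, s, h⟩ := K.ex2 (c₁ + rO inf_le_right K.v * rO inf_le_right b₂)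
  refine ⟨a₁ • rs B le_sup_left F.u + (a₂ + K.sw s) • rs B le_sup_left F.i,
    b₁ • rs B le_sup_right F.u + (b₂ + K.sz s) • rs B le_sup_right F.j, ?_⟩
  simp only [rs_smul, rs_rs, map_add, F.relo, K.comm]
  have hz := K.zw
  have hy := K.yw
  rw [map_add, map_mul, map_mul] at h
  match_scalars
  · linear_combination h + (rO inf_le_right b₂ + rO inf_le_right (K.sz s)) * hy
  · linear_combination (rO inf_le_right b₂ + rO inf_le_right (K.sz s)) * hz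

/-- uniqueness -/
theorem FrE.eqB {α : Γ(B, Uw)} {β : Γ(B, Uz)}
    (h : rs B inf_le_left α = rs B (inf_le_right : Uw ⊓ Uz ≤ Uz) (K.w • β)) : α = 0 ∧ β = 0 := by
  obtain ⟨⟨a₁, a₂⟩, rfl⟩ := F.bw.2 α
  obtain ⟨⟨b₁, b₂⟩, rfl⟩ := F.bz.2 β
  have hz := K.zw
  have hy := K.yw
  have h1 : (rO (inf_le_left : Uw ⊓ Uz ≤ Uw) a₁, rO (inf_le_left : Uw ⊓ Uz ≤ Uw) a₂) =
      ((rO (inf_le_right : Uw ⊓ Uz ≤ Uz) (K.w * b₁ + K.v * b₂),
        rO (inf_le_right : Uw ⊓ Uz ≤ Uz) b₂) : _ × _) := by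
    apply F.bo.1
    simp only [rs_smul, rs_rs, map_add, F.relo, map_mul] at h ⊢
    rw [h]
    match_scalars
    · linear_combination rO inf_le_right b₂ * hy
    · linear_combination rO inf_le_right b₂ * hz
  have h2 := congrArg Prod.fst h1
  have h3 := congrArg Prod.snd h1
  simp only at h2 h3
  obtain ⟨s, rfl, rfl⟩ := K.eq0 h3
  obtain ⟨rfl, rfl, rfl⟩ := K.eq2 (α := a₁) (β := b₁) (s := s) (by
    rw [h2]
    congr 1
    ring)
  simp

/-- `E` is acyclic -/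
theorem FrE.acyc (c : Γ(B, Uw ⊓ Uz)) : ∃ (α : Γ(B, Uw)) (β : Γ(B, Uz)),
    c = rs B inf_le_left α - rs B inf_le_right β := by
  obtain ⟨⟨c₁, c₂⟩, rfl⟩ := F.bo.2 c
  obtain ⟨a₂, b₂, rfl⟩ := K.ex1 c₂
  obtain ⟨a₁, b₁, h⟩ := K.ex0 (c₁ + rO inf_le_left K.y * rO inf_le_right b₂)
  refine ⟨a₁ • rs B le_sup_left F.u + a₂ • rs B le_sup_left F.i,
    b₁ • rs B le_sup_right F.u + b₂ • rs B le_sup_right F.j, ?_⟩
  simp only [rs_smul, rs_rs, map_add, F.relo]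
  match_scalars
  · linear_combination h
  · ring

end E

/-! ### The vanishing of `Ext` -/

section ext

variable [HasExt.{w} X.Modules] {K : Cone S Uw Uz} [B.IsQuasicoherent]

theorem FrE.ext_E (E : FrE K A) (hA : Good3 Uw Uz A) (F : FrE K B)
    (x : Ext.{w} (supU A (Uw ⊔ Uz)).sh B 1) : x = 0 := by
  refine E.ext_one hA (fun c₁ c₂ => ?_) x
  obtain ⟨α₁, β₁, h1⟩ := F.acyc c₁
  obtain ⟨α₂, β₂, h2⟩ := F.exB (c₂ - rs B inf_le_right (K.v • β₁))
  refine ⟨α₁, α₂, β₁, β₂, h1, ?_⟩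
  rw [map_sub, ← sub_add, ← h2, sub_add_cancel]

theorem FrO.ext_E (E : FrO Uw Uz A) (hA : Good3 Uw Uz A) (F : FrE K B)
    (x : Ext.{w} (supU A (Uw ⊔ Uz)).sh B 1) : x = 0 :=
  E.ext_one hA F.acyc x

theorem FrO.ext_O (K : Cone S Uw Uz) (E : FrO Uw Uz A) (hA : Good3 Uw Uz A) (F : FrO Uw Uz B)
    (x : Ext.{w} (supU A (Uw ⊔ Uz)).sh B 1) : x = 0 :=
  E.ext_one hA (F.acyc K) x

end ext

/-- a sheaf of one of the two types -/
inductive IsFr (K : Cone S Uw Uz) (A : X.Modules) : Prop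
  | O (F : FrO Uw Uz A) : IsFr K A
  | E (F : FrE K A) : IsFr K A

theorem IsFr.good {K : Cone S Uw Uz} [A.IsQuasicoherent] (h : IsFr K A) (hU : Aff Uw Uz) :
    Good3 Uw Uz A := by
  cases h with
  | O F => exact F.good hU
  | E F => exact F.good hU

/-- **the conic lemma**: `Ext^p(j_!(A|W), B) = 0` for `p > 0` -/
theorem IsFr.ext_eq_zero [HasExt.{w} X.Modules] {K : Cone S Uw Uz} [A.IsQuasicoherent]
    [B.IsQuasicoherent] (hA : IsFr K A) (hB : IsFr K B) (hU : Aff Uw Uz) (n : ℕ)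
    (x : Ext.{w} (supU A (Uw ⊔ Uz)).sh B (n + 1)) : x = 0 := by
  have h3 := hA.good hU
  obtain rfl | n := n
  · cases hA with
    | O E =>
      cases hB with
      | O F => exact E.ext_O K h3 F x
      | E F => exact E.ext_E h3 F x
    | E E =>
      cases hB with
      | O F => exact E.ext_O h3 F x
      | E F => exact E.ext_E h3 F x
  · exact h3.w.ext_two h3.z h3.o n x

end Orl.Cnc
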