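import Pool.Agent.Work.MP_a6e60d_ag.Conic.Lemma
import Pool.Agent.Work.MP_a6e60d_ag.Vb.TvOps

/-!
# MP_a6e60d_ag: sheaves of the types `FrO`, `FrE` from trivialisations

`K : Cone S Uw Uz`, `Uw ≤ U iw`, `Uz ≤ U iz`.  A module of rank one with the transition function
`1` from the chart `iz` to the chart `iw` is of the type `FrO Uw Uz`; a module of rank two with the
transition matrix `[[1, y], [0, z]]` is of the type `FrE K`.
-/

set_option autoImplicit false

open CategoryTheory Limits TopologicalSpace AlgebraicGeometry Opposite Matrix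

attribute [-instance] CategoryTheory.catToReflQuiver

universe v u

namespace Orl.Cnc

open Fdim Orl.Vb

noncomputable section

variable {X : Scheme.{u}} {ι : Type u} {U : ι → X.Opens} {Uw Uz : X.Opens} {A : X.Modules}

/-- a section of a module of rank one whose coordinate is `1` is a basis -/
theorem bij_of_co_one (a : Tv U A Unit) (i : ι) {V : X.Opens} (h : V ≤ U i) {s : Γ(A, V)}
    (hs : a.co i h s = fun _ => 1) : Function.Bijective fun c : Γ(X, V) => c • s := by
  have h1 : (fun c : Γ(X, V) => c • s) =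
      fun c => (a.co i h).symm (LinearEquiv.funUnique Unit Γ(X, V) Γ(X, V) |>.symm c) := by
    funext c
    apply (a.co i h).injective
    rw [LinearEquiv.apply_symm_apply, map_smul, hs]
    funext k
    simp
  rw [h1]
  exact (a.co i h).symm.bijective.comp (LinearEquiv.bijective _)

/-- sections of a module of rank two whose coordinates are the standard basis are a basis -/
theorem bij_of_co_two (a : Tv U A (Fin 2)) (i : ι) {V : X.Opens} (h : V ≤ U i) {s t : Γ(A, V)}
    (hs : a.co i h s = ![1, 0]) (ht : a.co i h t = ![0, 1]) :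
    Function.Bijective fun c : Γ(X, V) × Γ(X, V) => c.1 • s + c.2 • t := by
  have h1 : (fun c : Γ(X, V) × Γ(X, V) => c.1 • s + c.2 • t) =
      fun c => (a.co i h).symm ((LinearEquiv.finTwoArrow Γ(X, V) Γ(X, V)).symm c) := by
    funext c
    apply (a.co i h).injective
    rw [LinearEquiv.apply_symm_apply, map_add, map_smul, map_smul, hs, ht]
    funext k
    fin_cases k <;> simp
  rw [h1]
  exact (a.co i h).symm.bijective.comp (LinearEquiv.bijective _)

/-- two sections over `Uw ⊔ Uz` with the same coordinates are equal -/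
theorem ext_of_co {m : Type} (a : Tv U A m) {iw iz : ι} (hw : Uw ≤ U iw) (hz : Uz ≤ U iz)
    {s t : Γ(A, Uw ⊔ Uz)}
    (h1 : a.co iw hw (rs A le_sup_left s) = a.co iw hw (rs A le_sup_left t))
    (h2 : a.co iz hz (rs A le_sup_right s) = a.co iz hz (rs A le_sup_right t)) : s = t :=
  sec_ext2 A ((a.co iw hw).injective h1) ((a.co iz hz).injective h2)

/-- a section over `Uw ⊔ Uz` with given coordinates -/
theorem exists_of_co {m : Type} [Fintype m] (a : Tv U A m) {v : Tra U m} (hv : Trn a v) {iw iz : ι}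
    (hw : Uw ≤ U iw) (hz : Uz ≤ U iz) (c : m → Γ(X, Uw)) (d : m → Γ(X, Uz))
    (h : rV inf_le_left c =
      v iw iz (inf_le_left.trans hw) (inf_le_right.trans hz) *ᵥ rV (inf_le_right : Uw ⊓ Uz ≤ Uz) d) :
    ∃ s : Γ(A, Uw ⊔ Uz), a.co iw hw (rs A le_sup_left s) = c ∧
      a.co iz hz (rs A le_sup_right s) = d := by
  obtain ⟨s, h1, h2⟩ := exists_glue2 A ((a.co iw hw).symm c) ((a.co iz hz).symm d) (by
    apply (a.co iw (inf_le_left.trans hw)).injective
    rw [a.symm_rs, a.symm_rs, LinearEquiv.apply_symm_apply,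
      hv iw iz (inf_le_left.trans hw) (inf_le_right.trans hz), LinearEquiv.apply_symm_apply]
    exact h)
  exact ⟨s, by rw [h1, LinearEquiv.apply_symm_apply], by rw [h2, LinearEquiv.apply_symm_apply]⟩

/-! ### rank one -/

section O

variable (a : Tv U A Unit) {v : Tra U Unit} (hv : Trn a v) {iw iz : ι} (hw : Uw ≤ U iw)
  (hz : Uz ≤ U iz)
  (h : v iw iz (inf_le_left.trans hw : Uw ⊓ Uz ≤ U iw) (inf_le_right.trans hz) = 1)

include hv h in
theorem exists_uO : ∃ s : Γ(A, Uw ⊔ Uz), a.co iw hw (rs A le_sup_left s) = (fun _ => 1) ∧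
    a.co iz hz (rs A le_sup_right s) = (fun _ => 1) :=
  exists_of_co a hv hw hz _ _ (by
    rw [h, Matrix.one_mulVec]
    funext k
    simp [rV])

/-- a module of rank one with the transition function `1` -/
def FrO.ofTv : FrO Uw Uz A where
  u := (exists_uO a hv hw hz h).choose
  bw := bij_of_co_one a iw hw (exists_uO a hv hw hz h).choose_spec.1
  bz := bij_of_co_one a iz hz (exists_uO a hv hw hz h).choose_spec.2
  bo := bij_of_co_one a iw (inf_le_left.trans hw) (by
    have h1 := (exists_uO a hv hw hz h).choose_spec.1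
    have h2 := congrArg (rV (inf_le_left : Uw ⊓ Uz ≤ Uw)) h1
    rw [← a.co_rs' iw hw, rs_rs] at h2
    rw [h2]
    funext k
    simp [rV])

theorem FrO.ofTv_w : a.co iw hw (rs A le_sup_left (FrO.ofTv a hv hw hz h).u) = fun _ => 1 :=
  (exists_uO a hv hw hz h).choose_spec.1

theorem FrO.ofTv_z : a.co iz hz (rs A le_sup_right (FrO.ofTv a hv hw hz h).u) = fun _ => 1 :=
  (exists_uO a hv hw hz h).choose_spec.2

end O

/-! ### rank two -/

section E

variable {S : Type v} [CommRing S] (K : Cone S Uw Uz) (a : Tv U A (Fin 2)) {v : Tra U (Fin 2)}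
  (hv : Trn a v) {iw iz : ι} (hw : Uw ≤ U iw) (hz : Uz ≤ U iz)
  (h : v iw iz (inf_le_left.trans hw : Uw ⊓ Uz ≤ U iw) (inf_le_right.trans hz) =
    !![1, rO inf_le_left K.y; 0, rO inf_le_left K.z])

include hv h in
theorem exists_uE : ∃ s : Γ(A, Uw ⊔ Uz), a.co iw hw (rs A le_sup_left s) = ![1, 0] ∧
    a.co iz hz (rs A le_sup_right s) = ![1, 0] :=
  exists_of_co a hv hw hz _ _ (by
    rw [h]
    funext k
    fin_cases k <;> simp [rV, Matrix.mulVec, dotProduct, Fin.sum_univ_two])

include hv h in
theorem exists_iE : ∃ s : Γ(A, Uw ⊔ Uz), a.co iw hw (rs A le_sup_left s) = ![0, 1] ∧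
    a.co iz hz (rs A le_sup_right s) = ![-K.v, K.w] :=
  exists_of_co a hv hw hz _ _ (by
    rw [h]
    have hy := K.yw
    have hz := K.zw
    funext k
    fin_cases k
    · simp [rV, Matrix.mulVec, dotProduct, Fin.sum_univ_two, hy]
    · simp [rV, Matrix.mulVec, dotProduct, Fin.sum_univ_two, hz])

include hv h in
theorem exists_jE : ∃ s : Γ(A, Uw ⊔ Uz), a.co iw hw (rs A le_sup_left s) = ![K.y, K.z] ∧
    a.co iz hz (rs A le_sup_right s) = ![0, 1] :=
  exists_of_co a hv hw hz _ _ (by
    rw [h]
    funext k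
    fin_cases k <;> simp [rV, Matrix.mulVec, dotProduct, Fin.sum_univ_two])

/-- a module of rank two with the transition matrix of the bundle `E` -/
def FrE.ofTv : FrE K A where
  u := (exists_uE K a hv hw hz h).choose
  i := (exists_iE K a hv hw hz h).choose
  j := (exists_jE K a hv hw hz h).choose
  bw := bij_of_co_two a iw hw (exists_uE K a hv hw hz h).choose_spec.1
    (exists_iE K a hv hw hz h).choose_spec.1
  bz := bij_of_co_two a iz hz (exists_uE K a hv hw hz h).choose_spec.2
    (exists_jE K a hv hw hz h).choose_spec.2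
  bo := bij_of_co_two a iw (inf_le_left.trans hw) (by
      have h2 := congrArg (rV (inf_le_left : Uw ⊓ Uz ≤ Uw))
        (exists_uE K a hv hw hz h).choose_spec.1
      rw [← a.co_rs' iw hw, rs_rs] at h2
      rw [h2]
      funext k
      fin_cases k <;> simp [rV]) (by
      have h2 := congrArg (rV (inf_le_left : Uw ⊓ Uz ≤ Uw))
        (exists_iE K a hv hw hz h).choose_spec.1
      rw [← a.co_rs' iw hw, rs_rs] at h2
      rw [h2]
      funext k
      fin_cases k <;> simp [rV])
  rel := by
    apply (a.co iw hw).injective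
    rw [map_add, map_smul, map_smul, (exists_uE K a hv hw hz h).choose_spec.1,
      (exists_iE K a hv hw hz h).choose_spec.1, (exists_jE K a hv hw hz h).choose_spec.1]
    funext k
    fin_cases k <;> simp

theorem FrE.ofTv_u_w : a.co iw hw (rs A le_sup_left (FrE.ofTv K a hv hw hz h).u) = ![1, 0] :=
  (exists_uE K a hv hw hz h).choose_spec.1

theorem FrE.ofTv_u_z : a.co iz hz (rs A le_sup_right (FrE.ofTv K a hv hw hz h).u) = ![1, 0] :=
  (exists_uE K a hv hw hz h).choose_spec.2

theorem FrE.ofTv_i_w : a.co iw hw (rs A le_sup_left (FrE.ofTv K a hv hw hz h).i) = ![0, 1] :=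
  (exists_iE K a hv hw hz h).choose_spec.1

theorem FrE.ofTv_i_z :
    a.co iz hz (rs A le_sup_right (FrE.ofTv K a hv hw hz h).i) = ![-K.v, K.w] :=
  (exists_iE K a hv hw hz h).choose_spec.2

theorem FrE.ofTv_j_w :
    a.co iw hw (rs A le_sup_left (FrE.ofTv K a hv hw hz h).j) = ![K.y, K.z] :=
  (exists_jE K a hv hw hz h).choose_spec.1

theorem FrE.ofTv_j_z : a.co iz hz (rs A le_sup_right (FrE.ofTv K a hv hw hz h).j) = ![0, 1] :=
  (exists_jE K a hv hw hz h).choose_spec.2

end E

end

end Orl.Cnc
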