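import Pool.Agent.Work.MP_a6e60d_ag.Conic.FrData
import Pool.Agent.Work.MP_a6e60d_ag.Br.GData

/-!
# The morphisms between the restrictions of `O(j)` and `E(j)`: the quaternion order

`FrData.gdata`: the interface `GData` of `Br/` for the surface.
-/

open CategoryTheory Limits TopologicalSpace AlgebraicGeometry Opposite Polynomial Quaternion

open scoped LaurentPolynomial

attribute [-instance] CategoryTheory.catToReflQuiver

namespace Orl

open Fdim Cnc Q Br

namespace XCharts.FrData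

variable {k : Type} [Field k] {a : k} {cc : Fin 5 → k} {X : Scheme.{0}} [X.Over (Spec (.of k))]
  {Y : XCharts (.of k) a cc (X ↘ Spec (.of k))} {δ : Dat k} (ha : δ.a = a)
  (hq : δ.q = toLaurent (qx cc)) {c : Bool → ℤ → X.Modules} (f : Y.FrData c)

include f in
theorem goodO (j : ℤ) (v : Ch) : Good3 (Y.Uw v) (Y.Uz v) (c false j) :=
  have := f.qc false j
  (f.fO j v).good (Y.affW v)

include f in
theorem goodE (j : ℤ) (v : Ch) : Good3 (Y.Uw v) (Y.Uz v) (c true j) :=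
  have := f.qc true j
  (f.fE j v).good (Y.affW v)

theorem secHom_ksmul {W U : X.Opens} (h : U ≤ W) {A B : X.Modules} (r : k)
    (φ : (supU A W).sh ⟶ B) (s : Γ(A, U)) :
    secHom h (r • φ) s = str (X ↘ Spec (.of k)) U r • secHom h φ s :=
  ap_linear r φ U _

/-! ### Coordinates -/

section co

variable {v : Ch} {n : ℤ}

variable (Y) in
/-- the coordinate of a section of `O(n)` -/
noncomputable def co {x : δ.D} (hx : x ∈ δ.slat v n) : Sv k v :=
  ((Y.chQ ha hq v).exists_of_slat hx).choose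

theorem of_co {x : δ.D} (hx : x ∈ δ.slat v n) : (Y.chQ ha hq v).of n
    (co Y ha hq hx : ℍ[Sv k v, (Y.chQ ha hq v).a, 0, (Y.chQ ha hq v).q]) = x :=
  ((Y.chQ ha hq v).exists_of_slat hx).choose_spec

theorem co_eq {x : δ.D} (hx : x ∈ δ.slat v n) {s : Sv k v} (h : (Y.chQ ha hq v).of n
    (s : ℍ[Sv k v, (Y.chQ ha hq v).a, 0, (Y.chQ ha hq v).q]) = x) : co Y ha hq hx = s :=
  (Y.chQ ha hq v).of_coe_injective n ((of_co ha hq hx).trans h.symm)

theorem co_re {x : δ.D} (hx : x ∈ δ.slat v n) :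
    LaurentPolynomial.T (v.tw n) * sv k v (co Y ha hq hx) = x.re := by
  conv_rhs => rw [← of_co (Y := Y) ha hq hx]
  rfl

theorem co_eq' {x : δ.D} (hx : x ∈ δ.slat v n) {s : Sv k v}
    (h : LaurentPolynomial.T (v.tw n) * sv k v s = x.re) : co Y ha hq hx = s :=
  sv_injective v (ChQ.T_mul_inj ((co_re ha hq hx).trans h.symm))

variable (Y) in
/-- the coordinates of the conjugate of a section of the order -/
noncomputable def ts {x : δ.D} (hx : x ∈ δ.clat v n) :
    ℍ[Sv k v, (Y.K v).a, 0, (Y.K v).q] := (Y.chQ ha hq v).tau ((Y.chQ ha hq v).star_mem hx)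

theorem of_ts {x : δ.D} (hx : x ∈ δ.clat v n) :
    (Y.chQ ha hq v).of n (ts Y ha hq hx) = star x :=
  (Y.chQ ha hq v).of_tau _

theorem ts_eq {x : δ.D} (hx : x ∈ δ.clat v n) {d : ℍ[Sv k v, (Y.K v).a, 0, (Y.K v).q]}
    (h : (Y.chQ ha hq v).of n d = star x) : ts Y ha hq hx = d :=
  (Y.chQ ha hq v).of_injective n ((of_ts ha hq hx).trans h.symm)

theorem co_add {x y : δ.D} (hx : x ∈ δ.slat v n) (hy : y ∈ δ.slat v n)
    (hxy : x + y ∈ δ.slat v n) : co Y ha hq hxy = co Y ha hq hx + co Y ha hq hy := by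
  apply co_eq'
  rw [map_add, mul_add, co_re, co_re]
  rfl

theorem co_smul (r : k) {x : δ.D} (hx : x ∈ δ.slat v n) (hx' : r • x ∈ δ.slat v n) :
    co Y ha hq hx' = cst k v r * co Y ha hq hx := by
  apply co_eq'
  rw [map_mul, mul_left_comm, co_re, sv_cst, QuaternionAlgebra.re_smul,
    LaurentPolynomial.smul_eq_C_mul]

theorem co_mul {x y : δ.D} (hx : x ∈ δ.slat v 0) (hy : y ∈ δ.slat v n)
    (hxy : x * y ∈ δ.slat v n) :
    co Y ha hq hxy = co Y ha hq hx * co Y ha hq hy := by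
  apply co_eq'
  have h := co_re (Y := Y) ha hq hx
  rw [Ch.tw_zero, LaurentPolynomial.T_zero, one_mul] at h
  rw [map_mul, mul_left_comm, co_re, h, QuaternionAlgebra.re_mul, hx.2.1, hx.2.2.1, hx.2.2.2]
  simp

theorem co_one (h : (1 : δ.D) ∈ δ.slat v 0) : co Y ha hq h = 1 := by
  apply co_eq'
  rw [map_one, Ch.tw_zero, LaurentPolynomial.T_zero, one_mul]
  rfl

theorem ts_add {x y : δ.D} (hx : x ∈ δ.clat v n) (hy : y ∈ δ.clat v n)
    (hxy : x + y ∈ δ.clat v n) : ts Y ha hq hxy = ts Y ha hq hx + ts Y ha hq hy := by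
  apply ts_eq
  rw [ChQ.of_add, of_ts, of_ts, star_add]

theorem ts_smul (r : k) {x : δ.D} (hx : x ∈ δ.clat v n) (hx' : r • x ∈ δ.clat v n) :
    ts Y ha hq hx' = cst k v r • ts Y ha hq hx := by
  apply ts_eq
  have h := (Y.chQ ha hq v).of_smul n (cst k v r) (ts Y ha hq hx)
  rw [h, of_ts]
  change sv k v (cst k v r) • star x = _
  rw [sv_cst, ChQ.C_smul]
  ext <;> simp

theorem ts_mul {x y : δ.D} (hx : x ∈ δ.clat v 0) (hy : y ∈ δ.clat v n)
    (hxy : x * y ∈ δ.clat v n) :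
    ts Y ha hq hxy = ts Y ha hq hy * ts Y ha hq hx := by
  apply ts_eq
  have h := (Y.chQ ha hq v).of_mul n 0 (ts Y ha hq hy) (ts Y ha hq hx)
  rw [add_zero] at h
  rw [← h, of_ts, of_ts, star_mul]

theorem ts_one (h : (1 : δ.D) ∈ δ.clat v 0) : ts Y ha hq h = 1 := by
  apply ts_eq
  rw [ChQ.of_one, star_one]

/-- the product of a function and a section of the order -/
theorem ts_scal {x y : δ.D} (hx : x ∈ δ.slat v 0) (hy : y ∈ δ.clat v n)
    (hxy : x * y ∈ δ.clat v n) : ts Y ha hq hxy = co Y ha hq hx • ts Y ha hq hy := by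
  apply ts_eq
  have h := (Y.chQ ha hq v).of_smul n (co Y ha hq hx) (ts Y ha hq hy)
  rw [h, of_ts]
  change sv k v (co Y ha hq hx) • star y = _
  have h1 := co_re (Y := Y) ha hq hx
  rw [Ch.tw_zero, LaurentPolynomial.T_zero, one_mul] at h1
  rw [h1, star_mul]
  obtain ⟨-, h2, h3, h4⟩ := hx
  ext <;> simp [h2, h3, h4, mul_comm]

end co

/-! ### The morphisms -/

section gen

variable (v : Ch) (n : ℤ)

/-- the morphisms from `O` to `O(n)` -/
noncomputable def gOO : δ.slat v n →ₗ[k] (js (Y.Uw v ⊔ Y.Uz v) (c false 0) ⟶ c false n) where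
  toFun x := (f.fO 0 v).smap (Y.K v) (f.goodO 0 v) (f.fO n v) (co Y ha hq x.2)
  map_add' x y := by
    symm
    apply (f.fO 0 v).eq_smap (Y.K v) (f.goodO 0 v)
    rw [secHom_add, LinearMap.add_apply, FrO.smap_u, FrO.smap_u, ← add_smul, ← map_add,
      ← co_add ha hq x.2 y.2 (x + y).2]
  map_smul' r x := by
    symm
    apply (f.fO 0 v).eq_smap (Y.K v) (f.goodO 0 v)
    rw [RingHom.id_apply, secHom_ksmul, FrO.smap_u, smul_smul, ← Y.K_sW_cst, ← map_mul,
      ← co_smul ha hq r x.2 (r • x).2]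

/-- the morphisms from `O` to `E(n)` -/
noncomputable def gOE : δ.clat v n →ₗ[k] (js (Y.Uw v ⊔ Y.Uz v) (c false 0) ⟶ c true n) where
  toFun x := (f.fO 0 v).jmap (f.goodO 0 v) (f.fE n v) (ts Y ha hq x.2)
  map_add' x y := by
    rw [← FrO.jmap_add, ← ts_add ha hq x.2 y.2 (x + y).2]
  map_smul' r x := by
    symm
    apply (f.fO 0 v).eq_jmap (f.goodO 0 v)
    rw [RingHom.id_apply, secHom_ksmul, FrO.jmap_u, ← Y.K_sW_cst, ← FrE.qv_smul,
      ← ts_smul ha hq r x.2 (r • x).2]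

/-- the morphisms from `E` to `E(n)` -/
noncomputable def gEE : δ.clat v n →ₗ[k] (js (Y.Uw v ⊔ Y.Uz v) (c true 0) ⟶ c true n) where
  toFun x := (f.fE 0 v).act (f.goodE 0 v) (f.fE n v) (ts Y ha hq x.2)
  map_add' x y := by
    rw [← FrE.act_add, ← ts_add ha hq x.2 y.2 (x + y).2]
  map_smul' r x := by
    symm
    apply (f.fE 0 v).eq_act (f.goodE 0 v)
    rw [RingHom.id_apply, secHom_ksmul, FrE.act_u, ← Y.K_sW_cst, ← FrE.qv_smul,
      ← ts_smul ha hq r x.2 (r • x).2]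

theorem gOO_bij : Function.Bijective (gOO ha hq f v n) := by
  refine ((f.fO 0 v).smap_bijective (Y.K v) (f.goodO 0 v) (f.fO n v)).comp ⟨?_, ?_⟩
  · intro x y h
    apply Subtype.ext
    rw [← of_co (Y := Y) ha hq x.2, ← of_co (Y := Y) ha hq y.2]
    exact congrArg (fun s : Sv k v => (Y.chQ ha hq v).of n
      (s : ℍ[Sv k v, (Y.chQ ha hq v).a, 0, (Y.chQ ha hq v).q])) h
  · intro s
    exact ⟨⟨_, (Y.chQ ha hq v).of_coe_mem_slat n s⟩, co_eq ha hq _ rfl⟩

theorem ts_bij : Function.Bijective fun x : δ.clat v n => ts Y ha hq x.2 := by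
  constructor
  · intro x y h
    apply Subtype.ext
    apply star_injective
    rw [← of_ts (Y := Y) ha hq x.2, ← of_ts (Y := Y) ha hq y.2]
    exact congrArg ((Y.chQ ha hq v).of n) h
  · intro d
    refine ⟨⟨star ((Y.chQ ha hq v).of n d), (Y.chQ ha hq v).star_mem
      ((Y.chQ ha hq v).of_mem n d)⟩, ts_eq ha hq _ ?_⟩
    rw [star_star]

theorem gOE_bij : Function.Bijective (gOE ha hq f v n) :=
  ((f.fO 0 v).jmap_bijective (f.goodO 0 v) (f.fE n v)).comp (ts_bij ha hq v n)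

theorem gEE_bij : Function.Bijective (gEE ha hq f v n) :=
  ((f.fE 0 v).act_bijective (f.goodE 0 v) (f.fE n v)).comp (ts_bij ha hq v n)

theorem fac_eq_lf {W : X.Opens} {A B : X.Modules} (φ : (supU A W).sh ⟶ B) : fac φ = lf φ := rfl

end gen

/-! ### The interface -/

/-- the morphisms given by the elements of the lattices -/
noncomputable def gen : ∀ (b' b : Bool) (v : Ch) (n : ℤ),
    δ.lt b' b v n →ₗ[k] (js (Y.W v) (c b' 0) ⟶ c b n)
  | false, false, v, n => gOO ha hq f v n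
  | false, true, v, n => gOE ha hq f v n
  | true, true, v, n => gEE ha hq f v n
  | true, false, _, _ => 0

theorem gen_bij (b' b : Bool) (v : Ch) (n : ℤ) : Function.Bijective (gen ha hq f b' b v n) := by
  cases b' <;> cases b
  · exact gOO_bij ha hq f v n
  · exact gOE_bij ha hq f v n
  · refine ⟨fun x y _ => Subtype.ext ?_, fun φ => ⟨0, ?_⟩⟩
    · rw [(Submodule.mem_bot k).1 x.2, (Submodule.mem_bot k).1 y.2]
    · exact ((f.fE 0 v).hom_zero (f.goodE 0 v) (f.fO n v) φ).symm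
  · exact gEE_bij ha hq f v n

theorem gen_one (b : Bool) (v : Ch) :
    gen ha hq f b b v 0 ⟨1, Dat.one_mem_lt b v⟩ = jsI (Y.W v) (c b 0) := by
  cases b
  · have h := (f.fO 0 v).smap_one (Y.K v) (f.goodO 0 v)
    rw [← co_one (Y := Y) ha hq (Dat.one_mem_slat v)] at h
    exact h
  · have h := (f.fE 0 v).act_one (f.goodE 0 v)
    rw [← ts_one (Y := Y) ha hq (Dat.slat_le (Dat.one_mem_slat v))] at h
    exact h

theorem gen_zero {b' b : Bool} {v : Ch} {n : ℤ} {x : δ.lt b' b v n} (h : x.1 = 0) :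
    gen ha hq f b' b v n x = 0 := by
  have : x = 0 := Subtype.ext h
  rw [this, map_zero]

theorem gen_comp {b₁ b₂ b₃ : Bool} {v : Ch} {n : ℤ} (x : δ.lt b₁ b₂ v 0) (y : δ.lt b₂ b₃ v n) :
    fac (gen ha hq f b₁ b₂ v 0 x) ≫ gen ha hq f b₂ b₃ v n y =
      gen ha hq f b₁ b₃ v n ⟨x.1 * y.1, Dat.lt_mul' x.2 y.2⟩ := by
  have hf0 : ∀ {A B : X.Modules}, fac (0 : js (Y.W v) A ⟶ B) = 0 := by
    intro A B
    exact (fac_unique (by rw [Limits.zero_comp])).symm
  cases b₁ <;> cases b₂ <;> cases b₃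
  · have h := (f.fO 0 v).smap_comp (Y.K v) (f.goodO 0 v) (f.fO 0 v) (f.goodO 0 v) (f.fO n v)
      (co Y ha hq x.2) (co Y ha hq y.2)
    rw [← co_mul ha hq x.2 y.2 (Dat.lt_mul' x.2 y.2)] at h
    exact h
  · have h := (f.fO 0 v).smap_jmap (f.goodO 0 v) (f.fO 0 v) (f.goodO 0 v) (f.fE n v)
      (co Y ha hq x.2) (ts Y ha hq y.2)
    rw [← ts_scal ha hq x.2 y.2 (Dat.lt_mul' x.2 y.2)] at h
    exact h
  · have hy := (Submodule.mem_bot k).1 y.2
    rw [gen_zero ha hq f hy, Limits.comp_zero, gen_zero ha hq f (by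
      change x.1 * y.1 = 0
      rw [hy, mul_zero])]
  · have h := (f.fO 0 v).jmap_comp (f.goodO 0 v) (f.fE 0 v) (f.goodE 0 v) (f.fE n v)
      (ts Y ha hq x.2) (ts Y ha hq y.2)
    rw [← ts_mul ha hq x.2 y.2 (Dat.lt_mul' x.2 y.2)] at h
    exact h
  · have hx := (Submodule.mem_bot k).1 x.2
    rw [gen_zero ha hq f hx, hf0, Limits.zero_comp, gen_zero ha hq f (by
      change x.1 * y.1 = 0
      rw [hx, zero_mul])]
  · have hx := (Submodule.mem_bot k).1 x.2
    rw [gen_zero ha hq f hx, hf0, Limits.zero_comp, gen_zero ha hq f (by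
      change x.1 * y.1 = 0
      rw [hx, zero_mul])]
  · have hy := (Submodule.mem_bot k).1 y.2
    rw [gen_zero ha hq f hy, Limits.comp_zero, gen_zero ha hq f (by
      change x.1 * y.1 = 0
      rw [hy, mul_zero])]
  · have h := (f.fE 0 v).act_comp (f.goodE 0 v) (f.fE 0 v) (f.goodE 0 v) (f.fE n v)
      (ts Y ha hq x.2) (ts Y ha hq y.2)
    rw [← ts_mul ha hq x.2 y.2 (Dat.lt_mul' x.2 y.2)] at h
    exact h

theorem co_mid {n : ℤ} {x : δ.D} (hx : x ∈ δ.slat .mid n) :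
    co Y ha hq hx = (x.re : k[T;T⁻¹]) := by
  apply co_eq'
  change LaurentPolynomial.T 0 * x.re = x.re
  rw [LaurentPolynomial.T_zero, one_mul]

include f in
theorem rs_fO_u (v : Ch) : rs (c false 0) (Y.WW_mono (Ch.le_mid v)) (f.fO 0 v).u =
    (f.fO 0 .mid).u := by
  rw [f.resO, Ch.tw_zero, LaurentPolynomial.T_zero, map_one, one_smul]

include f in
theorem rs_fE_u (v : Ch) : rs (c true 0) (Y.WW_mono (Ch.le_mid v)) (f.fE 0 v).u =
    (f.fE 0 .mid).u := by
  rw [f.resu, Ch.tw_zero, LaurentPolynomial.T_zero, map_one, one_smul]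

theorem gen_res {b' b : Bool} {v w : Ch} (h : v ≤ w) {n : ℤ} (x : δ.lt b' b v n) :
    jsIncl (Y.W_mono h) (c b' 0) ≫ gen ha hq f b' b v n x =
      gen ha hq f b' b w n ⟨x.1, Dat.lt_mono h x.2⟩ := by
  rcases h with rfl | rfl
  · rw [jsIncl_self, Category.id_comp]
  cases b' <;> cases b
  · refine (f.fO 0 v).smap_res (K := Y.K v) (K' := Y.K .mid) (Y.WW_mono (Ch.le_mid v))
      (f.goodO 0 v) (f.fO n v) (f.fO 0 .mid) (f.goodO 0 .mid) (f.fO n .mid) (f.rs_fO_u v)
      (co Y ha hq x.2) (co Y ha hq (Dat.slat_mono (Ch.le_mid v) x.2)) ?_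
    rw [f.rs_fO, co_re, co_mid ha hq]
    rfl
  · refine (f.fO 0 v).jmap_res (K := Y.K v) (K' := Y.K .mid) (Y.WW_mono (Ch.le_mid v))
      (f.goodO 0 v) (f.fE n v) (f.fO 0 .mid) (f.goodO 0 .mid) (f.fE n .mid) (f.rs_fO_u v)
      (ts Y ha hq x.2) (ts Y ha hq (Dat.clat_mono (Ch.le_mid v) x.2)) ?_
    exact f.rs_fE ha hq n v _ _ (by rw [of_ts, of_ts])
  · have hx := (Submodule.mem_bot k).1 x.2
    rw [gen_zero ha hq f (x := x) hx, Limits.comp_zero]
    exact (gen_zero ha hq f (x := ⟨x.1, Dat.lt_mono (Ch.le_mid v) x.2⟩) hx).symm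
  · refine (f.fE 0 v).act_res (K := Y.K v) (K' := Y.K .mid) (Y.WW_mono (Ch.le_mid v))
      (f.goodE 0 v) (f.fE n v) (f.fE 0 .mid) (f.goodE 0 .mid) (f.fE n .mid) (f.rs_fE_u v)
      (ts Y ha hq x.2) (ts Y ha hq (Dat.clat_mono (Ch.le_mid v) x.2)) ?_
    exact f.rs_fE ha hq n v _ _ (by rw [of_ts, of_ts])

/-- the local morphisms between the bundles on the surface, in terms of the quaternion order -/
noncomputable def gdata : GData δ Y.W (fun h => Y.W_mono h) c where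
  gen := gen ha hq f
  bij := gen_bij ha hq f
  one := gen_one ha hq f
  comp := gen_comp ha hq f
  res := gen_res ha hq f

end XCharts.FrData

end Orl
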