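import Pool.Agent.Work.MP_a6e60d_ag.Conic.QInst

/-!
# The frames of `O(n)` and `E(n)` give isomorphisms of the restrictions
-/

open CategoryTheory Limits TopologicalSpace AlgebraicGeometry Opposite Polynomial Quaternion

open scoped LaurentPolynomial

attribute [-instance] CategoryTheory.catToReflQuiver

namespace Orl

open Fdim Cnc Q Br

namespace XCharts.FrData

variable {k : Type} [Field k] {a : k} {cc : Fin 5 → k} {X : Scheme.{0}} [X.Over (Spec (.of k))]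
  {Y : XCharts (.of k) a cc (X ↘ Spec (.of k))} {δ : Dat k} (ha : δ.a = a)
  (hq : δ.q = toLaurent (qx cc)) {c : Bool → ℤ → X.Modules} (f : Y.FrData c)

theorem sc_mem_slat (δ : Dat k) (v : Ch) (n : ℤ) :
    (Fac.sc (LaurentPolynomial.T (v.tw n)) : δ.D) ∈ δ.slat v n := by
  refine ⟨?_, rfl, rfl, rfl⟩
  have := T_sv_mem_lat (k := k) (v := v) n 1
  rwa [map_one, mul_one] at this

theorem sc_mem_lt (δ : Dat k) (b : Bool) (v : Ch) (n : ℤ) :
    (Fac.sc (LaurentPolynomial.T (v.tw n)) : δ.D) ∈ δ.lt b b v n := by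
  cases b
  · exact sc_mem_slat δ v n
  · exact Dat.slat_le (sc_mem_slat δ v n)

theorem co_sc (v : Ch) (n : ℤ) : co Y ha hq (sc_mem_slat δ v n) = 1 := by
  apply co_eq'
  rw [map_one, mul_one]
  rfl

theorem ts_sc (v : Ch) (n : ℤ) : ts Y ha hq (Dat.slat_le (sc_mem_slat δ v n)) = 1 := by
  apply ts_eq
  apply QuaternionAlgebra.ext <;> simp [Fac.sc]

theorem gen_sc_O (v : Ch) (n : ℤ) :
    gen ha hq f false false v n ⟨Fac.sc (LaurentPolynomial.T (v.tw n)), sc_mem_lt δ false v n⟩ =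
      (f.fO 0 v).smap (Y.K v) (f.goodO 0 v) (f.fO n v) 1 := by
  rw [← co_sc (Y := Y) ha hq v n]
  rfl

theorem gen_sc_E (v : Ch) (n : ℤ) :
    gen ha hq f true true v n ⟨Fac.sc (LaurentPolynomial.T (v.tw n)), sc_mem_lt δ true v n⟩ =
      (f.fE 0 v).act (f.goodE 0 v) (f.fE n v) 1 := by
  rw [← ts_sc (Y := Y) ha hq v n]
  rfl

theorem isIso_lf_of_inv {W : X.Opens} {A B : X.Modules} {φ : (supU A W).sh ⟶ B}
    {ψ : (supU B W).sh ⟶ A} (h1 : lf φ ≫ ψ = (supU A W).ι) (h2 : lf ψ ≫ φ = (supU B W).ι) :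
    IsIso (lf φ) := by
  refine ⟨lf ψ, ?_, ?_⟩
  · rw [← cancel_mono (supU A W).ι, Category.assoc, lf_ι, h1, Category.id_comp]
  · rw [← cancel_mono (supU B W).ι, Category.assoc, lf_ι, h2, Category.id_comp]

/-- the frames give isomorphisms -/
theorem isIso_gen (b : Bool) (v : Ch) (n : ℤ) :
    IsIso (fac (gen ha hq f b b v n
      ⟨Fac.sc (LaurentPolynomial.T (v.tw n)), sc_mem_lt δ b v n⟩)) := by
  cases b
  · rw [gen_sc_O]
    have h := (f.fO 0 v).smap_comp (Y.K v) (f.goodO 0 v) (f.fO n v) (f.goodO n v) (f.fO 0 v) 1 1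
    have h' := (f.fO n v).smap_comp (Y.K v) (f.goodO n v) (f.fO 0 v) (f.goodO 0 v) (f.fO n v) 1 1
    rw [one_mul, FrO.smap_one] at h h'
    exact isIso_lf_of_inv h h'
  · rw [gen_sc_E]
    have h := (f.fE 0 v).act_comp (f.goodE 0 v) (f.fE n v) (f.goodE n v) (f.fE 0 v) 1 1
    have h' := (f.fE n v).act_comp (f.goodE n v) (f.fE 0 v) (f.goodE 0 v) (f.fE n v) 1 1
    rw [one_mul, FrE.act_one] at h h'
    exact isIso_lf_of_inv h h'

end XCharts.FrData

end Orl
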