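import Pool.Agent.Work.MP_a6e60d_ag.Conic.Fr

/-!
MP_a6e60d_ag, conic lemma, 4: morphisms and `Ext^1` from `j_!(A|W)`, in terms of the values on the
frames.
-/

set_option autoImplicit false

open CategoryTheory Limits TopologicalSpace AlgebraicGeometry Opposite Abelian

attribute [-instance] CategoryTheory.catToReflQuiver

universe w v u

namespace Orl.Cnc

open Fdim Fdim.Coh Fdim.Loc

variable {X : Scheme.{u}} {Uw Uz : X.Opens} {S : Type v} [CommRing S] {A B : X.Modules}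

theorem secHom_homOf_rs {U V : X.Opens} (hU : Good A U) (h : V ≤ U)
    (α : Γ(A, U) →ₗ[Γ(X, U)] Γ(B, U)) (s : Γ(A, U)) :
    secHom h (hU.homOf α) (rs A h s) = rs B h (α s) := by
  have h1 := secHom_rs (le_refl U) h (hU.homOf α) s
  rw [hU.secHom_homOf] at h1
  exact h1.symm

theorem homOf_rs {U V W : X.Opens} (hU : Good A U) (h : V ≤ U) (h' : U ≤ W)
    (α : Γ(A, U) →ₗ[Γ(X, U)] Γ(B, U)) (s : Γ(A, W)) :
    secHom h (hU.homOf α) (rs A (h.trans h') s) = rs B h (α (rs A h' s)) := by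
  rw [← rs_rs A h' h, secHom_homOf_rs]

theorem secHom_eq_rs {V W : X.Opens} (h : V ≤ W) {φ ψ : (supU A W).sh ⟶ B} {s : Γ(A, W)}
    (hs : secHom le_rfl φ s = secHom le_rfl ψ s) :
    secHom h φ (rs A h s) = secHom h ψ (rs A h s) :=
  (secHom_rs le_rfl h φ s).symm.trans ((congrArg (rs B h) hs).trans (secHom_rs le_rfl h ψ s))

theorem secHom_rs_le {V W : X.Opens} (h : V ≤ W) (φ : (supU A W).sh ⟶ B) (s : Γ(A, W)) :
    secHom h φ (rs A h s) = rs B h (secHom le_rfl φ s) :=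
  (secHom_rs le_rfl h φ s).symm

/-! ### Rank one -/

section O

variable (F : FrO Uw Uz A) (hA : Good3 Uw Uz A)

include hA

theorem FrO.hom_ext {φ ψ : (supU A (Uw ⊔ Uz)).sh ⟶ B}
    (h : secHom le_rfl φ F.u = secHom le_rfl ψ F.u) : φ = ψ := by
  apply hA.w.sup_ext hA.z
  · apply lin1_ext F.bw
    exact secHom_eq_rs le_sup_left h
  · apply lin1_ext F.bz
    exact secHom_eq_rs le_sup_right h

theorem FrO.exists_hom (b : Γ(B, Uw ⊔ Uz)) :
    ∃ φ : (supU A (Uw ⊔ Uz)).sh ⟶ B, secHom le_rfl φ F.u = b := by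
  obtain ⟨φ, h1, h2⟩ := hA.w.exists_sup hA.z hA.o (lin1 F.bw (rs B le_sup_left b))
    (lin1 F.bz (rs B le_sup_right b)) (lin1 F.bo (rs B (inf_le_left.trans le_sup_left) b))
    (lin1_ext F.bo (by
      rw [homOf_rs hA.w inf_le_left le_sup_left, lin1_apply, rs_rs, lin1_apply]))
    (lin1_ext F.bo (by
      rw [homOf_rs hA.z inf_le_right le_sup_right, lin1_apply, rs_rs, lin1_apply]))
  refine ⟨φ, sec_ext2 B ?_ ?_⟩
  · rw [secHom_rs, h1, lin1_apply]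
  · rw [secHom_rs, h2, lin1_apply]

include F in
theorem FrO.ext_one [HasExt.{w} X.Modules] [B.IsQuasicoherent]
    (h : ∀ c : Γ(B, Uw ⊓ Uz), ∃ (α : Γ(B, Uw)) (β : Γ(B, Uz)),
      c = rs B inf_le_left α - rs B inf_le_right β)
    (x : Ext.{w} (supU A (Uw ⊔ Uz)).sh B 1) : x = 0 := by
  refine hA.w.ext_one hA.z hA.o (fun γ => ?_) x
  obtain ⟨α, β, h1⟩ := h (γ (rs A (inf_le_left.trans le_sup_left) F.u))
  refine ⟨hA.w.homOf (lin1 F.bw α), hA.z.homOf (lin1 F.bz β), lin1_ext F.bo ?_⟩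
  rw [h1, LinearMap.sub_apply, homOf_rs hA.w inf_le_left le_sup_left,
    homOf_rs hA.z inf_le_right le_sup_right, lin1_apply, lin1_apply]

end O

/-! ### The type of the bundle `E` -/

section E

variable {K : Cone S Uw Uz} (F : FrE K A) (hA : Good3 Uw Uz A)

theorem FrE.relo :
    rs A ((inf_le_left : Uw ⊓ Uz ≤ Uw).trans (le_sup_left : Uw ≤ Uw ⊔ Uz)) F.j =
    rO (inf_le_left : Uw ⊓ Uz ≤ Uw) K.y •
      rs A ((inf_le_left : Uw ⊓ Uz ≤ Uw).trans (le_sup_left : Uw ≤ Uw ⊔ Uz)) F.u +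
    rO (inf_le_left : Uw ⊓ Uz ≤ Uw) K.z •
      rs A ((inf_le_left : Uw ⊓ Uz ≤ Uw).trans (le_sup_left : Uw ≤ Uw ⊔ Uz)) F.i := by
  have := congrArg (rs A (inf_le_left : Uw ⊓ Uz ≤ Uw)) F.rel
  simpa only [map_add, rs_smul, rs_rs] using this

theorem FrE.relz : rs A (le_sup_right : Uz ≤ Uw ⊔ Uz) F.i =
    K.w • rs A (le_sup_right : Uz ≤ Uw ⊔ Uz) F.j - K.v • rs A (le_sup_right : Uz ≤ Uw ⊔ Uz) F.u := by
  obtain ⟨⟨c₁, c₂⟩, h⟩ := F.bz.2 (rs A (le_sup_right : Uz ≤ Uw ⊔ Uz) F.i)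
  simp only at h
  have h1 := congrArg (rs A (inf_le_right : Uw ⊓ Uz ≤ Uz)) h
  simp only [map_add, rs_smul, rs_rs] at h1
  have h2 : (rO (inf_le_right : Uw ⊓ Uz ≤ Uz) c₁ + rO inf_le_right c₂ * rO inf_le_left K.y,
      rO (inf_le_right : Uw ⊓ Uz ≤ Uz) c₂ * rO inf_le_left K.z) = ((0, 1) : _ × _) := by
    apply F.bo.1
    simp only
    rw [zero_smul, one_smul, zero_add, add_smul, mul_smul, mul_smul, add_assoc, ← smul_add,
      ← F.relo]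
    exact h1
  have h3 := congrArg Prod.fst h2
  have h4 := congrArg Prod.snd h2
  simp only at h3 h4
  have h5 : rO (inf_le_right : Uw ⊓ Uz ≤ Uz) c₂ = rO inf_le_right K.w := by
    have := K.zw
    linear_combination (-rO (inf_le_right : Uw ⊓ Uz ≤ Uz) c₂) * this +
      rO (inf_le_right : Uw ⊓ Uz ≤ Uz) K.w * h4
  have h6 : rO (inf_le_right : Uw ⊓ Uz ≤ Uz) c₁ = rO inf_le_right (-K.v) := by
    rw [map_neg, ← K.yw]
    rw [h5] at h3
    linear_combination h3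
  rw [K.pz_inj h5, K.pz_inj h6] at h
  rw [← h]
  rw [neg_smul]
  abel

/-- the relation between the values of a morphism on the frames -/
theorem FrE.hom_rel (φ : (supU A (Uw ⊔ Uz)).sh ⟶ B) :
    rs B inf_le_left (secHom le_sup_left φ (rs A (le_sup_left : Uw ≤ Uw ⊔ Uz) F.i)) =
      rs B inf_le_right (K.w • secHom le_sup_right φ (rs A (le_sup_right : Uz ≤ Uw ⊔ Uz) F.j) -
        K.v • secHom le_sup_right φ (rs A (le_sup_right : Uz ≤ Uw ⊔ Uz) F.u)) := by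
  rw [← LinearMap.map_smul, ← LinearMap.map_smul, ← map_sub (secHom _ φ), ← F.relz, secHom_rs,
    secHom_rs, rs_rs, rs_rs]

include hA

theorem FrE.hom_ext_loc {φ ψ : (supU A (Uw ⊔ Uz)).sh ⟶ B}
    (h1 : secHom le_sup_left φ (rs A (le_sup_left : Uw ≤ Uw ⊔ Uz) F.u) =
      secHom le_sup_left ψ (rs A le_sup_left F.u))
    (h2 : secHom le_sup_left φ (rs A (le_sup_left : Uw ≤ Uw ⊔ Uz) F.i) =
      secHom le_sup_left ψ (rs A le_sup_left F.i))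
    (h3 : secHom le_sup_right φ (rs A (le_sup_right : Uz ≤ Uw ⊔ Uz) F.u) =
      secHom le_sup_right ψ (rs A le_sup_right F.u))
    (h4 : secHom le_sup_right φ (rs A (le_sup_right : Uz ≤ Uw ⊔ Uz) F.j) =
      secHom le_sup_right ψ (rs A le_sup_right F.j)) : φ = ψ :=
  hA.w.sup_ext hA.z (lin2_ext F.bw h1 h2) (lin2_ext F.bz h3 h4)

theorem FrE.hom_ext {φ ψ : (supU A (Uw ⊔ Uz)).sh ⟶ B}
    (h1 : secHom le_rfl φ F.u = secHom le_rfl ψ F.u)
    (h2 : secHom le_rfl φ F.i = secHom le_rfl ψ F.i)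
    (h3 : secHom le_rfl φ F.j = secHom le_rfl ψ F.j) : φ = ψ := by
  apply F.hom_ext_loc hA
  · exact secHom_eq_rs le_sup_left h1
  · exact secHom_eq_rs le_sup_left h2
  · exact secHom_eq_rs le_sup_right h1
  · exact secHom_eq_rs le_sup_right h3

theorem FrE.exists_hom_loc (α₁ α₂ : Γ(B, Uw)) (β₁ β₂ : Γ(B, Uz))
    (h1 : rs B inf_le_left α₁ = rs B (inf_le_right : Uw ⊓ Uz ≤ Uz) β₁)
    (h2 : rs B inf_le_left α₂ = rs B (inf_le_right : Uw ⊓ Uz ≤ Uz) (K.w • β₂ - K.v • β₁)) :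
    ∃ φ : (supU A (Uw ⊔ Uz)).sh ⟶ B,
      secHom le_sup_left φ (rs A (le_sup_left : Uw ≤ Uw ⊔ Uz) F.u) = α₁ ∧
      secHom le_sup_left φ (rs A (le_sup_left : Uw ≤ Uw ⊔ Uz) F.i) = α₂ ∧
      secHom le_sup_right φ (rs A (le_sup_right : Uz ≤ Uw ⊔ Uz) F.u) = β₁ ∧
      secHom le_sup_right φ (rs A (le_sup_right : Uz ≤ Uw ⊔ Uz) F.j) = β₂ := by
  obtain ⟨φ, h3, h4⟩ := hA.w.exists_sup hA.z hA.o (lin2 F.bw α₁ α₂) (lin2 F.bz β₁ β₂)
    (lin2 F.bo (rs B inf_le_left α₁) (rs B inf_le_left α₂))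
    (lin2_ext F.bo
      (by rw [homOf_rs hA.w inf_le_left le_sup_left, lin2_apply₁, lin2_apply₁])
      (by rw [homOf_rs hA.w inf_le_left le_sup_left, lin2_apply₂, lin2_apply₂]))
    (lin2_ext F.bo
      (by rw [homOf_rs hA.z inf_le_right le_sup_right, lin2_apply₁, lin2_apply₁, h1])
      (by rw [homOf_rs hA.z inf_le_right le_sup_right, lin2_apply₂, h2, F.relz, map_sub,
        LinearMap.map_smul, LinearMap.map_smul, lin2_apply₁, lin2_apply₂]))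
  refine ⟨φ, ?_, ?_, ?_, ?_⟩
  · rw [h3, lin2_apply₁]
  · rw [h3, lin2_apply₂]
  · rw [h4, lin2_apply₁]
  · rw [h4, lin2_apply₂]

theorem FrE.exists_hom (b₁ b₂ b₃ : Γ(B, Uw ⊔ Uz))
    (h1 : rs B (le_sup_left : Uw ≤ Uw ⊔ Uz) b₃ = K.y • rs B le_sup_left b₁ +
      K.z • rs B le_sup_left b₂)
    (h2 : rs B (le_sup_right : Uz ≤ Uw ⊔ Uz) b₂ = K.w • rs B le_sup_right b₃ -
      K.v • rs B le_sup_right b₁) :
    ∃ φ : (supU A (Uw ⊔ Uz)).sh ⟶ B, secHom le_rfl φ F.u = b₁ ∧ secHom le_rfl φ F.i = b₂ ∧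
      secHom le_rfl φ F.j = b₃ := by
  obtain ⟨φ, h3, h4, h5, h6⟩ := F.exists_hom_loc hA (rs B le_sup_left b₁) (rs B le_sup_left b₂)
    (rs B le_sup_right b₁) (rs B le_sup_right b₃) (by rw [rs_rs, rs_rs])
    (by rw [← h2, rs_rs, rs_rs])
  refine ⟨φ, sec_ext2 B ?_ ?_, sec_ext2 B ?_ ?_, sec_ext2 B ?_ ?_⟩
  · rw [secHom_rs, h3]
  · rw [secHom_rs, h5]
  · rw [secHom_rs, h4]
  · rw [secHom_rs, F.relz, map_sub, map_smul, map_smul, h5, h6, h2]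
  · rw [secHom_rs, F.rel, map_add, map_smul, map_smul, h3, h4, h1]
  · rw [secHom_rs, h6]

include F in
theorem FrE.ext_one [HasExt.{w} X.Modules] [B.IsQuasicoherent]
    (h : ∀ c₁ c₂ : Γ(B, Uw ⊓ Uz), ∃ (α₁ α₂ : Γ(B, Uw)) (β₁ β₂ : Γ(B, Uz)),
      c₁ = rs B inf_le_left α₁ - rs B inf_le_right β₁ ∧
      c₂ = rs B inf_le_left α₂ - rs B inf_le_right (K.w • β₂ - K.v • β₁))
    (x : Ext.{w} (supU A (Uw ⊔ Uz)).sh B 1) : x = 0 := by
  refine hA.w.ext_one hA.z hA.o (fun γ => ?_) x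
  obtain ⟨α₁, α₂, β₁, β₂, h1, h2⟩ := h (γ (rs A (inf_le_left.trans le_sup_left) F.u))
    (γ (rs A (inf_le_left.trans le_sup_left) F.i))
  refine ⟨hA.w.homOf (lin2 F.bw α₁ α₂), hA.z.homOf (lin2 F.bz β₁ β₂), lin2_ext F.bo ?_ ?_⟩
  · rw [h1, LinearMap.sub_apply, homOf_rs hA.w inf_le_left le_sup_left,
      homOf_rs hA.z inf_le_right le_sup_right, lin2_apply₁, lin2_apply₁]
  · rw [h2, LinearMap.sub_apply, homOf_rs hA.w inf_le_left le_sup_left,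
      homOf_rs hA.z inf_le_right le_sup_right, F.relz, map_sub (lin2 F.bz β₁ β₂),
      LinearMap.map_smul, LinearMap.map_smul, lin2_apply₂, lin2_apply₁, lin2_apply₂]

end E

end Orl.Cnc
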