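import Pool.Agent.Work.MP_a6e60d_ag.Conic.Inst
import Pool.Agent.Work.MP_a6e60d_ag.Conic.Lemma
import Pool.Agent.Work.MP_a6e60d_ag.Conic.QLat

/-!
# The two halves of the surface and their intersection, as relative conics

`Y.W v`, `v = zero, inf, mid`: the half `t ≠ 0`, the half `x ≠ 0` and their intersection;
`Y.W v = Y.Uw v ⊔ Y.Uz v`, `Y.K v` is the relative conic over the ring `Sv A v`.
-/

open CategoryTheory Limits TopologicalSpace AlgebraicGeometry Opposite Polynomial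

open scoped LaurentPolynomial

attribute [-instance] CategoryTheory.catToReflQuiver

namespace Orl

open Fdim Cnc Q

namespace XCharts

variable {A : CommRingCat.{0}} {a : A} {c : Fin 5 → A} {X : Scheme.{0}} {π : X ⟶ Spec A}
  (Y : XCharts A a c π)

/-- the chart `w ≠ 0` of the half -/
def Uw : Ch → X.Opens
  | .zero => Y.U 1
  | .inf => Y.U 3
  | .mid => Y.U 1 ⊓ Y.U 3

/-- the chart `z ≠ 0` of the half -/
def Uz : Ch → X.Opens
  | .zero => Y.U 0
  | .inf => Y.U 2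
  | .mid => Y.U 0 ⊓ Y.U 2

/-- the half of the surface -/
def W (v : Ch) : X.Opens := Y.Uw v ⊔ Y.Uz v

theorem W_zero : Y.W .zero = Y.U 1 ⊔ Y.U 0 := rfl

theorem W_inf : Y.W .inf = Y.U 3 ⊔ Y.U 2 := rfl

theorem W_mid : Y.W .mid = (Y.U 1 ⊓ Y.U 3) ⊔ (Y.U 0 ⊓ Y.U 2) := rfl

theorem Uw_mono {v w : Ch} (h : v ≤ w) : Y.Uw w ≤ Y.Uw v := by
  rcases h with rfl | rfl
  · exact le_rfl
  · cases v
    · exact inf_le_left
    · exact inf_le_right
    · exact le_rfl

theorem Uz_mono {v w : Ch} (h : v ≤ w) : Y.Uz w ≤ Y.Uz v := by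
  rcases h with rfl | rfl
  · exact le_rfl
  · cases v
    · exact inf_le_left
    · exact inf_le_right
    · exact le_rfl

theorem W_mono {v w : Ch} (h : v ≤ w) : Y.W w ≤ Y.W v :=
  sup_le_sup (Y.Uw_mono h) (Y.Uz_mono h)

theorem le20 : Y.U 1 ⊓ Y.U 2 ≤ Y.U 0 := by
  rw [Y.b12, X.basicOpen_mul, ← Y.b10]
  exact inf_le_right.trans inf_le_left

theorem W_inf_W : Y.W .zero ⊓ Y.W .inf = Y.W .mid := by
  rw [W_zero, W_inf, W_mid]
  apply le_antisymm
  · rw [inf_sup_left, inf_sup_right, inf_sup_right]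
    refine sup_le (sup_le le_sup_left ?_) (sup_le ?_ le_sup_right)
    · exact (le_inf inf_le_left Y.le02).trans le_sup_right
    · exact (le_inf Y.le20 inf_le_right).trans le_sup_right
  · exact sup_le (inf_le_inf le_sup_left le_sup_left) (inf_le_inf le_sup_right le_sup_right)

theorem W_sup_W : Y.W .zero ⊔ Y.W .inf = ⊤ := by
  rw [W_zero, W_inf, eq_top_iff, ← Y.cover]
  refine iSup_le fun i => ?_
  match i with
  | 0 => exact le_sup_right.trans le_sup_left
  | 1 => exact le_sup_left.trans le_sup_left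
  | 2 => exact le_sup_right.trans le_sup_right
  | 3 => exact le_sup_left.trans le_sup_right

/-- the relative conics -/
noncomputable def K : ∀ v : Ch, Cone (Sv A v) (Y.Uw v) (Y.Uz v)
  | .zero => Y.K0
  | .inf => Y.K1
  | .mid => Y.K01

theorem affW : ∀ v : Ch, Aff (Y.Uw v) (Y.Uz v)
  | .zero => ⟨Y.aff 1, Y.aff 0, by
      change IsAffineOpen (Y.U 1 ⊓ Y.U 0)
      rw [inf_comm, Y.b10]
      exact (Y.aff 1).basicOpen _⟩
  | .inf => ⟨Y.aff 3, Y.aff 2, by
      change IsAffineOpen (Y.U 3 ⊓ Y.U 2)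
      rw [inf_comm, Y.b32]
      exact (Y.aff 3).basicOpen _⟩
  | .mid => ⟨Y.aff13, Y.aff02, by
      change IsAffineOpen (Y.U 1 ⊓ Y.U 3 ⊓ (Y.U 0 ⊓ Y.U 2))
      rw [Y.b0123]
      exact Y.aff13.basicOpen _⟩

end XCharts

end Orl
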