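import Pool.Agent.Work.MP_a6e60d_ag.Conic.TrivX
import Pool.Agent.Work.MP_a6e60d_ag.Conic.W
import Pool.Agent.Work.MP_a6e60d_ag.Conic.Quat

/-!
# MP_a6e60d_ag: the frames of `O(j D)` and `E(j D)` over the three parts `Y.W v`, uniformly in `v`

* `rO_sW`: functions of the base;
* `oF v j`, `rs_oF`: the frame of `O(j D)` over `W v` and its restriction to `W mid`;
* `eF v j`, `rs_eF_u`, `rs_eF_i`, `rs_eF_j`, `rs_eF_k`, `rs_qv`: the same for `E(j D)`.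
-/

set_option autoImplicit false

open CategoryTheory Limits TopologicalSpace AlgebraicGeometry Opposite Polynomial Quaternion

open scoped LaurentPolynomial

attribute [-instance] CategoryTheory.catToReflQuiver

namespace Orl

open Fdim Cnc Q

noncomputable section

namespace XCharts

variable {A : CommRingCat.{0}} {a : A} {c : Fin 5 → A} {X : Scheme.{0}} {π : X ⟶ Spec A}
  (Y : XCharts A a c π)

theorem wle (v : Ch) : Y.Uw .mid ⊔ Y.Uz .mid ≤ Y.Uw v ⊔ Y.Uz v := Y.W_mono (Ch.le_mid v)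

/-- functions of the base over the parts of the surface -/
theorem rO_sW (v : Ch) (f : Sv A v) : rO (Y.wle v) (Con.sW (Y.K v) f) =
    Con.sW (Y.K .mid) (sv A v f) := by
  cases v with
  | zero => exact Y.rO_sW0 f
  | inf => exact Y.rO_sW1 f
  | mid => exact rO_self _ _

/-- the frame `t ^ j`, `x ^ j`, `t ^ j` of `O(j D)` -/
def oF : ∀ (v : Ch) (j : ℤ), FrO (Y.Uw v) (Y.Uz v) (Y.LL (Y.cD ^ j))
  | .zero, j => Y.oZ j
  | .inf, j => Y.oI j
  | .mid, j => Y.oM j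

/-- the frame `(1, i, j)` of `E(j D)` times `t ^ j`, `x ^ j`, `t ^ j` -/
def eF : ∀ (v : Ch) (j : ℤ), FrE (Y.K v) (Y.EE (Y.cD ^ j))
  | .zero, j => Y.eZ j
  | .inf, j => Y.eI j
  | .mid, j => Y.eM j

theorem sW_T_zero :
    Con.sW (Y.K .mid) (LaurentPolynomial.T 0 : LaurentPolynomial A) = 1 := by
  rw [LaurentPolynomial.T_zero]
  exact map_one _

theorem rs_oF (v : Ch) (j : ℤ) : rs _ (Y.wle v) (Y.oF v j).u =
    Con.sW (Y.K .mid) (LaurentPolynomial.T (v.tw j)) • (Y.oF .mid j).u := by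
  cases v with
  | zero =>
    rw [show Ch.zero.tw j = 0 from rfl, Y.sW_T_zero, one_smul]
    exact Y.rs_oZ j
  | inf => exact Y.rs_oI j
  | mid =>
    rw [show Ch.mid.tw j = 0 from rfl, Y.sW_T_zero, one_smul]
    exact rs_self _ _ _

theorem rs_eF_u (v : Ch) (j : ℤ) : rs _ (Y.wle v) (Y.eF v j).u =
    Con.sW (Y.K .mid) (LaurentPolynomial.T (v.tw j)) • (Y.eF .mid j).u := by
  cases v with
  | zero =>
    rw [show Ch.zero.tw j = 0 from rfl, Y.sW_T_zero, one_smul]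
    exact Y.rs_eZ_u j
  | inf => exact Y.rs_eI_u j
  | mid =>
    rw [show Ch.mid.tw j = 0 from rfl, Y.sW_T_zero, one_smul]
    exact rs_self _ _ _

theorem rs_eF_i (v : Ch) (j : ℤ) : rs _ (Y.wle v) (Y.eF v j).i =
    Con.sW (Y.K .mid) (LaurentPolynomial.T (v.tw j)) • (Y.eF .mid j).i := by
  cases v with
  | zero =>
    rw [show Ch.zero.tw j = 0 from rfl, Y.sW_T_zero, one_smul]
    exact Y.rs_eZ_i j
  | inf => exact Y.rs_eI_i j
  | mid =>
    rw [show Ch.mid.tw j = 0 from rfl, Y.sW_T_zero, one_smul]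
    exact rs_self _ _ _

theorem rs_eF_j (v : Ch) (j : ℤ) : rs _ (Y.wle v) (Y.eF v j).j =
    Con.sW (Y.K .mid) (LaurentPolynomial.T (v.tw (j - 2))) • (Y.eF .mid j).j := by
  cases v with
  | zero =>
    rw [show Ch.zero.tw (j - 2) = 0 from rfl, Y.sW_T_zero, one_smul]
    exact Y.rs_eZ_j j
  | inf => exact Y.rs_eI_j j
  | mid =>
    rw [show Ch.mid.tw (j - 2) = 0 from rfl, Y.sW_T_zero, one_smul]
    exact rs_self _ _ _

theorem qx_eval {R : Type} [CommRing R] (f : A →+* R) (x y : R) (h : x * y = 1) :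
    (qx c).eval₂ f x = x ^ 4 * (qx' c).eval₂ f y := by
  simp only [qx, qx', Polynomial.eval₂_finsetSum, Polynomial.eval₂_mul, Polynomial.eval₂_C,
    Polynomial.eval₂_X_pow]
  rw [Finset.mul_sum]
  refine Finset.sum_congr rfl fun i _ => ?_
  have hi : (i : ℕ) + (4 - i) = 4 := by have := i.2; omega
  have h1 : x ^ 4 = x ^ (i : ℕ) * x ^ (4 - (i : ℕ)) := by rw [← pow_add, hi]
  calc f (c i) * x ^ (i : ℕ) = f (c i) * x ^ (i : ℕ) * (x * y) ^ (4 - (i : ℕ)) := by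
        rw [h, one_pow, mul_one]
    _ = x ^ 4 * (f (c i) * y ^ (4 - (i : ℕ))) := by
        rw [h1, mul_pow]
        ring

theorem rs_k_zero (j : ℤ) : rs (Y.EE (Y.cD ^ j)) Y.wle0 (Y.eZ j).k = (Y.eM j).k := by
  apply sec_ext2
  · rw [FrE.rs_k_left, rs_rs, ← rs_rs _ (le_sup_left : Y.U 1 ≤ Y.U 1 ⊔ Y.U 0) inf_le_left,
      FrE.rs_k_left, map_add, rs_smul, rs_smul, rs_rs, rs_rs, ← Y.rs_eZ_u, ← Y.rs_eZ_i, rs_rs,
      rs_rs]
    congr 2
    rw [map_mul]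
    congr 1
    exact (Y.bw_toLaurent (Polynomial.C a)).symm.trans (by
      rw [toLaurent_C]
      rfl)
  · rw [FrE.rs_k_right, rs_rs, ← rs_rs _ (le_sup_right : Y.U 0 ≤ Y.U 1 ⊔ Y.U 0) inf_le_left,
      FrE.rs_k_right, map_sub, rs_smul, rs_smul, rs_rs, rs_rs, ← Y.rs_eZ_u, ← Y.rs_eZ_j, rs_rs,
      rs_rs]
    congr 2
    rw [map_mul]
    congr 1
    exact (Y.bz_toLaurent (qx c)).symm

theorem rs_k_inf (j : ℤ) : rs (Y.EE (Y.cD ^ j)) Y.wle1 (Y.eI j).k =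
    Con.sW Y.K01 (LaurentPolynomial.T (j - 2)) • (Y.eM j).k := by
  apply sec_ext2
  · have hu := congrArg (rs (Y.EE (Y.cD ^ j)) (le_sup_left : Y.U 1 ⊓ Y.U 3 ≤ _)) (Y.rs_eI_u j)
    have hi := congrArg (rs (Y.EE (Y.cD ^ j)) (le_sup_left : Y.U 1 ⊓ Y.U 3 ≤ _)) (Y.rs_eI_i j)
    rw [rs_rs, rs_smul, Y.sW_T_left] at hu hi
    rw [rs_smul, Y.sW_T_left, FrE.rs_k_left, rs_rs,
      ← rs_rs _ (le_sup_left : Y.U 3 ≤ Y.U 3 ⊔ Y.U 2) inf_le_right,
      FrE.rs_k_left, map_add, rs_smul, rs_smul, rs_rs, rs_rs, hu, hi, smul_add, smul_smul,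
      smul_smul, smul_smul, smul_smul, ← Y.xw_sub j, map_mul]
    have hy := Y.rel13y (W := Y.U 1 ⊓ Y.U 3) inf_le_left inf_le_right
    have he := Y.rel13e (W := Y.U 1 ⊓ Y.U 3) inf_le_left inf_le_right
    have ha : rO (inf_le_right : Y.U 1 ⊓ Y.U 3 ≤ Y.U 3) (Y.K1.sw Y.K1.a) =
        Y.K01.sw Y.K01.a := by
      refine (Y.bw_invP (Polynomial.C a)).symm.trans ?_
      rw [toLaurent_C, LaurentPolynomial.invert_C]
      rfl
    rw [ha]
    have hz' : Y.K01.z = rO inf_le_left (Y.x 1) ^ 2 * rO inf_le_right Y.K1.z := hy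
    have hy' : Y.K01.y = rO inf_le_left (Y.x 1) ^ 2 * rO inf_le_right Y.K1.y := he
    rw [hz', hy']
    congr 2 <;> ring
  · have hu := congrArg (rs (Y.EE (Y.cD ^ j)) (le_sup_right : Y.U 0 ⊓ Y.U 2 ≤ _)) (Y.rs_eI_u j)
    have hj := congrArg (rs (Y.EE (Y.cD ^ j)) (le_sup_right : Y.U 0 ⊓ Y.U 2 ≤ _)) (Y.rs_eI_j j)
    rw [rs_rs, rs_smul, Y.sW_T_right] at hu hj
    rw [rs_smul, Y.sW_T_right, FrE.rs_k_right, rs_rs,
      ← rs_rs _ (le_sup_right : Y.U 2 ≤ Y.U 3 ⊔ Y.U 2) inf_le_right,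
      FrE.rs_k_right, map_sub, rs_smul, rs_smul, rs_rs, rs_rs, hu, hj, smul_sub, smul_smul,
      smul_smul, smul_smul, smul_smul, Y.xz_sub j, map_mul]
    have hx := Y.rel02x (W := Y.U 0 ⊓ Y.U 2) inf_le_left inf_le_right
    have hy := Y.rel02y (W := Y.U 0 ⊓ Y.U 2) inf_le_left inf_le_right
    have he := Y.rel02e (W := Y.U 0 ⊓ Y.U 2) inf_le_left inf_le_right
    have hv' : Y.K01.v = rO inf_le_right Y.K1.v := he
    have hw' : rO (inf_le_right : Y.U 0 ⊓ Y.U 2 ≤ Y.U 2) Y.K1.w =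
      rO inf_le_left (Y.x 0) ^ 2 * Y.K01.w := hy
    have hq : Y.K01.sz Y.K01.q = rO inf_le_left (Y.x 0) ^ 4 *
        rO (inf_le_right : Y.U 0 ⊓ Y.U 2 ≤ Y.U 2) (Y.K1.sz Y.K1.q) := by
      refine (Y.bz_toLaurent (qx c)).trans ?_
      have h1 := qx_eval (c := c) (str π (Y.U 0 ⊓ Y.U 2)) _ _ hx
      rw [← rO_eval₂, ← rO_eval₂] at h1
      exact h1
    rw [hv', hw', hq]
    congr 2
    · ring
    · generalize rO _ (Y.x 0) = x at *
      generalize rO _ (Y.x 2) = t at *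
      generalize rO _ (Y.K1.sz Y.K1.q) = q at *
      generalize Y.K01.w = w at *
      linear_combination (- (Y.xz ^ j : (Γ(X, Y.U 0 ⊓ Y.U 2))ˣ) * q * x ^ 2 * w *
        (x * t + 1)) * hx

theorem rs_eF_k (v : Ch) (j : ℤ) : rs _ (Y.wle v) (Y.eF v j).k =
    Con.sW (Y.K .mid) (LaurentPolynomial.T (v.tw (j - 2))) • (Y.eF .mid j).k := by
  cases v with
  | zero =>
    rw [show Ch.zero.tw (j - 2) = 0 from rfl, Y.sW_T_zero, one_smul]
    exact Y.rs_k_zero j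
  | inf => exact Y.rs_k_inf j
  | mid =>
    rw [show Ch.mid.tw (j - 2) = 0 from rfl, Y.sW_T_zero, one_smul]
    exact rs_self _ _ _

/-- the sections `d 1` of `E(j D)` -/
theorem rs_qv (v : Ch) (j : ℤ) (d : ℍ[Sv A v, (Y.K v).a, 0, (Y.K v).q]) :
    rs _ (Y.wle v) ((Y.eF v j).qv d) = (Y.eF .mid j).qv
      ⟨LaurentPolynomial.T (v.tw j) * sv A v d.re, LaurentPolynomial.T (v.tw j) * sv A v d.imI,
        LaurentPolynomial.T (v.tw (j - 2)) * sv A v d.imJ,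
        LaurentPolynomial.T (v.tw (j - 2)) * sv A v d.imK⟩ := by
  rw [FrE.qv_apply, FrE.qv_apply]
  have h : ∀ (p : LaurentPolynomial A) (f : Sv A v) (s : Γ(Y.EE (Y.cD ^ j), Y.Uw v ⊔ Y.Uz v))
      (t : Γ(Y.EE (Y.cD ^ j), Y.Uw .mid ⊔ Y.Uz .mid)),
      rs _ (Y.wle v) s = Con.sW (Y.K .mid) p • t →
      rs _ (Y.wle v) (Con.sW (Y.K v) f • s) =
        Con.sW (Y.K .mid) (p * sv A v f) • t := by
    intro p f s t hst
    rw [rs_smul, Y.rO_sW, hst, smul_smul, mul_comm]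
    exact congrArg (· • t) (map_mul (Con.sW (Y.K .mid)) p (sv A v f)).symm
  rw [map_add, map_add, map_add, h _ _ _ _ (Y.rs_eF_u v j), h _ _ _ _ (Y.rs_eF_i v j),
    h _ _ _ _ (Y.rs_eF_j v j), h _ _ _ _ (Y.rs_eF_k v j)]
  rfl

end XCharts

end

end Orl
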