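import Pool.Agent.Work.MP_a6e60d_ag.Conic.OfTv
import Pool.Agent.Work.MP_a6e60d_ag.Conic.Inst
import Pool.Agent.Work.MP_a6e60d_ag.Vb.Seq

/-!
# MP_a6e60d_ag: the line bundles `O(j D)` and the bundles `E(j D)` over the parts of the surface

The surface `X` is covered by `U 1 ⊔ U 0` (over `t ≠ 0`) and `U 3 ⊔ U 2` (over `x ≠ 0`); the
intersection is `(U 1 ⊓ U 3) ⊔ (U 0 ⊓ U 2)`.
* `wle0, wle1, w_inf, w_top, aff10, aff32, affM`: these open subsets;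
* `rO_sW0`, `rO_sW1`: functions of the base;
* `oZ, oI, oM`: the frames `t ^ j`, `x ^ j`, `t ^ j` of `O(j D)`, `rs_oZ`, `rs_oI`;
* `eZ, eI, eM`: the frames of `E(j D)`, `rs_eZ_u`, ..., `rs_eI_j`.
-/

set_option autoImplicit false

open CategoryTheory Limits TopologicalSpace AlgebraicGeometry Opposite Polynomial Matrix

open scoped LaurentPolynomial

attribute [-instance] CategoryTheory.catToReflQuiver

universe u

namespace Orl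

open Fdim Fdim.Coc Cnc Orl.Vb

noncomputable section

/-! ### powers of cocycles -/

section pow

variable {X : Scheme.{u}} {ι : Type u} {U : ι → X.Opens}

/-- the value of a cocycle as a homomorphism -/
def vHom (i j : ι) {W : X.Opens} (hi : W ≤ U i) (hj : W ≤ U j) : Coc U →* Γ(X, W) where
  toFun g := g.v i j hi hj
  map_one' := by simp
  map_mul' g h := by simp

theorem zpow_v (g : Coc U) (i j : ι) {W : X.Opens} (hi : W ≤ U i) (hj : W ≤ U j)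
    (r : Γ(X, W)ˣ) (hr : g.v i j hi hj = r) (n : ℤ) :
    (g ^ n).v i j hi hj = (r ^ n : Γ(X, W)ˣ) := by
  have h1 : (vHom i j hi hj).toHomUnits g = r := Units.ext hr
  rw [← h1, ← map_zpow]
  rfl

theorem zpow_v_one (g : Coc U) (i j : ι) {W : X.Opens} (hi : W ≤ U i) (hj : W ≤ U j)
    (hr : g.v i j hi hj = 1) (n : ℤ) : (g ^ n).v i j hi hj = 1 := by
  rw [zpow_v g i j hi hj 1 hr, _root_.one_zpow, Units.val_one]

end pow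

namespace XCharts

variable {A : CommRingCat.{0}} {a : A} {c : Fin 5 → A} {X : Scheme.{0}} {π : X ⟶ Spec A}
  (Y : XCharts A a c π)

/-! ### the open subsets -/

theorem wle0 : Y.U 1 ⊓ Y.U 3 ⊔ Y.U 0 ⊓ Y.U 2 ≤ Y.U 1 ⊔ Y.U 0 :=
  sup_le_sup inf_le_left inf_le_left

theorem wle1 : Y.U 1 ⊓ Y.U 3 ⊔ Y.U 0 ⊓ Y.U 2 ≤ Y.U 3 ⊔ Y.U 2 :=
  sup_le_sup inf_le_right inf_le_right

theorem le13 : Y.U 1 ⊓ Y.U 2 ≤ Y.U 3 := by
  rw [Y.b12, X.basicOpen_mul, ← Y.b13]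
  exact inf_le_left.trans inf_le_right

theorem w_inf : (Y.U 1 ⊔ Y.U 0) ⊓ (Y.U 3 ⊔ Y.U 2) = Y.U 1 ⊓ Y.U 3 ⊔ Y.U 0 ⊓ Y.U 2 := by
  apply le_antisymm
  · rw [inf_sup_left, inf_sup_right, inf_sup_right]
    refine sup_le (sup_le le_sup_left ?_) (sup_le ?_ le_sup_right)
    · exact (le_inf inf_le_left Y.le02).trans le_sup_right
    · exact (le_inf inf_le_left Y.le13).trans le_sup_left
  · exact le_inf Y.wle0 Y.wle1

theorem w_top : (Y.U 1 ⊔ Y.U 0) ⊔ (Y.U 3 ⊔ Y.U 2) = ⊤ := by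
  rw [eq_top_iff, ← Y.cover]
  refine iSup_le fun i => ?_
  match i with
  | 0 => exact le_sup_right.trans le_sup_left
  | 1 => exact le_sup_left.trans le_sup_left
  | 2 => exact le_sup_right.trans le_sup_right
  | 3 => exact le_sup_left.trans le_sup_right

theorem aff10 : Aff (Y.U 1) (Y.U 0) where
  w := Y.aff 1
  z := Y.aff 0
  o := by
    rw [inf_comm, Y.b01]
    exact (Y.aff 0).basicOpen _

theorem aff32 : Aff (Y.U 3) (Y.U 2) where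
  w := Y.aff 3
  z := Y.aff 2
  o := by
    rw [inf_comm, Y.b23]
    exact (Y.aff 2).basicOpen _

theorem affM : Aff (Y.U 1 ⊓ Y.U 3) (Y.U 0 ⊓ Y.U 2) where
  w := Y.aff13
  z := Y.aff02
  o := by
    rw [Y.b0123]
    exact Y.aff13.basicOpen _

/-! ### functions of the base -/

theorem bw_T (j : ℤ) : Y.bw (LaurentPolynomial.T j) = (Y.xw ^ j : (Γ(X, Y.U 1 ⊓ Y.U 3))ˣ) := by
  rw [bw, LaurentPolynomial.eval₂_T]

theorem bz_T (j : ℤ) : Y.bz (LaurentPolynomial.T j) = (Y.xz ^ j : (Γ(X, Y.U 0 ⊓ Y.U 2))ˣ) := by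
  rw [bz, LaurentPolynomial.eval₂_T]

theorem bw_invP (P : A[X]) : Y.bw (LaurentPolynomial.invert (toLaurent P)) =
    rO inf_le_right (Y.bs 3 P) := by
  rw [bs_apply, rO_eval₂]
  induction P using Polynomial.induction_on' with
  | add P Q hP hQ => rw [map_add, map_add, map_add, hP, hQ, Polynomial.eval₂_add]
  | monomial n r =>
    rw [← C_mul_X_pow_eq_monomial, toLaurent_C_mul_X_pow, map_mul, map_mul,
      LaurentPolynomial.invert_C, LaurentPolynomial.invert_T, bw_C, bw_T]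
    simp only [Polynomial.eval₂_mul, Polynomial.eval₂_C, Polynomial.eval₂_X_pow]
    congr 1
    rw [_root_.zpow_neg, ← _root_.inv_zpow, zpow_natCast, Units.val_pow_eq_pow_val]
    rfl

theorem bz_invP (P : A[X]) : Y.bz (LaurentPolynomial.invert (toLaurent P)) =
    rO inf_le_right (Y.bs 2 P) := by
  rw [bs_apply, rO_eval₂]
  induction P using Polynomial.induction_on' with
  | add P Q hP hQ => rw [map_add, map_add, map_add, hP, hQ, Polynomial.eval₂_add]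
  | monomial n r =>
    rw [← C_mul_X_pow_eq_monomial, toLaurent_C_mul_X_pow, map_mul, map_mul,
      LaurentPolynomial.invert_C, LaurentPolynomial.invert_T, bz_C, bz_T]
    simp only [Polynomial.eval₂_mul, Polynomial.eval₂_C, Polynomial.eval₂_X_pow]
    congr 1
    rw [_root_.zpow_neg, ← _root_.inv_zpow, zpow_natCast, Units.val_pow_eq_pow_val]
    rfl

/-- functions of the base over `t ≠ 0` -/
theorem rO_sW0 (f : A[X]) : rO Y.wle0 (Con.sW Y.K0 f) = Con.sW Y.K01 (toLaurent f) := by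
  apply secO_ext2
  · rw [Con.rO_sW_left, rO_rO, ← rO_rO (le_sup_left : Y.U 1 ≤ Y.U 1 ⊔ Y.U 0) inf_le_left,
      Con.rO_sW_left]
    exact (Y.bw_toLaurent f).symm
  · rw [Con.rO_sW_right, rO_rO, ← rO_rO (le_sup_right : Y.U 0 ≤ Y.U 1 ⊔ Y.U 0) inf_le_left,
      Con.rO_sW_right]
    exact (Y.bz_toLaurent f).symm

/-- functions of the base over `x ≠ 0` -/
theorem rO_sW1 (f : A[X]) :
    rO Y.wle1 (Con.sW Y.K1 f) = Con.sW Y.K01 (LaurentPolynomial.invert (toLaurent f)) := by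
  apply secO_ext2
  · rw [Con.rO_sW_left, rO_rO, ← rO_rO (le_sup_left : Y.U 3 ≤ Y.U 3 ⊔ Y.U 2) inf_le_right,
      Con.rO_sW_left]
    exact (Y.bw_invP f).symm
  · rw [Con.rO_sW_right, rO_rO, ← rO_rO (le_sup_right : Y.U 2 ≤ Y.U 3 ⊔ Y.U 2) inf_le_right,
      Con.rO_sW_right]
    exact (Y.bz_invP f).symm

theorem sW_T_left (j : ℤ) : rO le_sup_left (Con.sW Y.K01 (LaurentPolynomial.T j)) =
    (Y.xw ^ j : (Γ(X, Y.U 1 ⊓ Y.U 3))ˣ) := by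
  rw [Con.rO_sW_left]
  exact Y.bw_T j

theorem sW_T_right (j : ℤ) : rO le_sup_right (Con.sW Y.K01 (LaurentPolynomial.T j)) =
    (Y.xz ^ j : (Γ(X, Y.U 0 ⊓ Y.U 2))ˣ) := by
  rw [Con.rO_sW_right]
  exact Y.bz_T j

/-! ### the powers of the cocycle of a fibre -/

theorem cD10 (j : ℤ) {W : X.Opens} (h1 : W ≤ Y.U 1) (h0 : W ≤ Y.U 0) :
    (Y.cD ^ j).v 1 0 h1 h0 = 1 :=
  zpow_v_one _ _ _ _ _ (by simp [eD]) j

theorem cD32 (j : ℤ) {W : X.Opens} (h1 : W ≤ Y.U 3) (h0 : W ≤ Y.U 2) :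
    (Y.cD ^ j).v 3 2 h1 h0 = 1 :=
  zpow_v_one _ _ _ _ _ (by simp [eD]) j

theorem cD13 (j : ℤ) : (Y.cD ^ j).v 1 3 (inf_le_left : Y.U 1 ⊓ Y.U 3 ≤ Y.U 1) inf_le_right =
    (Y.xw ^ j : (Γ(X, Y.U 1 ⊓ Y.U 3))ˣ) :=
  zpow_v _ _ _ _ _ _ (by
    rw [cD_v]
    rfl) j

theorem cD02 (j : ℤ) : (Y.cD ^ j).v 0 2 (inf_le_left : Y.U 0 ⊓ Y.U 2 ≤ Y.U 0) inf_le_right =
    (Y.xz ^ j : (Γ(X, Y.U 0 ⊓ Y.U 2))ˣ) :=
  zpow_v _ _ _ _ _ _ (by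
    rw [cD_v]
    rfl) j

/-! ### the line bundles -/

/-- the trivialisation of `O(j D)` -/
def tO (j : ℤ) : Tv Y.U (Y.LL (Y.cD ^ j)) Unit := Tv.tw (Y.cD ^ j) Tv.unit

theorem trnO (j : ℤ) : Trn (Y.tO j) (fun i i' _ hi hi' => (Y.cD ^ j).v i i' hi hi' • 1) :=
  trn_tw (Y.cD ^ j) trn_unit

theorem trnO' (j : ℤ) (i i' : Fin 4) {W : X.Opens} (hi : W ≤ Y.U i) (hi' : W ≤ Y.U i')
    (s : Γ(Y.LL (Y.cD ^ j), W)) :
    (Y.tO j).co i hi s = (Y.cD ^ j).v i i' hi hi' • (Y.tO j).co i' hi' s := by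
  rw [Y.trnO j i i' hi hi' s, Matrix.smul_mulVec, Matrix.one_mulVec]

/-- the frame `t ^ j` of `O(j D)` over `t ≠ 0` -/
def oZ (j : ℤ) : FrO (Y.U 1) (Y.U 0) (Y.LL (Y.cD ^ j)) :=
  FrO.ofTv (Y.tO j) (Y.trnO j) (iw := 1) (iz := 0) le_rfl le_rfl (by rw [Y.cD10, one_smul])

/-- the frame `x ^ j` of `O(j D)` over `x ≠ 0` -/
def oI (j : ℤ) : FrO (Y.U 3) (Y.U 2) (Y.LL (Y.cD ^ j)) :=
  FrO.ofTv (Y.tO j) (Y.trnO j) (iw := 3) (iz := 2) le_rfl le_rfl (by rw [Y.cD32, one_smul])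

/-- the frame `t ^ j` of `O(j D)` over `x t ≠ 0` -/
def oM (j : ℤ) : FrO (Y.U 1 ⊓ Y.U 3) (Y.U 0 ⊓ Y.U 2) (Y.LL (Y.cD ^ j)) :=
  FrO.ofTv (Y.tO j) (Y.trnO j) (iw := 1) (iz := 0) inf_le_left inf_le_left
    (by rw [Y.cD10, one_smul])

theorem rs_oZ (j : ℤ) : rs _ Y.wle0 (Y.oZ j).u = (Y.oM j).u := by
  apply ext_of_co (Y.tO j) (iw := 1) (iz := 0) inf_le_left inf_le_left
  · rw [oM, FrO.ofTv_w, rs_rs, ← rs_rs _ (le_sup_left : Y.U 1 ≤ Y.U 1 ⊔ Y.U 0) inf_le_left,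
      (Y.tO j).co_rs' 1 le_rfl inf_le_left, oZ, FrO.ofTv_w]
    funext k
    simp [rV]
  · rw [oM, FrO.ofTv_z, rs_rs, ← rs_rs _ (le_sup_right : Y.U 0 ≤ Y.U 1 ⊔ Y.U 0) inf_le_left,
      (Y.tO j).co_rs' 0 le_rfl inf_le_left, oZ, FrO.ofTv_z]
    funext k
    simp [rV]

theorem rs_oI (j : ℤ) : rs _ Y.wle1 (Y.oI j).u =
    Con.sW Y.K01 (LaurentPolynomial.T j) • (Y.oM j).u := by
  apply ext_of_co (Y.tO j) (iw := 1) (iz := 0) inf_le_left inf_le_left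
  · rw [rs_smul, map_smul, oM, FrO.ofTv_w, rs_rs,
      ← rs_rs _ (le_sup_left : Y.U 3 ≤ Y.U 3 ⊔ Y.U 2) inf_le_right,
      Y.trnO' j 1 3 inf_le_left inf_le_right, (Y.tO j).co_rs' 3 le_rfl inf_le_right, oI,
      FrO.ofTv_w, Y.cD13, Y.sW_T_left]
    funext k
    simp [rV]
  · rw [rs_smul, map_smul, oM, FrO.ofTv_z, rs_rs,
      ← rs_rs _ (le_sup_right : Y.U 2 ≤ Y.U 3 ⊔ Y.U 2) inf_le_right,
      Y.trnO' j 0 2 inf_le_left inf_le_right, (Y.tO j).co_rs' 2 le_rfl inf_le_right, oI,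
      FrO.ofTv_z, Y.cD02, Y.sW_T_right]
    funext k
    simp [rV]

/-! ### the bundles of rank two -/

/-- the trivialisation of `E(j D)` -/
def tE (j : ℤ) : Tv Y.U (Y.EE (Y.cD ^ j)) (Fin 2) := mtwTv (Y.cD ^ j • Y.cE)

theorem trnE' (j : ℤ) (i i' : Fin 4) {W : X.Opens} (hi : W ≤ Y.U i) (hi' : W ≤ Y.U i')
    (s : Γ(Y.EE (Y.cD ^ j), W)) : (Y.tE j).co i hi s =
      (Y.cD ^ j).v i i' hi hi' • !![1, Y.vA i i' hi hi'; 0, Y.vB i i' hi hi'] *ᵥ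
        (Y.tE j).co i' hi' s := by
  rw [← Y.cE_v, ← Matrix.smul_mulVec, ← MCoc.smul_v]
  exact mtwTv_chg (Y.cD ^ j • Y.cE) i i' hi hi' s

theorem trnE (j : ℤ) : Trn (Y.tE j) (fun i i' _ hi hi' =>
    (Y.cD ^ j).v i i' hi hi' • !![1, Y.vA i i' hi hi'; 0, Y.vB i i' hi hi']) := by
  intro i i' W hi hi' s
  rw [Y.trnE' j i i' hi hi' s, Matrix.smul_mulVec]

/-- the frame `t ^ j (1, i, j)` of `E(j D)` over `t ≠ 0` -/
def eZ (j : ℤ) : FrE Y.K0 (Y.EE (Y.cD ^ j)) :=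
  FrE.ofTv Y.K0 (Y.tE j) (Y.trnE j) (iw := 1) (iz := 0) le_rfl le_rfl (by
    rw [Y.cD10, one_smul]
    rfl)

/-- the frame `x ^ j (1, i, j)` of `E(j D)` over `x ≠ 0` -/
def eI (j : ℤ) : FrE Y.K1 (Y.EE (Y.cD ^ j)) :=
  FrE.ofTv Y.K1 (Y.tE j) (Y.trnE j) (iw := 3) (iz := 2) le_rfl le_rfl (by
    rw [Y.cD32, one_smul]
    rfl)

/-- the frame `t ^ j (1, i, j)` of `E(j D)` over `x t ≠ 0` -/
def eM (j : ℤ) : FrE Y.K01 (Y.EE (Y.cD ^ j)) :=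
  FrE.ofTv Y.K01 (Y.tE j) (Y.trnE j) (iw := 1) (iz := 0) inf_le_left inf_le_left (by
    rw [Y.cD10, one_smul]
    ext k l
    fin_cases k <;> fin_cases l <;> simp [vA, vB, K01])

/-- coordinates of the restriction of a section over `t ≠ 0` -/
theorem coZ_w (j : ℤ) (s : Γ(Y.EE (Y.cD ^ j), Y.U 1 ⊔ Y.U 0)) :
    (Y.tE j).co 1 (inf_le_left : Y.U 1 ⊓ Y.U 3 ≤ Y.U 1)
      (rs (Y.EE (Y.cD ^ j)) le_sup_left (rs (Y.EE (Y.cD ^ j)) Y.wle0 s)) =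
      rV inf_le_left ((Y.tE j).co 1 le_rfl (rs (Y.EE (Y.cD ^ j)) le_sup_left s)) := by
  rw [rs_rs, ← rs_rs _ (le_sup_left : Y.U 1 ≤ Y.U 1 ⊔ Y.U 0) inf_le_left,
      (Y.tE j).co_rs' 1 le_rfl inf_le_left]

theorem coZ_z (j : ℤ) (s : Γ(Y.EE (Y.cD ^ j), Y.U 1 ⊔ Y.U 0)) :
    (Y.tE j).co 0 (inf_le_left : Y.U 0 ⊓ Y.U 2 ≤ Y.U 0)
      (rs (Y.EE (Y.cD ^ j)) le_sup_right (rs (Y.EE (Y.cD ^ j)) Y.wle0 s)) =
      rV inf_le_left ((Y.tE j).co 0 le_rfl (rs (Y.EE (Y.cD ^ j)) le_sup_right s)) := by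
  rw [rs_rs, ← rs_rs _ (le_sup_right : Y.U 0 ≤ Y.U 1 ⊔ Y.U 0) inf_le_left,
      (Y.tE j).co_rs' 0 le_rfl inf_le_left]

/-- coordinates of the restriction of a section over `x ≠ 0` -/
theorem coI_w (j : ℤ) (s : Γ(Y.EE (Y.cD ^ j), Y.U 3 ⊔ Y.U 2)) :
    (Y.tE j).co 1 (inf_le_left : Y.U 1 ⊓ Y.U 3 ≤ Y.U 1)
      (rs (Y.EE (Y.cD ^ j)) le_sup_left (rs (Y.EE (Y.cD ^ j)) Y.wle1 s)) =
      ((Y.xw ^ j : (Γ(X, Y.U 1 ⊓ Y.U 3))ˣ) : Γ(X, Y.U 1 ⊓ Y.U 3)) •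
        rV inf_le_right ((Y.tE j).co 3 le_rfl (rs (Y.EE (Y.cD ^ j)) le_sup_left s)) := by
  rw [rs_rs, ← rs_rs _ (le_sup_left : Y.U 3 ≤ Y.U 3 ⊔ Y.U 2) inf_le_right,
    Y.trnE' j 1 3 inf_le_left inf_le_right, (Y.tE j).co_rs' 3 le_rfl inf_le_right, Y.cD13]
  congr 1
  have h1 : !![1, Y.vA 1 3 inf_le_left inf_le_right;
      0, Y.vB 1 3 inf_le_left inf_le_right] = (1 : Matrix _ _ Γ(X, Y.U 1 ⊓ Y.U 3)) := by
    ext k l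
    fin_cases k <;> fin_cases l <;> simp [vA, vB]
  rw [h1, Matrix.one_mulVec]

theorem coI_z (j : ℤ) (s : Γ(Y.EE (Y.cD ^ j), Y.U 3 ⊔ Y.U 2)) :
    (Y.tE j).co 0 (inf_le_left : Y.U 0 ⊓ Y.U 2 ≤ Y.U 0)
      (rs (Y.EE (Y.cD ^ j)) le_sup_right (rs (Y.EE (Y.cD ^ j)) Y.wle1 s)) =
      ((Y.xz ^ j : (Γ(X, Y.U 0 ⊓ Y.U 2))ˣ) : Γ(X, Y.U 0 ⊓ Y.U 2)) •
        !![1, 0; 0, rO inf_le_right (Y.x 2) ^ 2] *ᵥ
        rV inf_le_right ((Y.tE j).co 2 le_rfl (rs (Y.EE (Y.cD ^ j)) le_sup_right s)) := by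
  rw [rs_rs, ← rs_rs _ (le_sup_right : Y.U 2 ≤ Y.U 3 ⊔ Y.U 2) inf_le_right,
    Y.trnE' j 0 2 inf_le_left inf_le_right, (Y.tE j).co_rs' 2 le_rfl inf_le_right, Y.cD02]
  rfl

theorem rs_eZ_u (j : ℤ) : rs _ Y.wle0 (Y.eZ j).u = (Y.eM j).u := by
  apply ext_of_co (Y.tE j) (iw := 1) (iz := 0) inf_le_left inf_le_left
  · rw [coZ_w, eM, FrE.ofTv_u_w, eZ, FrE.ofTv_u_w, rV_two, map_one, map_zero]
  · rw [coZ_z, eM, FrE.ofTv_u_z, eZ, FrE.ofTv_u_z, rV_two, map_one, map_zero]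

theorem rs_eZ_i (j : ℤ) : rs _ Y.wle0 (Y.eZ j).i = (Y.eM j).i := by
  apply ext_of_co (Y.tE j) (iw := 1) (iz := 0) inf_le_left inf_le_left
  · rw [coZ_w, eM, FrE.ofTv_i_w, eZ, FrE.ofTv_i_w, rV_two, map_one, map_zero]
  · rw [coZ_z, eM, FrE.ofTv_i_z, eZ, FrE.ofTv_i_z, rV_two, map_neg]
    rfl

theorem rs_eZ_j (j : ℤ) : rs _ Y.wle0 (Y.eZ j).j = (Y.eM j).j := by
  apply ext_of_co (Y.tE j) (iw := 1) (iz := 0) inf_le_left inf_le_left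
  · rw [coZ_w, eM, FrE.ofTv_j_w, eZ, FrE.ofTv_j_w, rV_two]
    rfl
  · rw [coZ_z, eM, FrE.ofTv_j_z, eZ, FrE.ofTv_j_z, rV_two, map_one, map_zero]

theorem rs_eI_u (j : ℤ) : rs _ Y.wle1 (Y.eI j).u =
    Con.sW Y.K01 (LaurentPolynomial.T j) • (Y.eM j).u := by
  apply ext_of_co (Y.tE j) (iw := 1) (iz := 0) inf_le_left inf_le_left
  · rw [rs_smul, map_smul, Y.sW_T_left, coI_w, eM, FrE.ofTv_u_w, eI, FrE.ofTv_u_w, rV_two,
      map_one, map_zero]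
  · rw [rs_smul, map_smul, Y.sW_T_right, coI_z, eM, FrE.ofTv_u_z, eI, FrE.ofTv_u_z, rV_two,
      map_one, map_zero, mulVec_two]
    congr 1
    exact two_ext (by ring) (by ring)

theorem rs_eI_i (j : ℤ) : rs _ Y.wle1 (Y.eI j).i =
    Con.sW Y.K01 (LaurentPolynomial.T j) • (Y.eM j).i := by
  apply ext_of_co (Y.tE j) (iw := 1) (iz := 0) inf_le_left inf_le_left
  · rw [rs_smul, map_smul, Y.sW_T_left, coI_w, eM, FrE.ofTv_i_w, eI, FrE.ofTv_i_w, rV_two,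
      map_one, map_zero]
  · rw [rs_smul, map_smul, Y.sW_T_right, coI_z, eM, FrE.ofTv_i_z, eI, FrE.ofTv_i_z, rV_two,
      map_neg, mulVec_two]
    congr 1
    have hx := Y.rel02x (W := Y.U 0 ⊓ Y.U 2) inf_le_left inf_le_right
    have hy := Y.rel02y (W := Y.U 0 ⊓ Y.U 2) inf_le_left inf_le_right
    have he := Y.rel02e (W := Y.U 0 ⊓ Y.U 2) inf_le_left inf_le_right
    refine two_ext ?_ ?_
    · change 1 * -rO _ (Y.e 2) + 0 * rO _ (Y.y 2) = - rO inf_le_left (Y.e 0)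
      linear_combination he
    · change 0 * -rO _ (Y.e 2) + rO _ (Y.x 2) ^ 2 * rO _ (Y.y 2) = rO inf_le_left (Y.y 0)
      linear_combination rO _ (Y.x 2) ^ 2 * hy +
        (rO _ (Y.y 0) * (rO _ (Y.x 0) * rO _ (Y.x 2) + 1)) * hx

/-- the unit of the base over `w ≠ 0` -/
theorem xw_sub (j : ℤ) : ((Y.xw ^ (j - 2) : (Γ(X, Y.U 1 ⊓ Y.U 3))ˣ) : Γ(X, Y.U 1 ⊓ Y.U 3)) *
    rO (inf_le_left : Y.U 1 ⊓ Y.U 3 ≤ Y.U 1) (Y.x 1) ^ 2 =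
      ((Y.xw ^ j : (Γ(X, Y.U 1 ⊓ Y.U 3))ˣ) : Γ(X, Y.U 1 ⊓ Y.U 3)) := by
  have h : Y.xw ^ (j - 2) * Y.xw ^ 2 = Y.xw ^ j := by
    rw [← zpow_natCast, ← _root_.zpow_add]
    congr 1
    norm_num
  have h1 := congrArg (fun r : (Γ(X, Y.U 1 ⊓ Y.U 3))ˣ => (r : Γ(X, Y.U 1 ⊓ Y.U 3))) h
  simp only [Units.val_mul, Units.val_pow_eq_pow_val] at h1
  exact h1

theorem xz_sub (j : ℤ) : ((Y.xz ^ (j - 2) : (Γ(X, Y.U 0 ⊓ Y.U 2))ˣ) : Γ(X, Y.U 0 ⊓ Y.U 2)) =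
    ((Y.xz ^ j : (Γ(X, Y.U 0 ⊓ Y.U 2))ˣ) : Γ(X, Y.U 0 ⊓ Y.U 2)) *
      rO (inf_le_right : Y.U 0 ⊓ Y.U 2 ≤ Y.U 2) (Y.x 2) ^ 2 := by
  have h : Y.xz ^ (j - 2) = Y.xz ^ j * Y.xz⁻¹ ^ 2 := by
    rw [_root_.zpow_sub, _root_.inv_pow]
    rfl
  have h1 := congrArg (fun r : (Γ(X, Y.U 0 ⊓ Y.U 2))ˣ => (r : Γ(X, Y.U 0 ⊓ Y.U 2))) h
  simp only [Units.val_mul, Units.val_pow_eq_pow_val] at h1
  exact h1

theorem rs_eI_j (j : ℤ) : rs _ Y.wle1 (Y.eI j).j =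
    Con.sW Y.K01 (LaurentPolynomial.T (j - 2)) • (Y.eM j).j := by
  apply ext_of_co (Y.tE j) (iw := 1) (iz := 0) inf_le_left inf_le_left
  · rw [rs_smul, map_smul, Y.sW_T_left, coI_w, eM, FrE.ofTv_j_w, eI, FrE.ofTv_j_w, rV_two,
      ← Y.xw_sub j, mul_smul]
    congr 1
    have hy := Y.rel13y (W := Y.U 1 ⊓ Y.U 3) inf_le_left inf_le_right
    have he := Y.rel13e (W := Y.U 1 ⊓ Y.U 3) inf_le_left inf_le_right
    funext k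
    fin_cases k
    · exact he.symm
    · exact hy.symm
  · rw [rs_smul, map_smul, Y.sW_T_right, coI_z, eM, FrE.ofTv_j_z, eI, FrE.ofTv_j_z, rV_two,
      map_one, map_zero, mulVec_two, Y.xz_sub j, mul_smul]
    congr 1
    funext k
    fin_cases k <;> simp

end XCharts

end

end Orl
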