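import Pool.Agent.Work.MP_a6e60d_ag.Perf.Dim

/-!
MP_a6e60d_ag, conic lemma, 1: Ext groups of the part `(supU A W).sh = j_!(A|W)` of a quasi-coherent
sheaf `A` supported on a union `W = U ⊔ V` of two affine open sets.
-/

set_option autoImplicit false

open CategoryTheory Limits TopologicalSpace AlgebraicGeometry Opposite Abelian

attribute [-instance] CategoryTheory.catToReflQuiver

universe w u

namespace Orl.Cnc

open Fdim Fdim.Coh Fdim.Loc

variable {X : Scheme.{u}} {A B : X.Modules}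

/-- the map on the sections over `U ≤ W` given by a morphism `j_!(A|W) ⟶ B` -/
noncomputable def secHom {W U : X.Opens} (h : U ≤ W) (φ : (supU A W).sh ⟶ B) :
    Γ(A, U) →ₗ[Γ(X, U)] Γ(B, U) where
  toFun s := ap φ U ((supU A W).mkS s (mem_supU_of_le h s))
  map_add' s t := by
    rw [← map_add]
    rfl
  map_smul' r s := by
    rw [RingHom.id_apply, ← ap_smul]
    rfl

theorem secHom_apply {W U : X.Opens} (h : U ≤ W) (φ : (supU A W).sh ⟶ B) (s : Γ(A, U)) :
    secHom h φ s = ap φ U ((supU A W).mkS s (mem_supU_of_le h s)) := rfl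

theorem secHom_add {W U : X.Opens} (h : U ≤ W) (φ ψ : (supU A W).sh ⟶ B) :
    secHom h (φ + ψ) = secHom h φ + secHom h ψ := by
  ext s
  exact ap_add φ ψ U _

theorem secHom_zero {W U : X.Opens} (h : U ≤ W) : secHom (A := A) (B := B) h 0 = 0 := by
  ext s
  exact ap_zero U _

theorem secHom_neg {W U : X.Opens} (h : U ≤ W) (φ : (supU A W).sh ⟶ B) :
    secHom h (-φ) = -secHom h φ := by
  rw [eq_neg_iff_add_eq_zero, ← secHom_add, neg_add_cancel, secHom_zero]

theorem secHom_rs {W U U' : X.Opens} (h : U ≤ W) (h' : U' ≤ U) (φ : (supU A W).sh ⟶ B)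
    (s : Γ(A, U)) : rs B h' (secHom h φ s) = secHom (h'.trans h) φ (rs A h' s) := by
  rw [secHom_apply, secHom_apply, ← ap_rs]
  rfl

theorem secHom_incl {W W' U : X.Opens} (h : U ≤ W') (h' : W' ≤ W)
    (φ : (supU A W).sh ⟶ B) :
    secHom h (SubSh.incl (supU A W') (supU A W) (supU_mono A h') ≫ φ) =
      secHom (h.trans h') φ := by
  ext s
  rw [secHom_apply, secHom_apply, ap_comp]
  rfl

/-- the conditions on `A` and the affine open set `U` -/
structure Good (A : X.Modules) (U : X.Opens) : Prop where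
  aff : IsAffineOpen U
  qc : LocOn A U
  fin : Module.Finite Γ(X, U) Γ(A, U)
  proj : Module.Projective Γ(X, U) Γ(A, U)

theorem Good.qu {U : X.Opens} (h : Good A U) : QU U (supU A U).sh := h.qc.qu

theorem Good.fin' {U : X.Opens} (h : Good A U) : Module.Finite Γ(X, U) Γ((supU A U).sh, U) :=
  have := h.fin
  Module.Finite.equiv (supUSecEquiv A U).symm

theorem Good.proj' {U : X.Opens} (h : Good A U) :
    Module.Projective Γ(X, U) Γ((supU A U).sh, U) :=
  have := h.proj
  Module.Projective.of_equiv (supUSecEquiv A U).symm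

theorem Good.secHom_injective {U : X.Opens} (h : Good A U) :
    Function.Injective (secHom (A := A) (B := B) (le_refl U)) := by
  intro φ ψ hφ
  refine h.qu.hom_ext h.aff fun s => ?_
  exact LinearMap.congr_fun hφ (supUSecEquiv A U s)

theorem Good.secHom_surjective {U : X.Opens} (h : Good A U) :
    Function.Surjective (secHom (A := A) (B := B) (le_refl U)) := by
  intro α
  obtain ⟨φ, hφ⟩ := h.qu.exists_hom h.aff h.fin' (α ∘ₗ (supUSecEquiv A U).toLinearMap)
  refine ⟨φ, ?_⟩
  ext s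
  rw [secHom_apply, hφ]
  rfl

/-- morphisms `j_!(A|U) ⟶ B`, `U` affine, are linear maps on sections -/
noncomputable def Good.homOf {U : X.Opens} (h : Good A U) (α : Γ(A, U) →ₗ[Γ(X, U)] Γ(B, U)) :
    (supU A U).sh ⟶ B := (h.secHom_surjective α).choose

theorem Good.secHom_homOf {U : X.Opens} (h : Good A U) (α : Γ(A, U) →ₗ[Γ(X, U)] Γ(B, U)) :
    secHom (le_refl U) (h.homOf α) = α := (h.secHom_surjective α).choose_spec

/-! ### Two open sets -/

/-- morphisms out of `j_!(A|(U ⊔ V))` -/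
theorem hom_ext_sup {U V : X.Opens} {φ ψ : (supU A (U ⊔ V)).sh ⟶ B}
    (h1 : SubSh.incl (supU A U) (supU A (U ⊔ V)) (supU_mono A le_sup_left) ≫ φ =
      SubSh.incl (supU A U) (supU A (U ⊔ V)) (supU_mono A le_sup_left) ≫ ψ)
    (h2 : SubSh.incl (supU A V) (supU A (U ⊔ V)) (supU_mono A le_sup_right) ≫ φ =
      SubSh.incl (supU A V) (supU A (U ⊔ V)) (supU_mono A le_sup_right) ≫ ψ) : φ = ψ := by
  have hS := supU_mv A U V
  refine hS.epi_g.left_cancellation _ _ ?_
  apply biprod.hom_ext'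
  · rw [← Category.assoc, ← Category.assoc, biprod.inl_desc]
    exact h1
  · rw [← Category.assoc, ← Category.assoc, biprod.inr_desc]
    exact h2

theorem exists_hom_sup {U V : X.Opens} (f : (supU A U).sh ⟶ B) (g : (supU A V).sh ⟶ B)
    (h : SubSh.incl (supU A (U ⊓ V)) (supU A U) (supU_mono A inf_le_left) ≫ f =
      SubSh.incl (supU A (U ⊓ V)) (supU A V) (supU_mono A inf_le_right) ≫ g) :
    ∃ φ : (supU A (U ⊔ V)).sh ⟶ B,
      SubSh.incl (supU A U) (supU A (U ⊔ V)) (supU_mono A le_sup_left) ≫ φ = f ∧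
      SubSh.incl (supU A V) (supU A (U ⊔ V)) (supU_mono A le_sup_right) ≫ φ = g := by
  have hS := supU_mv A U V
  have h0 : (SubSh.mv (supU A U) (supU A V) (supU A (U ⊔ V)) (supU A (U ⊓ V))
      (supU_mono A le_sup_left) (supU_mono A le_sup_right) (supU_mono A inf_le_left)
      (supU_mono A inf_le_right)).f ≫ biprod.desc f g = 0 := by
    rw [biprod.lift_desc, Preadditive.neg_comp, h, add_neg_cancel]
  have := hS.epi_g
  refine ⟨hS.exact.desc _ h0, ?_, ?_⟩
  · have h1 := hS.exact.g_desc _ h0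
    have h2 := congrArg (fun x => biprod.inl ≫ x) h1
    dsimp only at h2
    rw [biprod.inl_desc, ← Category.assoc, biprod.inl_desc] at h2
    exact h2
  · have h1 := hS.exact.g_desc _ h0
    have h2 := congrArg (fun x => biprod.inr ≫ x) h1
    dsimp only at h2
    rw [biprod.inr_desc, ← Category.assoc, biprod.inr_desc] at h2
    exact h2

/-- morphisms out of `j_!(A|(U ⊔ V))` are compatible pairs of linear maps -/
theorem Good.sup_ext {U V : X.Opens} (hU : Good A U) (hV : Good A V)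
    {φ ψ : (supU A (U ⊔ V)).sh ⟶ B} (h1 : secHom (U := U) le_sup_left φ = secHom le_sup_left ψ)
    (h2 : secHom (U := V) le_sup_right φ = secHom le_sup_right ψ) : φ = ψ := by
  apply hom_ext_sup
  · apply hU.secHom_injective
    rw [secHom_incl le_rfl le_sup_left, secHom_incl le_rfl le_sup_left]
    exact h1
  · apply hV.secHom_injective
    rw [secHom_incl le_rfl le_sup_right, secHom_incl le_rfl le_sup_right]
    exact h2

theorem Good.exists_sup {U V : X.Opens} (hU : Good A U) (hV : Good A V)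
    (hUV : Good A (U ⊓ V)) (α : Γ(A, U) →ₗ[Γ(X, U)] Γ(B, U)) (β : Γ(A, V) →ₗ[Γ(X, V)] Γ(B, V))
    (γ : Γ(A, U ⊓ V) →ₗ[Γ(X, U ⊓ V)] Γ(B, U ⊓ V))
    (h1 : secHom inf_le_left (hU.homOf α) = γ) (h2 : secHom inf_le_right (hV.homOf β) = γ) :
    ∃ φ : (supU A (U ⊔ V)).sh ⟶ B, secHom le_sup_left φ = α ∧ secHom le_sup_right φ = β := by
  obtain ⟨φ, h3, h4⟩ := exists_hom_sup (hU.homOf α) (hV.homOf β) (by
    apply hUV.secHom_injective
    rw [secHom_incl le_rfl inf_le_left, secHom_incl le_rfl inf_le_right, h1, h2])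
  refine ⟨φ, ?_, ?_⟩
  · rw [← hU.secHom_homOf α, ← h3, secHom_incl le_rfl le_sup_left]
  · rw [← hV.secHom_homOf β, ← h4, secHom_incl le_rfl le_sup_right]

section ext

variable [HasExt.{w} X.Modules]

theorem Good.ext_eq_zero {U : X.Opens} (h : Good A U) [B.IsQuasicoherent] (n : ℕ)
    (x : Ext.{w} (supU A U).sh B (n + 1)) : x = 0 :=
  h.qu.ext_eq_zero_of_projective h.aff (fun n α => serre_vanishing B n U h.aff α) h.fin' h.proj' n x

theorem Good.ext_two {U V : X.Opens} (hU : Good A U) (hV : Good A V)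
    (hUV : Good A (U ⊓ V)) [B.IsQuasicoherent] (n : ℕ)
    (x : Ext.{w} (supU A (U ⊔ V)).sh B (n + 2)) : x = 0 :=
  ext_eq_zero_of_shortExact (B := B) (supU_mv A U V) (n := n + 1) (hUV.ext_eq_zero n)
    (ext_biprod_eq_zero (hU.ext_eq_zero (n + 1)) (hV.ext_eq_zero (n + 1))) x

/-- `Ext^1(j_!(A|(U ⊔ V)), B) = 0` if every linear map on the sections over `U ⊓ V` is the
difference of restrictions -/
theorem Good.ext_one {U V : X.Opens} (hU : Good A U) (hV : Good A V)
    (hUV : Good A (U ⊓ V)) [B.IsQuasicoherent]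
    (h : ∀ γ : Γ(A, U ⊓ V) →ₗ[Γ(X, U ⊓ V)] Γ(B, U ⊓ V), ∃ (f : (supU A U).sh ⟶ B)
      (g : (supU A V).sh ⟶ B), γ = secHom inf_le_left f - secHom inf_le_right g)
    (x : Ext.{w} (supU A (U ⊔ V)).sh B 1) : x = 0 := by
  have hS := supU_mv A U V
  obtain ⟨y, hy⟩ := Ext.contravariant_sequence_exact₃ hS B x
    (ext_biprod_eq_zero (hU.ext_eq_zero 0) (hV.ext_eq_zero 0) _) (add_zero 1)
  obtain ⟨f, g, hfg⟩ := h (secHom le_rfl (Ext.homEquiv₀ y))
  have h2 : Ext.homEquiv₀ y = (SubSh.mv (supU A U) (supU A V) (supU A (U ⊔ V)) (supU A (U ⊓ V))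
      (supU_mono A le_sup_left) (supU_mono A le_sup_right) (supU_mono A inf_le_left)
      (supU_mono A inf_le_right)).f ≫ biprod.desc f g := by
    apply hUV.secHom_injective
    rw [hfg, biprod.lift_desc, Preadditive.neg_comp, secHom_add, secHom_neg,
      secHom_incl le_rfl inf_le_left, secHom_incl le_rfl inf_le_right, sub_eq_add_neg]
  have h1 : y = (Ext.mk₀ (SubSh.mv (supU A U) (supU A V) (supU A (U ⊔ V)) (supU A (U ⊓ V))
      (supU_mono A le_sup_left) (supU_mono A le_sup_right) (supU_mono A inf_le_left)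
      (supU_mono A inf_le_right)).f).comp (Ext.mk₀ (biprod.desc f g)) (zero_add 0) := by
    rw [Ext.mk₀_comp_mk₀, ← h2, Ext.mk₀_homEquiv₀_apply]
  rw [← hy, h1]
  exact ShortComplex.ShortExact.extClass_comp_assoc _ _

end ext

end Orl.Cnc
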